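import Pool.Agent.R426.QK.Stm

/-!
# Project QK (helper426), job QK-BOX, second part: the count in a box

A port of the file `Pool/Agent/Y688/XK/BOX.lean` (project XK) to the quadratic symbols of the ring
`RR`.
-/

set_option autoImplicit false
set_option linter.unusedVariables false

open scoped Classical

namespace Pool.Agent.R426.QK.BOX

open Finset
open Pool.Agent.Y698
open Pool.Agent.R426.QK

theorem z2_self (a : ZMod 2) : a + a = 0 := by
  revert a
  decide

theorem z2_swap {a b c : ZMod 2} (h : a + b = c) : b = a + c := by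
  revert h
  revert a b c
  decide

/-- the label of a prime with respect to the small primes -/
noncomputable def lb (S₀ : Finset RR) (x : RR) : (S₀ → ZMod 2) × ZMod 2 × ZMod 2 :=
  (fun u => cs x u, ss x, tt x)

/-- the good labels -/
def LN {ι : Type} (S₀ : Finset RR) (β : ι → (S₀ → ZMod 2) × ZMod 2 × ZMod 2) : Prop :=
  ∀ (w : S₀ → ZMod 2) (e : ZMod 2), ((∃ u, w u ≠ 0) ∨ e ≠ 0) →
    (∃ k, e * (β k).2.1 + ∑ u, w u * ((β k).1 u + tt u * (β k).2.2) ≠ 0) ∧
    ∃ k, e * ((β k).2.1 + (β k).2.2) + ∑ u, w u * (β k).1 u ≠ 0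

section one
variable {ι : Type} [Fintype ι] [LinearOrder ι] {S₀ : Finset RR} {p : ι → RR}

/-- extension by zero -/
noncomputable def ez0 {S₀ : Finset RR} (v : S₀ → ZMod 2) (n : RR) : ZMod 2 :=
  if h : n ∈ S₀ then v ⟨n, h⟩ else 0

theorem ez0_coe {S₀ : Finset RR} (v : S₀ → ZMod 2) (u : S₀) : ez0 v u = v u := by
  unfold ez0
  rw [dif_pos u.2]

omit [Fintype ι] [LinearOrder ι] in
theorem cs_sw (hrec : RecP) (hpr : ∀ i, Pq (p i)) (hS₀ : ∀ u ∈ S₀, Pq u)
    (hd : ∀ i, p i ∉ S₀) (k : ι) (u : S₀) :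
    cs (u : RR) (p k) = cs (p k) u + tt (u : RR) * tt (p k) := by
  have hne : p k ≠ u := fun h => hd k (by rw [h]; exact u.2)
  have h := hrec (p k) u (hpr k) (hS₀ u u.2) hne
  rw [z2_swap h, mul_comm]

omit [LinearOrder ι] in
theorem nd_iff (hrec : RecP) (hpr : ∀ i, Pq (p i)) (hS₀ : ∀ u ∈ S₀, Pq u)
    (hd : ∀ i, p i ∉ S₀) : Nd S₀ (univ.image p) ↔ LN S₀ (fun i => lb S₀ (p i)) := by
  unfold Nd LN
  have e1 : ∀ (w : RR → ZMod 2) (e : ZMod 2) (i : ι),
      e * ss (p i) + ∑ u ∈ S₀, w u * cs u (p i) =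
      e * (lb S₀ (p i)).2.1 + ∑ u : S₀, w u * ((lb S₀ (p i)).1 u + tt u * (lb S₀ (p i)).2.2) := by
    intro w e i
    rw [← Finset.sum_coe_sort S₀]
    congr 1
    refine Finset.sum_congr rfl fun u _ => ?_
    rw [cs_sw hrec hpr hS₀ hd i u]
    rfl
  have e2 : ∀ (w : RR → ZMod 2) (e : ZMod 2) (i : ι),
      e * (ss (p i) + tt (p i)) + ∑ u ∈ S₀, w u * cs (p i) u =
      e * ((lb S₀ (p i)).2.1 + (lb S₀ (p i)).2.2) + ∑ u : S₀, w u * (lb S₀ (p i)).1 u := by
    intro w e i
    rw [← Finset.sum_coe_sort S₀]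
    rfl
  constructor
  · intro h w e hw
    have hw' : (∃ u ∈ S₀, ez0 w u ≠ 0) ∨ e ≠ 0 := by
      rcases hw with ⟨u, hu⟩ | hw
      · exact Or.inl ⟨u, u.2, by rw [ez0_coe]; exact hu⟩
      · exact Or.inr hw
    obtain ⟨⟨x, hx, hx2⟩, ⟨y, hy, hy2⟩⟩ := h (ez0 w) e hw'
    rw [Finset.mem_image] at hx hy
    obtain ⟨i, -, rfl⟩ := hx
    obtain ⟨j, -, rfl⟩ := hy
    rw [e1] at hx2
    rw [e2] at hy2
    simp only [ez0_coe] at hx2 hy2
    exact ⟨⟨i, hx2⟩, ⟨j, hy2⟩⟩
  · intro h w e hw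
    have hw' : (∃ u : S₀, (fun u : S₀ => w u) u ≠ 0) ∨ e ≠ 0 := by
      rcases hw with ⟨u, hu0, hu⟩ | hw
      · exact Or.inl ⟨⟨u, hu0⟩, hu⟩
      · exact Or.inr hw
    obtain ⟨⟨i, hi⟩, ⟨j, hj⟩⟩ := h (fun u => w u) e hw'
    refine ⟨⟨p i, Finset.mem_image_of_mem _ (Finset.mem_univ _), ?_⟩,
      ⟨p j, Finset.mem_image_of_mem _ (Finset.mem_univ _), ?_⟩⟩
    · rw [e1]
      exact hi
    · rw [e2]
      exact hj

omit [LinearOrder ι] in
theorem sum_un (hp : Function.Injective p) (hd : ∀ i, p i ∉ S₀) (f : RR → ZMod 2) :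
    ∑ x ∈ S₀ ∪ univ.image p, f x = ∑ u : S₀, f u + ∑ l, f (p l) := by
  rw [Finset.sum_union, Finset.sum_image (fun a _ b _ h => hp h), ← Finset.sum_coe_sort S₀]
  rw [Finset.disjoint_left]
  intro x hx hx'
  rw [Finset.mem_image] at hx'
  obtain ⟨i, -, rfl⟩ := hx'
  exact hd i hx

theorem ext_sum (hrec : RecP) (hp : Function.Injective p) (hpr : ∀ i, Pq (p i)) (k : ι)
    (d : ι → ZMod 2) :
    ∑ l, Pool.Agent.R426.QK.ext (fun i => tt (p i))
      (fun e : prs ι => cs (p e.1.1) (p e.1.2)) k l * (d k + d l) =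
      ∑ l, cs (p l) (p k) * (d k + d l) := by
  refine Finset.sum_congr rfl fun l _ => ?_
  by_cases hlk : l = k
  · rw [hlk, z2_self, mul_zero, mul_zero]
  congr 1
  unfold Pool.Agent.R426.QK.ext
  by_cases h : (l, k) ∈ prs ι
  · rw [dif_pos h]
  · rw [dif_neg h]
    have h2 : (k, l) ∈ prs ι := by
      unfold prs at h ⊢
      rw [Finset.mem_filter] at h ⊢
      refine ⟨Finset.mem_univ _, ?_⟩
      rcases lt_trichotomy k l with h1 | h1 | h1
      · exact h1
      · exact absurd h1.symm hlk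
      · exact absurd ⟨Finset.mem_univ _, h1⟩ h
    rw [dif_pos h2]
    have h3 := hrec (p k) (p l) (hpr k) (hpr l) (fun h => hlk (hp h).symm)
    exact (z2_swap h3).symm

theorem gd_iff (hrec : RecP) (hp : Function.Injective p) (hpr : ∀ i, Pq (p i))
    (hS₀ : ∀ u ∈ S₀, Pq u) (hd : ∀ i, p i ∉ S₀) :
    Gd (S₀ ∪ univ.image p) ↔ GdA (fun u : S₀ => ss u) (fun u : S₀ => tt u)
      (fun i => ss (p i)) (fun i => tt (p i)) (fun u v : S₀ => cs v u)
      (fun (u : S₀) l => cs (p l) u)
      (Pool.Agent.R426.QK.ext (fun i => tt (p i)) fun e : prs ι => cs (p e.1.1) (p e.1.2)) := by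
  have hsol : ∀ c : RR → ZMod 2, Sol (S₀ ∪ univ.image p) c ↔
      (∀ u : S₀, ss u * c u + ∑ v : S₀, cs v u * (c u + c v) +
        ∑ l, cs (p l) u * (c u + c (p l)) = 0) ∧
      (∀ k : ι, ss (p k) * c (p k) + ∑ u : S₀, (cs (p k) u + tt u * tt (p k)) * (c (p k) + c u) +
        ∑ l, Pool.Agent.R426.QK.ext (fun i => tt (p i))
          (fun e : prs ι => cs (p e.1.1) (p e.1.2)) k l * (c (p k) + c (p l)) = 0) := by
    intro c
    have hsym : ∀ k : ι, ∑ u : S₀, cs (u : RR) (p k) * (c (p k) + c u) =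
        ∑ u : S₀, (cs (p k) u + tt (u : RR) * tt (p k)) * (c (p k) + c u) := by
      intro k
      refine Finset.sum_congr rfl fun u _ => ?_
      rw [cs_sw hrec hpr hS₀ hd k u]
    unfold Sol
    constructor
    · intro h
      refine ⟨fun u => ?_, fun k => ?_⟩
      · have := h u (Finset.mem_union_left _ u.2)
        rw [sum_un hp hd, ← add_assoc] at this
        exact this
      · have := h (p k) (Finset.mem_union_right _ (Finset.mem_image_of_mem _ (Finset.mem_univ _)))
        rw [sum_un hp hd, hsym, ← add_assoc] at this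
        rw [ext_sum hrec hp hpr k (fun l => c (p l))]
        exact this
    · rintro ⟨h1, h2⟩ x hx
      rw [sum_un hp hd, ← add_assoc]
      rw [Finset.mem_union, Finset.mem_image] at hx
      rcases hx with hx | ⟨k, -, rfl⟩
      · exact h1 ⟨x, hx⟩
      · have := h2 k
        rw [ext_sum hrec hp hpr k (fun l => c (p l))] at this
        rw [hsym]
        exact this
  unfold Gd GdA
  constructor
  · intro h c d h1 h2
    obtain ⟨c', hc'⟩ : ∃ c' : RR → ZMod 2, ∀ n, c' n = if h : n ∈ S₀ then c ⟨n, h⟩ else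
      if h : ∃ l, p l = n then d h.choose else 0 := ⟨_, fun n => rfl⟩
    have e1 : ∀ u : S₀, c' u = c u := by
      intro u
      rw [hc', dif_pos u.2]
    have e2 : ∀ l, c' (p l) = d l := by
      intro l
      have hex : ∃ l', p l' = p l := ⟨l, rfl⟩
      rw [hc', dif_neg (hd l), dif_pos hex]
      exact congrArg d (hp hex.choose_spec)
    have hs : Sol (S₀ ∪ univ.image p) c' := by
      rw [hsol]
      refine ⟨fun u => ?_, fun k => ?_⟩
      · simp only [e1, e2]
        exact h1 u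
      · simp only [e1, e2]
        exact h2 k
    have h3 := h c' hs
    refine ⟨fun u => ?_, fun l => ?_⟩
    · rw [← e1]
      exact h3 _ (Finset.mem_union_left _ u.2)
    · rw [← e2]
      exact h3 _ (Finset.mem_union_right _ (Finset.mem_image_of_mem _ (Finset.mem_univ _)))
  · intro h c hc
    rw [hsol] at hc
    obtain ⟨ht1, ht2⟩ := h (fun u => c u) (fun l => c (p l)) (fun u => hc.1 u)
      (fun k => hc.2 k)
    intro x hx
    rw [Finset.mem_union, Finset.mem_image] at hx
    rcases hx with hx | ⟨k, -, rfl⟩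
    · exact ht1 ⟨x, hx⟩
    · exact ht2 k

end one

theorem HB_sub {ι : Type} {C : ι → Finset RR} {X : ι → ℕ} {κ : ℝ}
    (h : HB C X κ) (P : ι → RR → Prop) [∀ i, DecidablePred (P i)] :
    HB (fun i => (C i).filter (P i)) X κ := by
  intro i l hil c d hc hd
  have h1 := h i l hil (fun x => if P i x then c x else 0) (fun y => if P l y then d y else 0)
    (fun x => by
      split_ifs
      · exact hc x
      · simp) (fun y => by
      split_ifs
      · exact hd y
      · simp)
  refine (le_of_eq ?_).trans h1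
  congr 1
  rw [Finset.sum_filter]
  refine Finset.sum_congr rfl fun x _ => ?_
  by_cases hx : P i x
  · rw [if_pos hx, Finset.sum_filter]
    refine Finset.sum_congr rfl fun y _ => ?_
    by_cases hy : P l y
    · rw [if_pos hy, if_pos hx, if_pos hy]
    · rw [if_neg hy, if_neg hy, mul_zero, zero_mul]
  · rw [if_neg hx]
    symm
    refine Finset.sum_eq_zero fun y _ => ?_
    rw [if_neg hx, zero_mul, zero_mul]

/-- **The count in a box.** -/
theorem t_BOX : S_BOX := by
  intro hrec hEQ ε V hLA ι _ _ C X κ S₀ hκ hCX hHB hS₀ hC hdis hhyp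
  obtain ⟨R, hR⟩ : ∃ R : ℝ, R = 2 ^ (prs ι).card * (κ * ∏ j, (X j : ℝ)) := ⟨_, rfl⟩
  have hR0 : 0 ≤ R := by
    rw [hR]
    exact mul_nonneg (by positivity)
      (mul_nonneg hκ (Finset.prod_nonneg fun j _ => by positivity))
  -- facts on tuples
  have hinj : ∀ p ∈ Fintype.piFinset C, Function.Injective p := by
    intro p hp i j hij
    rw [Fintype.mem_piFinset] at hp
    by_contra hne
    have h1 := Finset.disjoint_left.1 (hdis i j hne) (hp i)
    rw [hij] at h1
    exact h1 (hp j)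
  have hd : ∀ p ∈ Fintype.piFinset C, ∀ i, p i ∉ S₀ := by
    intro p hp i
    rw [Fintype.mem_piFinset] at hp
    exact (hC i _ (hp i)).2
  have hpr : ∀ p ∈ Fintype.piFinset C, ∀ i, Pq (p i) := by
    intro p hp i
    rw [Fintype.mem_piFinset] at hp
    exact (hC i _ (hp i)).1
  -- the part with given labels
  have h1 : ∀ β : ι → (S₀ → ZMod 2) × ZMod 2 × ZMod 2, LN S₀ β →
      |(((Fintype.piFinset C).filter fun p => (fun i => lb S₀ (p i)) = β ∧
          Gd (S₀ ∪ univ.image p)).card : ℝ) -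
        c2 * (((Fintype.piFinset C).filter fun p => (fun i => lb S₀ (p i)) = β).card : ℝ)| ≤
      ε * (((Fintype.piFinset C).filter fun p => (fun i => lb S₀ (p i)) = β).card : ℝ) + R := by
    intro β hβ
    by_cases hex : ∃ p ∈ Fintype.piFinset C, (fun i => lb S₀ (p i)) = β
    swap
    · have e1 : ((Fintype.piFinset C).filter fun p => (fun i => lb S₀ (p i)) = β) = ∅ := by
        rw [Finset.filter_eq_empty_iff]
        intro p hp h
        exact hex ⟨p, hp, h⟩
      have e2 : ((Fintype.piFinset C).filter fun p => (fun i => lb S₀ (p i)) = β ∧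
          Gd (S₀ ∪ univ.image p)) = ∅ := by
        rw [Finset.filter_eq_empty_iff]
        rintro p hp ⟨h, -⟩
        exact hex ⟨p, hp, h⟩
      rw [e1, e2, Finset.card_empty, Nat.cast_zero, mul_zero, mul_zero, sub_zero, abs_zero,
        zero_add]
      exact hR0
    obtain ⟨q₀, hq₀, hq₀β⟩ := hex
    obtain ⟨hc1, hc2⟩ := hhyp q₀ hq₀
    obtain ⟨C', hC'⟩ : ∃ C' : ι → Finset RR, C' = fun i => (C i).filter fun q => lb S₀ q = β i :=
      ⟨_, rfl⟩
    have hpi : (Fintype.piFinset C).filter (fun p => (fun i => lb S₀ (p i)) = β) =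
        Fintype.piFinset C' := by
      ext p
      simp only [Finset.mem_filter, Fintype.mem_piFinset, hC']
      constructor
      · rintro ⟨h2, h3⟩ i
        exact ⟨h2 i, congrFun h3 i⟩
      · intro h2
        exact ⟨fun i => (h2 i).1, funext fun i => (h2 i).2⟩
    have htt : ∀ i, (β i).2.2 = tt (q₀ i) := by
      intro i
      rw [← hq₀β]
      rfl
    have h2 := hLA S₀ ι (fun u => ss u) (fun u => tt u) (fun i => (β i).2.1) (fun i => (β i).2.2)
      (fun u v => cs v u) (fun u l => (β l).1 u)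
      (by
        rw [Fintype.card_coe]
        simp only [htt]
        exact hc1)
      (by
        simp only [htt]
        rw [Finset.sum_coe_sort S₀ (fun u => tt u)]
        exact hc2)
      (fun u v huv => by
        have h3 := hrec (u : RR) v (hS₀ u u.2) (hS₀ v v.2) (fun h => huv (Subtype.ext h))
        rw [← h3, add_comm])
      (fun w e hw => hβ w e hw)
    obtain ⟨Q, hQ⟩ : ∃ Q : (prs ι → ZMod 2) → Prop, Q = fun α =>
        GdA (fun u : S₀ => ss u) (fun u : S₀ => tt u) (fun i => (β i).2.1) (fun i => (β i).2.2)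
          (fun u v : S₀ => cs v u) (fun (u : S₀) l => (β l).1 u)
          (Pool.Agent.R426.QK.ext (fun i => (β i).2.2) α) := ⟨_, rfl⟩
    have h3 := hEQ ι C' X κ hκ
      (fun i => (Finset.card_le_card (by rw [hC']; exact Finset.filter_subset _ _)).trans (hCX i))
      (by rw [hC']; exact HB_sub hHB fun i q => lb S₀ q = β i) Q
    have h4 : ((Fintype.piFinset C).filter fun p => (fun i => lb S₀ (p i)) = β ∧
        Gd (S₀ ∪ univ.image p)) = ((Fintype.piFinset C').filter fun p =>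
          Q fun e => cs (p e.1.1) (p e.1.2)) := by
      rw [← hpi, Finset.filter_filter]
      refine Finset.filter_congr fun p hp => ?_
      refine and_congr_right fun hl => ?_
      rw [gd_iff hrec (hinj p hp) (hpr p hp) hS₀ (hd p hp)]
      subst hl
      rw [hQ]
      exact Iff.rfl
    have h5 : (((Fintype.piFinset C').card : ℕ) : ℝ) = ∏ j, ((C' j).card : ℝ) := by
      rw [Fintype.card_piFinset]
      push_cast
      rfl
    rw [h4, hpi, h5]
    rw [← hR] at h3
    obtain ⟨n, hn⟩ : ∃ n : ℝ, n = (((Fintype.piFinset C').filter fun p =>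
          Q fun e => cs (p e.1.1) (p e.1.2)).card : ℝ) := ⟨_, rfl⟩
    obtain ⟨q, hq⟩ : ∃ q : ℝ, q = ((univ.filter Q).card : ℝ) / 2 ^ (prs ι).card := ⟨_, rfl⟩
    obtain ⟨P, hP⟩ : ∃ P : ℝ, P = ∏ j, ((C' j).card : ℝ) := ⟨_, rfl⟩
    have hP0 : 0 ≤ P := by
      rw [hP]
      exact Finset.prod_nonneg fun j _ => by positivity
    have h2' : |q - c2| ≤ ε := by
      rw [hq, hQ]
      exact h2
    rw [← hn, ← hq, ← hP] at h3
    rw [← hn, ← hP]
    have h6 : |n - c2 * P| ≤ |n - q * P| + |q - c2| * P := by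
      have h7 : n - c2 * P = (n - q * P) + (q - c2) * P := by ring
      have h8 : |(q - c2) * P| = |q - c2| * P := by rw [abs_mul, abs_of_nonneg hP0]
      rw [h7, ← h8]
      exact abs_add_le _ _
    have h7 : |q - c2| * P ≤ ε * P := mul_le_mul_of_nonneg_right h2' hP0
    linarith
  -- sum over the labels
  obtain ⟨LL, hLL⟩ : ∃ LL : Finset (ι → (S₀ → ZMod 2) × ZMod 2 × ZMod 2),
      LL = univ.filter (fun β => LN S₀ β) := ⟨_, rfl⟩
  have hfib : ∀ T : (ι → RR) → Prop,
      (((Fintype.piFinset C).filter fun p => Nd S₀ (univ.image p) ∧ T p).card : ℝ) =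
      ∑ β ∈ LL, (((Fintype.piFinset C).filter fun p =>
        (fun i => lb S₀ (p i)) = β ∧ T p).card : ℝ) := by
    intro T
    rw [Finset.card_eq_sum_card_fiberwise (f := fun (p : ι → RR) (i : ι) => lb S₀ (p i))
      (t := LL) (by
        intro p hp
        rw [Finset.mem_coe, Finset.mem_filter] at hp
        rw [Finset.mem_coe, hLL, Finset.mem_filter]
        exact ⟨Finset.mem_univ _, (nd_iff hrec (hpr p hp.1) hS₀ (hd p hp.1)).1 hp.2.1⟩)]
    push_cast
    refine Finset.sum_congr rfl fun β hβ => ?_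
    rw [hLL, Finset.mem_filter] at hβ
    congr 2
    ext p
    simp only [Finset.mem_filter]
    constructor
    · rintro ⟨⟨h3, h4, h4'⟩, h5⟩
      exact ⟨h3, h5, h4'⟩
    · rintro ⟨h3, h4, h5⟩
      refine ⟨⟨h3, ?_, h5⟩, h4⟩
      rw [nd_iff hrec (hpr p h3) hS₀ (hd p h3), h4]
      exact hβ.2
  have hf1 := hfib fun p => Gd (S₀ ∪ univ.image p)
  have hf2 := hfib fun _ => True
  simp only [and_true] at hf2
  rw [hf1, hf2, Finset.mul_sum, ← Finset.sum_sub_distrib]
  refine (Finset.abs_sum_le_sum_abs _ _).trans ?_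
  refine (Finset.sum_le_sum fun β hβ => h1 β (by
    rw [hLL] at hβ
    exact (Finset.mem_filter.1 hβ).2)).trans ?_
  rw [Finset.sum_add_distrib, ← Finset.mul_sum, Finset.sum_const, nsmul_eq_mul]
  have h5 : ((LL.card : ℕ) : ℝ) ≤ 2 ^ ((S₀.card + 2) * Fintype.card ι) := by
    have h6 : LL.card ≤ Fintype.card (ι → (S₀ → ZMod 2) × ZMod 2 × ZMod 2) :=
      Finset.card_le_univ _
    rw [Fintype.card_fun, Fintype.card_prod, Fintype.card_prod, Fintype.card_fun, ZMod.card,
      Fintype.card_coe] at h6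
    have h7 : 2 ^ S₀.card * (2 * 2) = 2 ^ (S₀.card + 2) := by ring
    rw [h7, ← pow_mul] at h6
    exact_mod_cast h6
  have h6 := mul_le_mul_of_nonneg_right h5 hR0
  rw [pow_add, mul_assoc, ← hR]
  linarith

end Pool.Agent.R426.QK.BOX
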