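import Pool.Agent.R426.QK.Stm
import Pool.Agent.Y495.CX.FEW

/-!
Project QK: FEW and BAD (helper806), after `Pool/Agent/Y433/XK/Gen.lean` and `Few.lean` (helper433).
-/

set_option autoImplicit false

open scoped Classical

namespace Pool.Agent.R426.QK.FB

open Finset Filter
open Pool.Agent.R426.QK
open Pool.Agent.Y698 (RR e7 e7_sq e7_eq_zero fR cj aR nR mul_cj cj_cj)
open Pool.Agent.Y698.SG (sy sy_val lg_one lg_neg_one)
open Pool.Agent.Y703.CX (eL zz kk)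
open Pool.Agent.Y495.CX.Few (eL_tendsto log_small zz_ge loglog_zz rpow_eq)

/-! ### Tools -/

lemma one_le_lgn (T : ℕ) : 1 ≤ lgn T := by
  unfold lgn
  have : (0 : ℝ) ≤ Nat.log 2 T := Nat.cast_nonneg _
  linarith

lemma lgn_pos (T : ℕ) : 0 < lgn T := lt_of_lt_of_le one_pos (one_le_lgn T)

lemma lgn_mono {a b : ℕ} (h : a ≤ b) : lgn a ≤ lgn b := by
  unfold lgn
  have : (Nat.log 2 a : ℝ) ≤ Nat.log 2 b := by exact_mod_cast Nat.log_mono_right h
  linarith

lemma log_le_lgn {n : ℕ} (hn : 1 ≤ n) : Real.log n ≤ lgn n := by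
  have h1 : n < 2 ^ (Nat.log 2 n + 1) := Nat.lt_pow_succ_log_self (by norm_num) n
  have h2 : (n : ℝ) ≤ 2 ^ (Nat.log 2 n + 1) := by exact_mod_cast h1.le
  have h3 := Real.log_le_log (by exact_mod_cast hn) h2
  rw [Real.log_pow] at h3
  unfold lgn
  have h4 := Real.log_two_lt_d9
  have h5 : (0 : ℝ) ≤ Nat.log 2 n := Nat.cast_nonneg _
  push_cast at h3
  nlinarith

lemma lgn_le_log {T : ℕ} (hT : 2 ≤ T) : lgn T ≤ 3 * Real.log T := by
  have h1 : (Nat.log 2 T : ℝ) * Real.log 2 ≤ Real.log T := by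
    have h2 : (2 : ℝ) ^ (Nat.log 2 T) ≤ T := by exact_mod_cast Nat.pow_log_le_self 2 (by omega)
    have h3 := Real.log_le_log (by positivity) h2
    rwa [Real.log_pow] at h3
  have h3 := Real.log_two_gt_d9
  have h4 : 1 ≤ Nat.log 2 T := Nat.log_pos (by norm_num) hT
  have h5 : (1 : ℝ) ≤ Nat.log 2 T := by exact_mod_cast h4
  unfold lgn
  nlinarith

lemma sum_le_inj {α β : Type*} [DecidableEq β] {s : Finset α} {t : Finset β} {f : α → ℝ} {g : β → ℝ}
    (i : α → β) (hi : ∀ a ∈ s, i a ∈ t) (inj : ∀ a ∈ s, ∀ b ∈ s, i a = i b → a = b)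
    (hfg : ∀ a ∈ s, f a ≤ g (i a)) (hg : ∀ b ∈ t, 0 ≤ g b) : ∑ a ∈ s, f a ≤ ∑ b ∈ t, g b := by
  refine (sum_le_sum hfg).trans ?_
  rw [← sum_image (f := g) (g := i) (fun a ha b hb h => inj a ha b hb h)]
  refine sum_le_sum_of_subset_of_nonneg ?_ (fun b hb _ => hg b hb)
  intro b hb
  obtain ⟨a, ha, rfl⟩ := mem_image.1 hb
  exact hi a ha

lemma nrm_prod {ι : Type*} (s : Finset ι) (p : ι → RR) :
    nrm (∏ i ∈ s, p i) = ∏ i ∈ s, nrm (p i) := by
  induction s using Finset.induction_on with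
  | empty => rw [prod_empty, prod_empty, nrm_one]
  | insert a s ha ih => rw [prod_insert ha, prod_insert ha, nrm_mul, ih]

lemma mem_SB {M : ℕ} {n : RR} : n ∈ SB M ↔ nrm n ≤ M ∧ PS n := by
  unfold SB
  rw [mem_filter, mem_ZB]

lemma mf_nonneg {g : RR → ℝ} (h0 : ∀ π, 0 ≤ g π) (n : RR) : 0 ≤ mf g n :=
  prod_nonneg fun _ _ => h0 _

/-- the product of the norms -/
noncomputable def pN (S : Finset RR) : ℕ := ∏ π ∈ S, nrm π

theorem pN_pos {S : Finset RR} (h : ∀ π ∈ S, Pq π) : 0 < pN S :=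
  Finset.prod_pos fun π hπ => nrm_pos' (pq_ne (h π hπ))

theorem eulerE (P : Finset RR) (w : RR → ℝ) (hw : ∀ p ∈ P, 0 ≤ w p) :
    ∑ S ∈ P.powerset, ∏ p ∈ S, w p ≤ Real.exp (∑ p ∈ P, w p) := by
  rw [← Finset.prod_one_add, Real.exp_sum]
  refine prod_le_prod (fun p hp => by have := hw p hp; linarith) fun p _ => ?_
  have := Real.add_one_le_exp (w p)
  linarith

/-- the sum over the small parts -/
theorem small_sum (a : ℝ) (ha : 0 ≤ a) (z : ℕ) :
    ∑ S ∈ (QB z).powerset, a ^ S.card * (1 / (pN S : ℝ)) ≤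
      Real.exp (a * ∑ π ∈ QB z, (1 : ℝ) / nrm π) := by
  have h := eulerE (QB z) (fun π => a * (1 / (nrm π : ℝ))) fun π _ => by positivity
  rw [← mul_sum] at h
  refine le_trans (le_of_eq ?_) h
  refine sum_congr rfl fun S _ => ?_
  rw [prod_mul_distrib, prod_const, prod_div_distrib, prod_const_one]
  unfold pN
  push_cast
  rfl

/-- the general estimate -/
theorem gen (hM : S_MERT) (a b : ℝ) (ha : 0 ≤ a) (hb : 0 ≤ b) (Q : ℕ → Finset RR → Prop)
    (hcount : ∀ (X : ℕ) (S₀ : Finset RR), (∀ u ∈ S₀, Pq u ∧ nrm u ≤ zz X) → S₀.card ≤ kk X →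
      ∀ F : Finset (Finset RR),
      (∀ S ∈ F, S ∈ SS X ∧ (S.card ≤ kk X ∧ Q X S) ∧ sm (zz X) S = S₀) → (F.card : ℝ) ≤
        b * a ^ S₀.card * lgn (pN S₀) * (((X / pN S₀ : ℕ) : ℝ) *
          (lgn (X / pN S₀)) ^ (-(1 / 3) : ℝ))) :
    ∀ ε : ℝ, 0 < ε → ∃ X₀ : ℕ, ∀ X : ℕ, X₀ ≤ X → ∀ F : Finset (Finset RR),
      (∀ S ∈ F, S ∈ SS X ∧ S.card ≤ kk X ∧ Q X S) → (F.card : ℝ) ≤ ε * X := by
  intro ε hε
  obtain ⟨C, hC0, hC⟩ := hM
  -- the final comparison
  have hlim : Tendsto (fun l : ℝ => (297 * b * Real.exp (a * C)) * Real.exp (-(1 / 12) * l)) atTop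
      (nhds 0) := by
    have h1 : Tendsto (fun l : ℝ => Real.exp (-(1 / 12) * l)) atTop (nhds 0) := by
      refine Real.tendsto_exp_atBot.comp ?_
      exact tendsto_id.const_mul_atTop_of_neg (by norm_num)
    have := h1.const_mul (297 * b * Real.exp (a * C))
    rwa [mul_zero] at this
  have hpow : ∀ᶠ l : ℝ in atTop, 33 * l ^ 4 + 3 ≤ Real.exp l := by
    have h1 := (Real.isLittleO_pow_exp_atTop (n := 4)).bound (show (0:ℝ) < 1 / 66 by norm_num)
    filter_upwards [h1, eventually_ge_atTop (2:ℝ)] with l hl hl2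
    rw [Real.norm_of_nonneg (by positivity), Real.norm_of_nonneg (Real.exp_pos _).le] at hl
    have h2 : (16:ℝ) ≤ l ^ 4 := by
      have := pow_le_pow_left₀ (by norm_num : (0:ℝ) ≤ 2) hl2 4
      linarith
    linarith
  have hev := (((eL_tendsto.eventually (log_small (4 + 6 * a) (1 / 4) (by norm_num))).and
    (eL_tendsto.eventually (eventually_ge_atTop 2))).and
    (eL_tendsto.eventually (hlim.eventually (gt_mem_nhds hε)))).and (eL_tendsto.eventually hpow)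
  obtain ⟨X₀, hX₀⟩ := eventually_atTop.1 hev
  refine ⟨max X₀ 3, fun X hX F hF => ?_⟩
  obtain ⟨⟨⟨k1, k2⟩, k3⟩, k4⟩ := hX₀ X ((le_max_left _ _).trans hX)
  have hX3 : 3 ≤ X := (le_max_right _ _).trans hX
  set ℓ : ℝ := eL X with hℓ
  set z : ℕ := zz X with hz
  set k : ℕ := kk X with hk
  have hl0 : 0 < ℓ := by linarith
  have hlX : Real.log X = Real.exp ℓ := by
    have := rpow_eq (X := X) k2 1
    rwa [Real.rpow_one, one_mul] at this
  have hX0 : (0 : ℝ) < X := by exact_mod_cast (by omega : 0 < X)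
  have hk11 : (k : ℝ) ≤ 11 * ℓ := by
    have h := Nat.ceil_lt_add_one (show (0 : ℝ) ≤ 10 * eL X by rw [← hℓ]; positivity)
    have h' : (k : ℝ) < 10 * ℓ + 1 := h
    linarith
  have hz3 : 3 ≤ z := zz_ge k2
  have hz0 : (0 : ℝ) < z := by exact_mod_cast (by omega : 0 < z)
  have hzlog : Real.log z ≤ ℓ ^ 3 := by
    rw [Real.log_le_iff_le_exp hz0]
    exact Nat.floor_le (Real.exp_pos _).le
  have hzlog0 : 0 < Real.log z := Real.log_pos (by exact_mod_cast (by omega : 1 < z))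
  have hl4 : (1 : ℝ) ≤ ℓ ^ 4 := one_le_pow₀ (by linarith)
  set W : Finset (Finset RR) := (QB z).powerset.filter fun S => S.card ≤ k with hW
  have hmaps : ∀ S ∈ F, sm z S ∈ W := by
    intro S hS
    replace hS := hF S hS
    rw [hW, mem_filter, mem_powerset]
    refine ⟨?_, (card_le_card (filter_subset _ _)).trans hS.2.1⟩
    intro π hπ
    unfold sm at hπ
    rw [mem_filter] at hπ
    unfold SS at hS
    rw [mem_filter] at hS
    rw [mem_QB]
    exact ⟨hπ.2, hS.1.2.1.1 π hπ.1⟩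
  have hcard : (F.card : ℝ) = ∑ S₀ ∈ W, ((F.filter fun S => sm z S = S₀).card : ℝ) := by
    have := card_eq_sum_card_fiberwise hmaps
    exact_mod_cast this
  have hone : ∀ S₀ ∈ W, ((F.filter fun S => sm z S = S₀).card : ℝ) ≤
      (a ^ S₀.card * (1 / (pN S₀ : ℝ))) * (297 * b * ℓ ^ 4 * X * Real.exp (-(1 / 3) * ℓ)) := by
    intro S₀ hS₀
    rw [hW, mem_filter, mem_powerset] at hS₀
    have hpq : ∀ u ∈ S₀, Pq u ∧ nrm u ≤ z := fun u hu => by
      have := hS₀.1 hu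
      rw [mem_QB] at this
      exact ⟨this.2, this.1⟩
    have h1 := hcount X S₀ hpq hS₀.2 (F.filter fun S => sm z S = S₀) (fun S hS => by
      rw [mem_filter] at hS
      have h := hF S hS.1
      exact ⟨h.1, h.2, hS.2⟩)
    refine h1.trans ?_
    set N := pN S₀ with hN
    have hN0 : 0 < N := pN_pos fun u hu => (hpq u hu).1
    have hN0' : (0 : ℝ) < N := by exact_mod_cast hN0
    have hlN : Real.log N ≤ 11 * ℓ ^ 4 := by
      have e1 : Real.log N = ∑ p ∈ S₀, Real.log (nrm p) := by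
        rw [hN]
        unfold pN
        push_cast
        rw [Real.log_prod]
        intro p hp
        have := nrm_ne (pq_ne (hpq p hp).1)
        exact_mod_cast this
      rw [e1]
      calc ∑ p ∈ S₀, Real.log (nrm p) ≤ ∑ _p ∈ S₀, Real.log z := by
            refine sum_le_sum fun p hp => ?_
            exact Real.log_le_log (by exact_mod_cast nrm_pos' (pq_ne (hpq p hp).1))
              (by exact_mod_cast (hpq p hp).2)
        _ = S₀.card * Real.log z := by rw [sum_const, nsmul_eq_mul]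
        _ ≤ (11 * ℓ) * ℓ ^ 3 := by
            refine mul_le_mul (le_trans (by exact_mod_cast hS₀.2) hk11) hzlog hzlog0.le
              (by positivity)
        _ = 11 * ℓ ^ 4 := by ring
    have hlgN : lgn N ≤ 33 * ℓ ^ 4 := by
      rcases Nat.lt_or_ge N 2 with h | h
      · have : N = 1 := by omega
        rw [this]
        have : lgn 1 = 1 := by unfold lgn; simp
        rw [this]
        linarith
      · have := lgn_le_log h
        linarith
    have hYle : ((X / N : ℕ) : ℝ) ≤ (X : ℝ) / N := Nat.cast_div_le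
    have hYge : Real.exp (Real.log X / 3) ≤ ((X / N : ℕ) : ℝ) := by
      have e1 : (X : ℝ) / N < ((X / N : ℕ) : ℝ) + 1 := by
        rw [div_lt_iff₀ hN0']
        have := Nat.lt_mul_div_succ X hN0
        have h' : ((X : ℕ) : ℝ) < ((N * (X / N + 1) : ℕ) : ℝ) := by exact_mod_cast this
        rw [Nat.cast_mul, Nat.cast_add, Nat.cast_one] at h'
        linarith
      have e2 : Real.exp (Real.log X - Real.log N) = (X : ℝ) / N := by
        rw [Real.exp_sub, Real.exp_log hX0, Real.exp_log hN0']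
      have e3 : Real.exp (Real.log X / 3 + 1) ≤ (X : ℝ) / N := by
        rw [← e2]
        apply Real.exp_le_exp.2
        rw [← hlX] at k4
        linarith
      rw [Real.exp_add] at e3
      have e4 : (2 : ℝ) ≤ Real.exp 1 := by have := Real.exp_one_gt_d9; linarith
      have e5 : (1 : ℝ) ≤ Real.exp (Real.log X / 3) := by
        apply Real.one_le_exp
        rw [hlX]
        positivity
      nlinarith
    have hY1 : 1 ≤ X / N := by
      have : (0:ℝ) < ((X / N : ℕ) : ℝ) := lt_of_lt_of_le (Real.exp_pos _) hYge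
      exact_mod_cast this
    have hlgY : Real.exp ℓ / 3 ≤ lgn (X / N) := by
      refine le_trans ?_ (log_le_lgn hY1)
      rw [← hlX, Real.le_log_iff_exp_le (by exact_mod_cast hY1)]
      exact hYge
    have hrp : (lgn (X / N)) ^ (-(1 / 3) : ℝ) ≤ 3 * Real.exp (-(1 / 3) * ℓ) := by
      have e1 : (lgn (X / N)) ^ (-(1 / 3) : ℝ) ≤ (Real.exp ℓ / 3) ^ (-(1 / 3) : ℝ) :=
        Real.rpow_le_rpow_of_nonpos (by positivity) hlgY (by norm_num)
      refine e1.trans ?_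
      rw [Real.div_rpow (Real.exp_pos _).le (by norm_num), ← Real.exp_mul, div_eq_mul_inv,
        ← Real.rpow_neg (by norm_num), neg_neg, mul_comm ℓ, mul_comm]
      refine mul_le_mul_of_nonneg_right ?_ (Real.exp_pos _).le
      calc (3:ℝ) ^ (1 / 3 : ℝ) ≤ 3 ^ (1:ℝ) :=
            Real.rpow_le_rpow_of_exponent_le (by norm_num) (by norm_num)
        _ = 3 := Real.rpow_one _
    have hlg0 : 0 ≤ lgn N := (zero_le_one.trans (one_le_lgn N))
    have hrp0 : 0 ≤ (lgn (X / N)) ^ (-(1 / 3) : ℝ) :=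
      Real.rpow_nonneg (zero_le_one.trans (one_le_lgn _)) _
    calc b * a ^ S₀.card * lgn N * (((X / N : ℕ) : ℝ) * (lgn (X / N)) ^ (-(1 / 3) : ℝ))
        ≤ b * a ^ S₀.card * (33 * ℓ ^ 4) * (((X : ℝ) / N) * (3 * Real.exp (-(1 / 3) * ℓ))) := by
          gcongr
      _ ≤ _ := by
          have : b * a ^ S₀.card * (33 * ℓ ^ 4) * (((X : ℝ) / N) * (3 * Real.exp (-(1 / 3) * ℓ))) =
            (a ^ S₀.card * (1 / (N : ℝ))) * (99 * b * ℓ ^ 4 * X * Real.exp (-(1 / 3) * ℓ)) := by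
            ring
          rw [this]
          gcongr
          norm_num
  have hsum : (F.card : ℝ) ≤ Real.exp (a * ∑ π ∈ QB z, (1 : ℝ) / nrm π) *
      (297 * b * ℓ ^ 4 * X * Real.exp (-(1 / 3) * ℓ)) := by
    rw [hcard]
    refine (sum_le_sum hone).trans ?_
    rw [← sum_mul]
    refine mul_le_mul_of_nonneg_right ?_ (by positivity)
    refine le_trans ?_ (small_sum a ha z)
    refine sum_le_sum_of_subset_of_nonneg (filter_subset _ _) fun S _ _ => by positivity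
  have hM : a * ∑ π ∈ QB z, (1 : ℝ) / nrm π ≤ a * C + 6 * a * Real.log ℓ := by
    have h1 := hC z hz3
    have h2 := loglog_zz k2
    have h3 : ∑ π ∈ QB z, (1 : ℝ) / nrm π ≤ 6 * Real.log ℓ + C := by linarith
    have := mul_le_mul_of_nonneg_left h3 ha
    linarith
  have hl4' : ℓ ^ 4 = Real.exp (4 * Real.log ℓ) := by
    rw [show (4:ℝ) * Real.log ℓ = Real.log (ℓ ^ 4) by rw [Real.log_pow]; push_cast; ring]
    exact (Real.exp_log (by positivity)).symm
  calc (F.card : ℝ) ≤ Real.exp (a * C + 6 * a * Real.log ℓ) *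
        (297 * b * ℓ ^ 4 * X * Real.exp (-(1 / 3) * ℓ)) := by
        refine hsum.trans ?_
        gcongr
    _ = 297 * b * Real.exp (a * C) * Real.exp ((4 + 6 * a) * Real.log ℓ - 1 / 3 * ℓ) * X := by
        rw [hl4', Real.exp_add, show (4 + 6 * a) * Real.log ℓ - 1 / 3 * ℓ =
          6 * a * Real.log ℓ + 4 * Real.log ℓ + -(1 / 3) * ℓ by ring, Real.exp_add, Real.exp_add]
        ring
    _ ≤ 297 * b * Real.exp (a * C) * Real.exp (-(1 / 12) * ℓ) * X := by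
        gcongr
        linarith
    _ ≤ ε * X := by
        refine mul_le_mul_of_nonneg_right ?_ hX0.le
        exact le_of_lt k3

/-! ### The fibres -/

/-- the large parts are counted by squarefree elements -/
theorem fiber_le (X z : ℕ) (S₀ : Finset RR) (hS₀ : ∀ u ∈ S₀, Pq u)
    (F : Finset (Finset RR)) (hF : ∀ S ∈ F, S ∈ SS X ∧ sm z S = S₀) (g : RR → ℝ)
    (hg : ∀ π, 0 ≤ g π) (c : ℝ) (hc : ∀ S ∈ F, c ≤ ∏ π ∈ la z S, g π) :
    (F.card : ℝ) * c ≤ ∑ n ∈ SB (X / pN S₀), mf g n := by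
  have hpr : ∀ S ∈ F, (∀ π ∈ S, Pq π) ∧ ∏ π ∈ S, nrm π ≤ X := by
    intro S hS
    have h := (hF S hS).1
    unfold SS at h
    rw [mem_filter] at h
    exact ⟨h.2.1.1, h.2.2⟩
  rw [← nsmul_eq_mul, ← sum_const]
  refine sum_le_inj (fun S => ∏ π ∈ la z S, π) ?_ ?_ ?_ ?_
  · intro S hS
    obtain ⟨h1, h2⟩ := hpr S hS
    rw [mem_SB]
    refine ⟨?_, (PS_prod fun π hπ => h1 π (filter_subset _ _ hπ)).1⟩
    rw [Nat.le_div_iff_mul_le (pN_pos hS₀), nrm_prod, mul_comm]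
    have : (∏ π ∈ sm z S, nrm π) * ∏ π ∈ la z S, nrm π = ∏ π ∈ S, nrm π :=
      prod_filter_mul_prod_filter_not _ _ _
    unfold pN
    rw [← (hF S hS).2, this]
    exact h2
  · intro S hS T hT h
    have e1 := (PS_prod (S := la z S) fun π hπ => (hpr S hS).1 π (filter_subset _ _ hπ)).2
    have e2 := (PS_prod (S := la z T) fun π hπ => (hpr T hT).1 π (filter_subset _ _ hπ)).2
    have e3 : la z S = la z T := by
      rw [← e1, ← e2]
      exact congrArg QK.PD h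
    have key : ∀ S : Finset RR, sm z S ∪ la z S = S := fun S => filter_union_filter_not_eq _ _
    rw [← key S, ← key T, (hF S hS).2, (hF T hT).2, e3]
  · intro S hS
    refine (hc S hS).trans (le_of_eq ?_)
    unfold mf
    rw [(PS_prod (S := la z S) fun π hπ => (hpr S hS).1 π (filter_subset _ _ hπ)).2]
  · intro n _
    exact mf_nonneg hg n

/-! ### The characters -/

lemma kp_val (a : RR) : kp a = 1 ∨ kp a = -1 ∨ kp a = 0 := by
  unfold kp
  split_ifs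
  · exact Or.inl rfl
  · exact Or.inr (Or.inl rfl)
  · exact Or.inr (Or.inr rfl)

lemma e7_val (a : RR) : e7 a = 1 ∨ e7 a = -1 ∨ e7 a = 0 := by
  by_cases h : e7 a = 0
  · exact Or.inr (Or.inr h)
  · rcases sq_eq_one_iff.1 (e7_sq fun h' => h (e7_eq_zero.2 h')) with h1 | h1
    · exact Or.inl h1
    · exact Or.inr (Or.inl h1)

lemma norm_le_of_val {z : ℂ} (h : z = 1 ∨ z = -1 ∨ z = 0) : ‖z‖ ≤ 1 := by
  rcases h with h | h | h <;> rw [h] <;> simp

lemma xr_norm (n : RR) (i j : ℕ) (a : RR) : ‖xr n i j a‖ ≤ 1 := by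
  unfold xr jac
  rw [norm_mul, norm_mul, norm_pow, norm_pow, norm_prod]
  have h1 : ∏ π ∈ QK.PD n, ‖sy π a‖ ≤ 1 := by
    refine prod_le_one (fun _ _ => norm_nonneg _) fun π _ => ?_
    refine norm_le_of_val ?_
    rcases sy_val π a with h | h
    · exact Or.inr (Or.inr h.2)
    · rcases h.2 with h | h
      · exact Or.inl h
      · exact Or.inr (Or.inl h)
  have h2 : ‖e7 a‖ ^ i ≤ 1 := pow_le_one₀ (norm_nonneg _) (norm_le_of_val (e7_val a))
  have h3 : ‖kp a‖ ^ j ≤ 1 := pow_le_one₀ (norm_nonneg _) (norm_le_of_val (kp_val a))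
  have h4 : 0 ≤ ‖e7 a‖ ^ i := by positivity
  have h5 : 0 ≤ ‖kp a‖ ^ j := by positivity
  exact mul_le_one₀ (mul_le_one₀ h1 h4 h2) h5 h3

lemma g_ge (n : RR) (i j : ℕ) (π : RR) : 1 / 3 ≤ (2 + (xr n i j π).re) / 3 := by
  have h := xr_norm n i j π
  have h1 := (abs_le.1 (Complex.abs_re_le_norm (xr n i j π))).1
  linarith

lemma nrm_odd {π : RR} (h : prm π) : nrm π % 2 = 1 := by
  by_contra hcon
  have h1 : 2 ∣ nrm π := by omega
  obtain ⟨k, hk⟩ := h1
  have h2 : aR ∣ π * cj π := by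
    rw [mul_cj, ← nrm_cast, hk]
    push_cast
    rw [two_eq, mul_assoc]
    exact dvd_mul_right _ _
  rcases prime_aR.dvd_or_dvd h2 with h3 | h3
  · exact not_aR h h3
  · apply h.cop2
    have h4 := map_dvd cj h3
    rwa [cj_cj] at h4

lemma ez_zero : ez 0 = 1 := if_pos rfl

lemma ez_one : ez 1 = -1 := if_neg (by decide)

lemma ez_add (a b : ZMod 2) : ez (a + b) = ez a * ez b := by
  have key : ∀ c : ZMod 2, c = 0 ∨ c = 1 := by decide
  have h2 : (1 : ZMod 2) + 1 = 0 := by decide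
  rcases key a with h | h <;> rcases key b with h' | h' <;> rw [h, h']
  · rw [add_zero, ez_zero, one_mul]
  · rw [zero_add, ez_zero, one_mul]
  · rw [add_zero, ez_zero, mul_one]
  · rw [h2, ez_zero, ez_one]
    norm_num

lemma ez_sum (A : Finset RR) (f : RR → ZMod 2) : ez (∑ u ∈ A, f u) = ∏ u ∈ A, ez (f u) := by
  induction A using Finset.induction_on with
  | empty => rw [sum_empty, prod_empty, ez_zero]
  | insert a s ha ih => rw [sum_insert ha, prod_insert ha, ez_add, ih]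

lemma ez_pow (i : ℕ) (hi : i < 2) (a : ZMod 2) : ez ((i : ZMod 2) * a) = ez a ^ i := by
  interval_cases i
  · rw [Nat.cast_zero, zero_mul, ez_zero, pow_zero]
  · rw [Nat.cast_one, one_mul, pow_one]

lemma ez_lg {z : ℂ} (h : z = 1 ∨ z = -1) : ez (Pool.Agent.Y698.SG.lg z) = z := by
  rcases h with h | h
  · rw [h, lg_one, ez_zero]
  · rw [h, lg_neg_one, ez_one]

lemma sy_ez {u π : RR} (h : ¬ u ∣ π) : sy u π = ez (cs u π) := by
  unfold cs
  rw [ez_lg]
  rcases sy_val u π with h1 | h1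
  · exact absurd (Ideal.mem_span_singleton.1 h1.1) h
  · exact h1.2

lemma e7_ez {π : RR} (h : ¬ fR ∣ π) : e7 π = ez (ss π) := by
  unfold ss
  rw [ez_lg]
  have h0 : e7 π ≠ 0 := fun h' => h (Ideal.mem_span_singleton.1 (e7_eq_zero.1 h'))
  rcases e7_val π with h1 | h1 | h1
  · exact Or.inl h1
  · exact Or.inr h1
  · exact absurd h1 h0

lemma kp_ez {π : RR} (h : prm π) : kp π = ez (tt π) := by
  have h1 := nrm_odd h
  unfold kp tt
  by_cases h3 : nrm π % 4 = 3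
  · rw [if_neg (by omega), if_pos h3, if_pos h3, ez_one]
  · rw [if_pos (by omega), if_neg h3, ez_zero]

/-- the character of a set -/
lemma xr_ez {A : Finset RR} (hA : ∀ u ∈ A, Pq u) {i j : ℕ} (hi : i < 2) (hj : j < 2) {π : RR}
    (hπ : Pq π) (hπA : π ∉ A) :
    xr (∏ u ∈ A, u) i j π = ez (∑ u ∈ A, cs u π + i * ss π + j * tt π) := by
  unfold xr jac
  rw [(PS_prod hA).2, ez_add, ez_add, ez_sum, ez_pow i hi, ez_pow j hj, ← e7_ez hπ.prm.cop7,
    ← kp_ez hπ.prm]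
  congr 2
  refine prod_congr rfl fun u hu => sy_ez fun hd => ?_
  have := eq_of_dvd (hA u hu) hπ hd
  exact hπA (this ▸ hu)

/-! ### FEW -/

theorem few_count {C : ℝ} (hC1 : 1 ≤ C)
    (hC : ∀ (n : RR) (i j : ℕ), PS n → i < 2 → j < 2 → (n ≠ 1 ∨ i ≠ 0 ∨ j ≠ 0) → ∀ T : ℕ,
      ∑ a ∈ SB T, mf (fun π => (2 + (xr n i j π).re) / 3) a ≤
        C * (lgn (nrm n)) ^ (1 / 3 : ℝ) * (T * (lgn T) ^ (-(1 / 3) : ℝ)))
    (V : ℕ) (X : ℕ) (S₀ : Finset RR) (hS₀ : ∀ u ∈ S₀, Pq u ∧ nrm u ≤ zz X)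
    (F : Finset (Finset RR))
    (hF : ∀ S ∈ F, S ∈ SS X ∧ (S.card ≤ kk X ∧
      (lt3 (zz X) S).card < 4 * (sm (zz X) S).card + V) ∧ sm (zz X) S = S₀) : (F.card : ℝ) ≤
        (C * 3 ^ V) * 81 ^ S₀.card * lgn (pN S₀) * (((X / pN S₀ : ℕ) : ℝ) *
          (lgn (X / pN S₀)) ^ (-(1 / 3) : ℝ)) := by
  have h := fiber_le X (zz X) S₀ (fun u hu => (hS₀ u hu).1)
    F (fun S hS => ⟨(hF S hS).1, (hF S hS).2.2⟩) (fun π => (2 + (xr 1 0 1 π).re) / 3)
    (fun π => by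
      have := g_ge 1 0 1 π
      linarith)
    ((1 / 3) ^ (4 * S₀.card + V)) (fun S hS => by
        replace hS := hF S hS
        have hlt := hS.2.1.2
        rw [hS.2.2] at hlt
        have hpq : ∀ π ∈ la (zz X) S, Pq π := by
          intro π hπ
          have h1 := hS.1
          unfold SS at h1
          rw [mem_filter] at h1
          exact h1.2.1.1 π (filter_subset _ _ hπ)
        have e1 : ∏ π ∈ la (zz X) S, (2 + (xr 1 0 1 π).re) / 3 =
            ∏ π ∈ lt3 (zz X) S, (2 + (xr 1 0 1 π).re) / 3 := by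
          unfold lt3
          rw [prod_filter]
          refine prod_congr rfl fun π hπ => ?_
          by_cases htt : tt π = 1
          · rw [if_pos htt]
          · rw [if_neg htt]
            have h0 : tt π = 0 := by
              have key : ∀ c : ZMod 2, c ≠ 1 → c = 0 := by decide
              exact key _ htt
            have h1 := xr_ez (A := ∅) (fun u hu => absurd hu (Finset.notMem_empty u))
              (i := 0) (j := 1) (by norm_num) (by norm_num) (hpq π hπ) (Finset.notMem_empty π)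
            rw [prod_empty, sum_empty, h0] at h1
            have h2 : ((0 : ZMod 2) + ((0 : ℕ) : ZMod 2) * ss π + ((1 : ℕ) : ZMod 2) * 0) = 0 := by
              rw [Nat.cast_zero, zero_mul, mul_zero, add_zero, add_zero]
            rw [h2, ez_zero] at h1
            rw [h1]
            norm_num
        rw [e1]
        calc ((1 : ℝ) / 3) ^ (4 * S₀.card + V) ≤ (1 / 3) ^ (lt3 (zz X) S).card :=
              pow_le_pow_of_le_one (by norm_num) (by norm_num) hlt.le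
          _ = ∏ _π ∈ lt3 (zz X) S, ((1 : ℝ) / 3) := by rw [prod_const]
          _ ≤ ∏ π ∈ lt3 (zz X) S, (2 + (xr 1 0 1 π).re) / 3 :=
              prod_le_prod (fun _ _ => by norm_num) fun π _ => g_ge 1 0 1 π)
  have h1 := hC 1 0 1 PS_one (by norm_num) (by norm_num) (Or.inr (Or.inr one_ne_zero)) (X / pN S₀)
  have h2 := h.trans h1
  have hlg1 : lgn (nrm (1 : RR)) = 1 := by
    rw [nrm_one]
    unfold lgn
    simp
  rw [hlg1, Real.one_rpow, mul_one] at h2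
  have hlg := one_le_lgn (pN S₀)
  have h3 : (3 : ℝ) ^ (4 * S₀.card + V) * (1 / 3) ^ (4 * S₀.card + V) = 1 := by
    rw [← mul_pow]
    norm_num
  set c := (F.card : ℝ) with hcdef
  have hTl : 0 ≤ ((X / pN S₀ : ℕ) : ℝ) * (lgn (X / pN S₀)) ^ (-(1 / 3) : ℝ) :=
    mul_nonneg (Nat.cast_nonneg _) (Real.rpow_nonneg (zero_le_one.trans (one_le_lgn _)) _)
  have h81 : (3 : ℝ) ^ (4 * S₀.card + V) = 3 ^ V * 81 ^ S₀.card := by
    rw [pow_add, pow_mul]
    norm_num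
    ring
  calc c = (3 : ℝ) ^ (4 * S₀.card + V) * (c * (1 / 3) ^ (4 * S₀.card + V)) := by
        linear_combination (-c) * h3
    _ ≤ (3 : ℝ) ^ (4 * S₀.card + V) * (C * (((X / pN S₀ : ℕ) : ℝ) *
          (lgn (X / pN S₀)) ^ (-(1 / 3) : ℝ))) := mul_le_mul_of_nonneg_left h2 (by positivity)
    _ = (C * 3 ^ V * 81 ^ S₀.card) * 1 * (((X / pN S₀ : ℕ) : ℝ) *
          (lgn (X / pN S₀)) ^ (-(1 / 3) : ℝ)) := by rw [h81]; ring
    _ ≤ (C * 3 ^ V * 81 ^ S₀.card) * lgn (pN S₀) * (((X / pN S₀ : ℕ) : ℝ) *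
          (lgn (X / pN S₀)) ^ (-(1 / 3) : ℝ)) := by gcongr

theorem t_FEW : S_HALL → S_MERT → S_FEW := by
  rintro ⟨C, hC1, hC⟩ hM V ε hε
  obtain ⟨X₀, hX₀⟩ := gen hM 81 (C * 3 ^ V) (by norm_num) (by positivity)
    (fun X S => (lt3 (zz X) S).card < 4 * (sm (zz X) S).card + V)
    (fun X S₀ hS₀ _ F hF => few_count hC1 hC V X S₀ hS₀ F hF) ε hε
  refine ⟨X₀, fun X hX => hX₀ X hX _ fun S hS => ?_⟩
  rw [mem_filter] at hS
  exact hS

/-! ### BAD -/

/-- the labels are degenerate with respect to a set and two exponents -/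
def Dg (A : Finset RR) (i j : ℕ) (T : Finset RR) : Prop :=
  ∀ π ∈ T, ∑ u ∈ A, cs u π + i * ss π + j * tt π = 0

theorem notNd (hR : RecP) {S₀ T : Finset RR} (hS₀ : ∀ u ∈ S₀, Pq u)
    (hT : ∀ π ∈ T, Pq π ∧ π ∉ S₀) (h : ¬ Nd S₀ T) :
    ∃ (A : Finset RR) (i j : ℕ), A ⊆ S₀ ∧ i < 2 ∧ j < 2 ∧ (A ≠ ∅ ∨ i ≠ 0 ∨ j ≠ 0) ∧
      Dg A i j T := by
  unfold Nd at h
  push Not at h
  obtain ⟨v, e, hve, h2⟩ := h
  have hmul : ∀ a b : ZMod 2, (if a ≠ 0 then b else 0) = a * b := by decide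
  have hA : ∀ f : RR → ZMod 2, ∑ u ∈ S₀.filter (fun u => v u ≠ 0), f u = ∑ u ∈ S₀, v u * f u := by
    intro f
    rw [sum_filter]
    exact sum_congr rfl fun u _ => hmul (v u) (f u)
  have hor : (S₀.filter fun u => v u ≠ 0) ≠ ∅ ∨ e.val ≠ 0 := by
    rcases hve with ⟨u, hu, hu0⟩ | he
    · left
      intro h0
      have : u ∈ S₀.filter fun u => v u ≠ 0 := by
        rw [mem_filter]
        exact ⟨hu, hu0⟩
      rw [h0] at this
      exact absurd this (Finset.notMem_empty u)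
    · right
      intro h0
      exact he ((ZMod.val_eq_zero e).1 h0)
  by_cases h3 : ∃ π ∈ T, e * ss π + ∑ u ∈ S₀, v u * cs u π ≠ 0
  · have h4 := h2 h3
    set j : ZMod 2 := e + ∑ u ∈ S₀.filter (fun u => v u ≠ 0), tt u with hj
    refine ⟨S₀.filter fun u => v u ≠ 0, e.val, j.val, filter_subset _ _, ZMod.val_lt e,
      ZMod.val_lt j, ?_, fun π hπ => ?_⟩
    · rcases hor with h5 | h5
      · exact Or.inl h5
      · exact Or.inr (Or.inl h5)
    · rw [ZMod.natCast_zmod_val, ZMod.natCast_zmod_val, hj, hA, hA]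
      have h5 := h4 π hπ
      have h6 : ∀ u ∈ S₀, v u * cs π u = v u * cs u π + v u * tt u * tt π := by
        intro u hu
        have hne : π ≠ u := fun h => (hT π hπ).2 (h ▸ hu)
        have h7 := hR π u (hT π hπ).1 (hS₀ u hu) hne
        have key : ∀ a b c d w : ZMod 2, a + b = c * d → w * a = w * b + w * d * c := by decide
        exact key _ _ _ _ _ h7
      rw [sum_congr rfl h6, sum_add_distrib, ← sum_mul] at h5
      rw [← h5]
      ring
  · push Not at h3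
    refine ⟨S₀.filter fun u => v u ≠ 0, e.val, 0, filter_subset _ _, ZMod.val_lt e,
      by norm_num, ?_, fun π hπ => ?_⟩
    · rcases hor with h5 | h5
      · exact Or.inl h5
      · exact Or.inr (Or.inl h5)
    · rw [ZMod.natCast_zmod_val, hA, ← h3 π hπ, Nat.cast_zero]
      ring

theorem pair_count {C : ℝ} (hC1 : 1 ≤ C)
    (hC : ∀ (n : RR) (i j : ℕ), PS n → i < 2 → j < 2 → (n ≠ 1 ∨ i ≠ 0 ∨ j ≠ 0) → ∀ T : ℕ,
      ∑ a ∈ SB T, mf (fun π => (2 + (xr n i j π).re) / 3) a ≤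
        C * (lgn (nrm n)) ^ (1 / 3 : ℝ) * (T * (lgn T) ^ (-(1 / 3) : ℝ)))
    (X z : ℕ) (S₀ : Finset RR) (hS₀ : ∀ u ∈ S₀, Pq u ∧ nrm u ≤ z)
    (A : Finset RR) (i j : ℕ) (hA : A ⊆ S₀) (hi : i < 2) (hj : j < 2)
    (hAij : A ≠ ∅ ∨ i ≠ 0 ∨ j ≠ 0)
    (F : Finset (Finset RR)) (hF : ∀ S ∈ F, (S ∈ SS X ∧ sm z S = S₀) ∧ Dg A i j (la z S)) :
    (F.card : ℝ) ≤ C * lgn (pN S₀) * (((X / pN S₀ : ℕ) : ℝ) *
          (lgn (X / pN S₀)) ^ (-(1 / 3) : ℝ)) := by
  obtain ⟨a1, a2⟩ := PS_prod (S := A) fun π hπ => (hS₀ π (hA hπ)).1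
  have hval : ∀ S ∈ F, ∀ π ∈ la z S, xr (∏ π ∈ A, π) i j π = 1 := by
    intro S hS π hπ
    obtain ⟨⟨h1, h2⟩, h3⟩ := hF S hS
    have hπq : Pq π ∧ ¬ nrm π ≤ z := by
      unfold la at hπ
      rw [mem_filter] at hπ
      unfold SS at h1
      rw [mem_filter] at h1
      exact ⟨h1.2.1.1 π hπ.1, hπ.2⟩
    rw [xr_ez (fun u hu => (hS₀ u (hA hu)).1) hi hj hπq.1
      (fun h => hπq.2 (hS₀ π (hA h)).2), h3 π hπ, ez_zero]
  set a := ∏ π ∈ A, π with ha
  have hab : a ≠ 1 ∨ i ≠ 0 ∨ j ≠ 0 := by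
    rcases hAij with h | h
    · left
      intro h1
      apply h
      rw [← a2, h1, PD_one]
    · exact Or.inr h
  have h := fiber_le X z S₀ (fun u hu => (hS₀ u hu).1) F (fun S hS => (hF S hS).1)
    (fun π => (2 + (xr a i j π).re) / 3) (fun π => by
      have := g_ge a i j π
      linarith) 1 (fun S hS => by
      refine le_of_eq (prod_eq_one fun π hπ => ?_).symm
      rw [hval S hS π hπ]
      norm_num)
  rw [mul_one] at h
  refine h.trans ((hC a i j a1 hi hj hab _).trans ?_)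
  have hnn : nrm a ≤ pN S₀ := by
    rw [ha, nrm_prod]
    unfold pN
    refine prod_le_prod_of_subset_of_one_le' hA fun u hu _ => ?_
    exact nrm_pos' (pq_ne (hS₀ u hu).1)
  have h4 : (lgn (nrm a)) ^ (1 / 3 : ℝ) ≤ lgn (pN S₀) := by
    calc (lgn (nrm a)) ^ (1 / 3 : ℝ) ≤ (lgn (nrm a)) ^ (1 : ℝ) :=
          Real.rpow_le_rpow_of_exponent_le (one_le_lgn _) (by norm_num)
      _ = lgn (nrm a) := Real.rpow_one _
      _ ≤ lgn (pN S₀) := lgn_mono hnn
  have hTl : 0 ≤ ((X / pN S₀ : ℕ) : ℝ) * (lgn (X / pN S₀)) ^ (-(1 / 3) : ℝ) :=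
    mul_nonneg (Nat.cast_nonneg _) (Real.rpow_nonneg (zero_le_one.trans (one_le_lgn _)) _)
  gcongr

theorem bad_count (hR : RecP) {C : ℝ} (hC1 : 1 ≤ C)
    (hC : ∀ (n : RR) (i j : ℕ), PS n → i < 2 → j < 2 → (n ≠ 1 ∨ i ≠ 0 ∨ j ≠ 0) → ∀ T : ℕ,
      ∑ a ∈ SB T, mf (fun π => (2 + (xr n i j π).re) / 3) a ≤
        C * (lgn (nrm n)) ^ (1 / 3 : ℝ) * (T * (lgn T) ^ (-(1 / 3) : ℝ)))
    (X : ℕ) (S₀ : Finset RR) (hS₀ : ∀ u ∈ S₀, Pq u ∧ nrm u ≤ zz X)
    (G : Finset (Finset RR))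
    (hG : ∀ S ∈ G, S ∈ SS X ∧ (S.card ≤ kk X ∧ ¬ Nd (sm (zz X) S) (la (zz X) S)) ∧
      sm (zz X) S = S₀) : (G.card : ℝ) ≤
        (4 * C) * 2 ^ S₀.card * lgn (pN S₀) * (((X / pN S₀ : ℕ) : ℝ) *
          (lgn (X / pN S₀)) ^ (-(1 / 3) : ℝ)) := by
  set P := (S₀.powerset ×ˢ (range 2 ×ˢ range 2)).filter
    fun p => p.1 ≠ ∅ ∨ p.2.1 ≠ 0 ∨ p.2.2 ≠ 0 with hP
  have hsub : G ⊆ P.biUnion fun p => G.filter fun S => Dg p.1 p.2.1 p.2.2 (la (zz X) S) := by
    intro S hS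
    obtain ⟨h1, ⟨h2, h3⟩, h4⟩ := hG S hS
    rw [h4] at h3
    have hT : ∀ π ∈ la (zz X) S, Pq π ∧ π ∉ S₀ := by
      intro π hπ
      unfold la at hπ
      rw [mem_filter] at hπ
      unfold SS at h1
      rw [mem_filter] at h1
      exact ⟨h1.2.1.1 π hπ.1, fun h => hπ.2 (hS₀ π h).2⟩
    obtain ⟨A, i, j, hA, hi, hj, hAij, hDg⟩ := notNd hR (fun u hu => (hS₀ u hu).1) hT h3
    rw [mem_biUnion]
    refine ⟨(A, i, j), ?_, ?_⟩
    · rw [hP, mem_filter, mem_product, mem_product, mem_powerset, mem_range, mem_range]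
      exact ⟨⟨hA, hi, hj⟩, hAij⟩
    · rw [mem_filter]
      exact ⟨hS, hDg⟩
  have h1 : (G.card : ℝ) ≤
      ∑ p ∈ P, ((G.filter fun S => Dg p.1 p.2.1 p.2.2 (la (zz X) S)).card : ℝ) := by
    exact_mod_cast (card_le_card hsub).trans card_biUnion_le
  have h2 : ∀ p ∈ P, ((G.filter fun S => Dg p.1 p.2.1 p.2.2 (la (zz X) S)).card : ℝ) ≤
      C * lgn (pN S₀) * (((X / pN S₀ : ℕ) : ℝ) * (lgn (X / pN S₀)) ^ (-(1 / 3) : ℝ)) := by
    intro p hp
    rw [hP, mem_filter, mem_product, mem_product, mem_powerset, mem_range, mem_range] at hp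
    refine pair_count hC1 hC X (zz X) S₀ hS₀ p.1 p.2.1 p.2.2 hp.1.1 hp.1.2.1 hp.1.2.2 hp.2 _ ?_
    intro S hS
    rw [mem_filter] at hS
    have h := hG S hS.1
    exact ⟨⟨h.1, h.2.2⟩, hS.2⟩
  have h3 : (P.card : ℝ) ≤ 4 * 2 ^ S₀.card := by
    have : P.card ≤ 2 ^ S₀.card * (2 * 2) := by
      refine (card_filter_le _ _).trans (le_of_eq ?_)
      rw [card_product, card_product, card_powerset, card_range]
    have h' : (P.card : ℝ) ≤ ((2 ^ S₀.card * (2 * 2) : ℕ) : ℝ) := by exact_mod_cast this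
    refine h'.trans (le_of_eq ?_)
    push_cast
    ring
  have hTl : 0 ≤ ((X / pN S₀ : ℕ) : ℝ) * (lgn (X / pN S₀)) ^ (-(1 / 3) : ℝ) :=
    mul_nonneg (Nat.cast_nonneg _) (Real.rpow_nonneg (zero_le_one.trans (one_le_lgn _)) _)
  have hlg := lgn_pos (pN S₀)
  calc (G.card : ℝ) ≤ ∑ p ∈ P, C * lgn (pN S₀) * (((X / pN S₀ : ℕ) : ℝ) *
        (lgn (X / pN S₀)) ^ (-(1 / 3) : ℝ)) := h1.trans (sum_le_sum h2)
    _ = P.card * (C * lgn (pN S₀) * (((X / pN S₀ : ℕ) : ℝ) *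
        (lgn (X / pN S₀)) ^ (-(1 / 3) : ℝ))) := by rw [sum_const, nsmul_eq_mul]
    _ ≤ (4 * 2 ^ S₀.card) * (C * lgn (pN S₀) * (((X / pN S₀ : ℕ) : ℝ) *
        (lgn (X / pN S₀)) ^ (-(1 / 3) : ℝ))) :=
        mul_le_mul_of_nonneg_right h3 (by positivity)
    _ = _ := by ring

theorem t_BAD : RecP → S_HALL → S_MERT → S_BAD := by
  rintro hR ⟨C, hC1, hC⟩ hM ε hε
  obtain ⟨X₀, hX₀⟩ := gen hM 2 (4 * C) (by norm_num) (by positivity)
    (fun X S => ¬ Nd (sm (zz X) S) (la (zz X) S))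
    (fun X S₀ hS₀ _ F hF => bad_count hR hC1 hC X S₀ hS₀ F hF) ε hε
  refine ⟨X₀, fun X hX => hX₀ X hX _ fun S hS => ?_⟩
  rw [mem_filter] at hS
  exact hS

end Pool.Agent.R426.QK.FB
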