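import Pool.Agent.R426.QK.LA0

/-!
# QK-LA1: the number of the completions with a given tuple in the kernel
-/

set_option autoImplicit false
set_option linter.unusedVariables false
set_option linter.unusedSectionVars false

open scoped Classical

namespace Pool.Agent.R426.QK.LA1

open Finset Pool.Agent.R426.QK Pool.Agent.R426.QK.LA0

section ext0

variable {ι : Type} [Fintype ι] [LinearOrder ι]

theorem ext_eq (t : ι → ZMod 2) (α : prs ι → ZMod 2) (k l : ι) :
    ext t α k l = aa α (l, k) + aa α (k, l) + if k < l then t k * t l else 0 := by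
  unfold ext
  rcases lt_trichotomy k l with h | h | h
  · have h1 : ¬ ((l, k) ∈ prs ι) := fun h' => absurd (mem_prs.1 h') (not_lt.2 h.le)
    have h2 : (k, l) ∈ prs ι := mem_prs.2 h
    rw [dif_neg h1, dif_pos h2, if_pos h, aa_neg α (e := (l, k)) (not_lt.2 h.le), zero_add]
    rw [← aa_pos α ⟨(k, l), h2⟩]
  · subst h
    have h1 : ¬ ((k, k) ∈ prs ι) := fun h' => absurd (mem_prs.1 h') (lt_irrefl _)
    rw [dif_neg h1, dif_neg h1, if_neg (lt_irrefl _), aa_neg α (e := (k, k)) (lt_irrefl _)]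
    simp
  · have h1 : (l, k) ∈ prs ι := mem_prs.2 h
    rw [dif_pos h1, if_neg (not_lt.2 h.le), aa_neg α (e := (k, l)) (not_lt.2 h.le), add_zero,
      add_zero, ← aa_pos α ⟨(l, k), h1⟩]

theorem ext_add (t : ι → ZMod 2) (α : prs ι → ZMod 2) (k l : ι) (h : k ≠ l) :
    ext t α k l + ext t α l k = t k * t l := by
  rw [ext_eq, ext_eq]
  rcases lt_or_gt_of_ne h with h1 | h1
  · rw [if_pos h1, if_neg (not_lt.2 h1.le)]
    linear_combination (aa α (l, k) + aa α (k, l)) * two0
  · rw [if_neg (not_lt.2 h1.le), if_pos h1]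
    linear_combination (aa α (l, k) + aa α (k, l)) * two0

end ext0

section blocks

variable {U J : Type} [Fintype U] [Fintype J] [LinearOrder J]
  (sU tU : U → ZMod 2) (sJ tJ : J → ZMod 2) (A : U → U → ZMod 2) (B : U → J → ZMod 2)

/-- the dependence of the rows on the completion -/
theorem rowJ_aff (α : prs J → ZMod 2) (c : U → ZMod 2) (d : J → ZMod 2) (k : J) :
    rowJ tU sJ tJ B (ext tJ α) c d k = rowJ tU sJ tJ B (ext tJ 0) c d k +
      ∑ l, (aa α (l, k) + aa α (k, l)) * (d k + d l) := by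
  unfold rowJ
  rw [add_assoc, add_assoc, add_assoc, ← Finset.sum_add_distrib]
  congr 2
  refine Finset.sum_congr rfl fun l _ => ?_
  rw [ext_eq, ext_eq]
  have h1 : ∀ e : J × J, aa (0 : prs J → ZMod 2) e = 0 := by
    intro e
    unfold aa
    split_ifs <;> rfl
  rw [h1, h1]
  ring

/-- the matrix of the block system -/
def MM (R : J → J → ZMod 2) : U ⊕ J → U ⊕ J → ZMod 2
  | Sum.inl u, Sum.inl v => A u v
  | Sum.inl u, Sum.inr l => B u l
  | Sum.inr k, Sum.inl u => B u k + tU u * tJ k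
  | Sum.inr k, Sum.inr l => R k l

theorem MM_row (R : J → J → ZMod 2) (c : U → ZMod 2) (d : J → ZMod 2) (y : U ⊕ J → ZMod 2) :
    ∑ p, y p * (Sum.elim sU sJ p * Sum.elim c d p +
      ∑ q, MM tU tJ A B R p q * (Sum.elim c d p + Sum.elim c d q)) =
    ∑ u, y (Sum.inl u) * rowU sU A B c d u + ∑ k, y (Sum.inr k) * rowJ tU sJ tJ B R c d k := by
  rw [Fintype.sum_sum_type]
  congr 1
  · refine Finset.sum_congr rfl fun u _ => ?_
    unfold rowU
    rw [Fintype.sum_sum_type]
    simp only [MM, Sum.elim_inl, Sum.elim_inr]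
    rw [add_assoc]
  · refine Finset.sum_congr rfl fun u _ => ?_
    unfold rowJ
    rw [Fintype.sum_sum_type]
    simp only [MM, Sum.elim_inl, Sum.elim_inr]
    rw [add_assoc]

theorem MM_add (R : J → J → ZMod 2) (hA : ∀ u v, u ≠ v → A u v + A v u = tU u * tU v)
    (hR : ∀ k l, k ≠ l → R k l + R l k = tJ k * tJ l) (p q : U ⊕ J) (hpq : p ≠ q) :
    MM tU tJ A B R p q + MM tU tJ A B R q p = Sum.elim tU tJ p * Sum.elim tU tJ q := by
  rcases p with u | k <;> rcases q with v | l
  · simp only [MM, Sum.elim_inl]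
    exact hA u v fun h => hpq (by rw [h])
  · simp only [MM, Sum.elim_inl, Sum.elim_inr]
    linear_combination (B u l) * two0
  · simp only [MM, Sum.elim_inl, Sum.elim_inr]
    linear_combination (B v k) * two0
  · simp only [MM, Sum.elim_inr]
    exact hR k l fun h => hpq (by rw [h])

/-- the polarization -/
theorem pol (R : J → J → ZMod 2) (hA : ∀ u v, u ≠ v → A u v + A v u = tU u * tU v)
    (hR : ∀ k l, k ≠ l → R k l + R l k = tJ k * tJ l) (c c' : U → ZMod 2) (d d' : J → ZMod 2)
    (hc : ∀ u, rowU sU A B c d u = 0) (hc' : ∀ u, rowU sU A B c' d' u = 0) :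
    ∑ k, d' k * rowJ tU sJ tJ B R c d k + ∑ k, d k * rowJ tU sJ tJ B R c' d' k =
      bt tU tJ c d c' d' := by
  have h := polar (Sum.elim sU sJ) (Sum.elim tU tJ) (MM tU tJ A B R)
    (MM_add tU tJ A B R hA hR) (Sum.elim c d) (Sum.elim c' d')
  rw [MM_row, MM_row] at h
  simp only [Sum.elim_inl, Sum.elim_inr, hc, hc', mul_zero, Finset.sum_const_zero, zero_add,
    Fintype.sum_sum_type] at h
  rw [h]
  unfold bt
  rfl

/-- the sum of the rows -/
theorem sumrows (R : J → J → ZMod 2) (hA : ∀ u v, u ≠ v → A u v + A v u = tU u * tU v)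
    (hR : ∀ k l, k ≠ l → R k l + R l k = tJ k * tJ l) (hT : ∑ u, tU u + ∑ j, tJ j = 0)
    (c : U → ZMod 2) (d : J → ZMod 2) (hc : ∀ u, rowU sU A B c d u = 0) :
    ∑ k, rowJ tU sJ tJ B R c d k = colS sU tU sJ tJ c d := by
  have h := polar (Sum.elim sU sJ) (Sum.elim tU tJ) (MM tU tJ A B R)
    (MM_add tU tJ A B R hA hR) (Sum.elim c d) (fun _ => 1)
  rw [MM_row] at h
  simp only [add_self0, mul_zero, Finset.sum_const_zero, add_zero, mul_one, one_mul, hc,
    zero_add, Fintype.sum_sum_type, Sum.elim_inl, Sum.elim_inr, hT] at h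
  unfold colS
  have h2 : ∑ k, rowJ tU sJ tJ B R c d k =
      (∑ u, tU u * c u + ∑ j, tJ j * d j) + (∑ u, c u * sU u + ∑ j, d j * sJ j) := by
    rw [← h]
    linear_combination (-(∑ u, c u * sU u + ∑ j, d j * sJ j)) * two0
  rw [h2]
  simp only [add_mul, Finset.sum_add_distrib]
  rw [Finset.sum_congr rfl fun u (_ : u ∈ univ) => mul_comm (c u) (sU u),
    Finset.sum_congr rfl fun u (_ : u ∈ univ) => mul_comm (d u) (sJ u)]
  ring

end blocks

section dual

variable {J : Type} [Fintype J] {m : ℕ}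

/-- dual vectors -/
theorem dual (d : Fin m → J → ZMod 2) (hd : IndJ d) :
    ∃ b : Fin m → J × J → ZMod 2, ∀ i j,
      ∑ p, b j p * (d i p.1 + d i p.2) = if i = j then 1 else 0 := by
  let f : (Fin m → ZMod 2) →ₗ[ZMod 2] (J × J → ZMod 2) :=
    { toFun := fun a p => ∑ i, a i * (d i p.1 + d i p.2)
      map_add' := fun a b => by
        funext p
        simp only [Pi.add_apply, add_mul, Finset.sum_add_distrib]
      map_smul' := fun z a => by
        funext p
        simp only [Pi.smul_apply, smul_eq_mul, RingHom.id_apply, Finset.mul_sum, mul_assoc] }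
  have hf : LinearMap.ker f = ⊥ := by
    rw [LinearMap.ker_eq_bot']
    intro a ha
    by_contra hne
    have h1 : ∃ i, a i ≠ 0 := by
      by_contra h2
      push Not at h2
      exact hne (funext h2)
    obtain ⟨k, l, hkl⟩ := hd a h1
    exact hkl (congrFun ha (k, l))
  obtain ⟨g, hg⟩ := f.exists_leftInverse_of_injective hf
  refine ⟨fun j p => g (Pi.single p 1) j, fun i j => ?_⟩
  have h1 : g (f (Pi.single i 1)) = Pi.single i 1 := by
    have h2 := LinearMap.congr_fun hg (Pi.single i 1)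
    exact h2
  have h2 : f (Pi.single i 1) = ∑ p, (d i p.1 + d i p.2) • (Pi.single p 1 : J × J → ZMod 2) := by
    funext q
    change ∑ i', (Pi.single i 1 : Fin m → ZMod 2) i' * (d i' q.1 + d i' q.2) = _
    rw [Finset.sum_eq_single i (fun b _ hb => by rw [Pi.single_eq_of_ne hb, zero_mul])
      (fun h => absurd (Finset.mem_univ _) h), Pi.single_eq_same, one_mul]
    rw [Finset.sum_apply, Finset.sum_eq_single q]
    · rw [Pi.smul_apply, Pi.single_eq_same, smul_eq_mul, mul_one]
    · intro b _ hb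
      rw [Pi.smul_apply, Pi.single_eq_of_ne (Ne.symm hb), smul_zero]
    · intro h
      exact absurd (Finset.mem_univ _) h
  rw [h2, map_sum] at h1
  have h3 := congrFun h1 j
  rw [Finset.sum_apply] at h3
  have h4 : ∑ p, g (Pi.single p 1) j * (d i p.1 + d i p.2) =
      ∑ p, (g ((d i p.1 + d i p.2) • (Pi.single p 1 : J × J → ZMod 2))) j := by
    refine Finset.sum_congr rfl fun p _ => ?_
    rw [map_smul, Pi.smul_apply, smul_eq_mul, mul_comm]
  rw [h4, h3]
  by_cases h : i = j
  · subst h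
    rw [Pi.single_eq_same, if_pos rfl]
  · rw [Pi.single_eq_of_ne (Ne.symm h), if_neg h]

end dual

section sols

variable {J : Type} [Fintype J] [LinearOrder J] {m : ℕ}

/-- the matrix of a function on the pairs -/
noncomputable def gg (h : prs (Fin m) → ZMod 2) (i j : Fin m) : ZMod 2 :=
  aa h (i, j) + aa h (j, i)

theorem gg_symm (h : prs (Fin m) → ZMod 2) (i j : Fin m) : gg h i j = gg h j i := add_comm _ _

theorem gg_self (h : prs (Fin m) → ZMod 2) (i : Fin m) : gg h i i = 0 := add_self0 _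

theorem gg_pos (h : prs (Fin m) → ZMod 2) (e : prs (Fin m)) : gg h e.1.1 e.1.2 = h e := by
  unfold gg
  have h1 : e.1.1 < e.1.2 := mem_prs.1 e.2
  rw [aa_neg h (e := (e.1.2, e.1.1)) (not_lt.2 h1.le), add_zero]
  exact aa_pos h e

/-- the solutions of the transposed system -/
noncomputable def yy (d : Fin m → J → ZMod 2)
    (x : (prs (Fin m) → ZMod 2) × (Fin m → ZMod 2)) (p : Fin m × J) : ZMod 2 :=
  ∑ j, gg x.1 p.1 j * d j p.2 + x.2 p.1

/-- the coefficients -/
def cf (d : Fin m → J → ZMod 2) (y : Fin m × J → ZMod 2) (p : J × J) : ZMod 2 :=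
  ∑ i, (y (i, p.1) + y (i, p.2)) * (d i p.1 + d i p.2)

theorem yy_sub (d : Fin m → J → ZMod 2) (x : (prs (Fin m) → ZMod 2) × (Fin m → ZMod 2))
    (i : Fin m) (k l : J) : yy d x (i, k) + yy d x (i, l) =
      ∑ j, gg x.1 i j * (d j k + d j l) := by
  unfold yy
  simp only [mul_add, Finset.sum_add_distrib]
  linear_combination (x.2 i) * two0

theorem cf_yy (d : Fin m → J → ZMod 2) (x : (prs (Fin m) → ZMod 2) × (Fin m → ZMod 2))
    (p : J × J) : cf d (yy d x) p = 0 := by
  unfold cf
  have h1 : ∀ i, (yy d x (i, p.1) + yy d x (i, p.2)) * (d i p.1 + d i p.2) =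
      ∑ j, gg x.1 i j * (d j p.1 + d j p.2) * (d i p.1 + d i p.2) := by
    intro i
    rw [yy_sub, Finset.sum_mul]
  rw [Finset.sum_congr rfl fun i _ => h1 i]
  refine sum_sym _ (fun i j => ?_) fun i => ?_
  · rw [gg_symm x.1 i j]
    ring
  · rw [gg_self, zero_mul, zero_mul]

theorem yy_inj (d : Fin m → J → ZMod 2) (hd : IndJ d) : Function.Injective (yy d) := by
  intro x x' h
  have h1 : ∀ i j, gg x.1 i j = gg x'.1 i j := by
    intro i j
    by_contra hne
    obtain ⟨k, l, hkl⟩ := hd (fun j => gg x.1 i j + gg x'.1 i j)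
      ⟨j, fun h2 => hne (add_eq0.1 h2)⟩
    apply hkl
    have h3 := yy_sub d x i k l
    have h4 := yy_sub d x' i k l
    rw [h, h4] at h3
    simp only [add_mul, Finset.sum_add_distrib]
    rw [h3]
    exact add_self0 _
  have h2 : x.1 = x'.1 := by
    funext e
    rw [← gg_pos x.1 e, ← gg_pos x'.1 e, h1]
  have h3 : x.2 = x'.2 := by
    funext i
    obtain ⟨k, l, hkl⟩ := hd (Pi.single i 1) ⟨i, by rw [Pi.single_eq_same]; decide⟩
    have h4 := congrFun h (i, k)
    unfold yy at h4
    simp only [h1] at h4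
    exact add_left_cancel h4
  exact Prod.ext h2 h3

theorem yy_surj (d : Fin m → J → ZMod 2) (hd : IndJ d) (y : Fin m × J → ZMod 2)
    (hy : ∀ e ∈ prs J, cf d y e = 0) : ∃ x, yy d x = y := by
  by_cases hJ : Nonempty J
  swap
  · refine ⟨0, funext fun p => ?_⟩
    exact absurd ⟨p.2⟩ hJ
  obtain ⟨k0⟩ := hJ
  obtain ⟨b, hb⟩ := dual d hd
  -- the coefficients for all pairs
  have hy1 : ∀ k l, cf d y (k, l) = 0 := by
    intro k l
    rcases lt_trichotomy k l with h | h | h
    · exact hy _ (mem_prs.2 h)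
    · subst h
      unfold cf
      simp only [add_self0, mul_zero, Finset.sum_const_zero]
    · have h1 := hy (l, k) (mem_prs.2 h)
      unfold cf at h1 ⊢
      rw [← h1]
      refine Finset.sum_congr rfl fun i _ => ?_
      ring
  obtain ⟨S, hSd⟩ : ∃ S : J × J → J × J → ZMod 2, S = fun p q =>
    ∑ i, (y (i, p.1) + y (i, p.2)) * (d i q.1 + d i q.2) := ⟨_, rfl⟩
  have hS0 : ∀ p, S p p = 0 := by
    intro p
    rw [hSd]
    exact hy1 p.1 p.2
  have hSs : ∀ p q, S p q = S q p := by
    intro p q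
    rw [← add_eq0]
    have h1 := hy1 p.1 q.1
    have h2 := hy1 p.1 q.2
    have h3 := hy1 p.2 q.1
    have h4 := hy1 p.2 q.2
    have h5 : S p q + S q p = cf d y (p.1, q.1) + cf d y (p.1, q.2) + cf d y (p.2, q.1) +
        cf d y (p.2, q.2) := by
      rw [hSd]
      unfold cf
      simp only [← Finset.sum_add_distrib]
      refine Finset.sum_congr rfl fun i _ => ?_
      linear_combination (-(y (i, p.1) * d i p.1 + y (i, p.2) * d i p.2 +
        y (i, q.1) * d i q.1 + y (i, q.2) * d i q.2)) * two0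
    rw [h5, h1, h2, h3, h4]
    simp
  obtain ⟨G, hGd⟩ : ∃ G : Fin m → Fin m → ZMod 2, G = fun i j =>
    ∑ p, b i p * (y (j, p.1) + y (j, p.2)) := ⟨_, rfl⟩
  -- the sums with the dual vectors
  have hb1 : ∀ (i : Fin m) (q : J × J), ∑ p, b i p * S q p = y (i, q.1) + y (i, q.2) := by
    intro i q
    rw [hSd]
    beta_reduce
    simp only [Finset.mul_sum]
    rw [Finset.sum_comm]
    have h1 : ∀ i', ∑ p, b i p * ((y (i', q.1) + y (i', q.2)) * (d i' p.1 + d i' p.2)) =
        (y (i', q.1) + y (i', q.2)) * if i' = i then 1 else 0 := by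
      intro i'
      rw [← hb i' i, Finset.mul_sum]
      refine Finset.sum_congr rfl fun p _ => ?_
      ring
    rw [Finset.sum_congr rfl fun i' _ => h1 i']
    simp
  have hb2 : ∀ (i : Fin m) (q : J × J), ∑ p, b i p * S p q =
      ∑ j, G i j * (d j q.1 + d j q.2) := by
    intro i q
    rw [hSd, hGd]
    beta_reduce
    simp only [Finset.mul_sum, Finset.sum_mul]
    rw [Finset.sum_comm]
    refine Finset.sum_congr rfl fun j _ => Finset.sum_congr rfl fun p _ => ?_
    ring
  have hA : ∀ (i : Fin m) (q : J × J), y (i, q.1) + y (i, q.2) =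
      ∑ j, G i j * (d j q.1 + d j q.2) := by
    intro i q
    rw [← hb1, ← hb2]
    exact Finset.sum_congr rfl fun p _ => by rw [hSs]
  have hGs : ∀ i j, G i j = G j i := by
    intro i j
    have h1 : G i j = ∑ p, b i p * ∑ l, G j l * (d l p.1 + d l p.2) := by
      conv_lhs => rw [hGd]
      exact Finset.sum_congr rfl fun p _ => by rw [hA]
    rw [h1]
    simp only [Finset.mul_sum]
    rw [Finset.sum_comm]
    have h2 : ∀ l, ∑ p, b i p * (G j l * (d l p.1 + d l p.2)) =
        G j l * if l = i then 1 else 0 := by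
      intro l
      rw [← hb l i, Finset.mul_sum]
      refine Finset.sum_congr rfl fun p _ => ?_
      ring
    rw [Finset.sum_congr rfl fun l _ => h2 l]
    simp
  have hG0 : ∀ i, G i i = 0 := by
    intro i
    have h1 : G i i = ∑ p, ∑ q, b i p * (b i q * S p q) := by
      conv_lhs => rw [hGd]
      refine Finset.sum_congr rfl fun p _ => ?_
      rw [← hb1, Finset.mul_sum]
    rw [h1]
    refine sum_sym _ (fun p q => ?_) fun p => ?_
    · rw [hSs p q]
      ring
    · rw [hS0, mul_zero, mul_zero]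
  refine ⟨(fun e => G e.1.1 e.1.2, fun i => y (i, k0) + ∑ j, G i j * d j k0), ?_⟩
  have hgg : ∀ i j, gg (fun e : prs (Fin m) => G e.1.1 e.1.2) i j = G i j := by
    intro i j
    rcases lt_trichotomy i j with h | h | h
    · exact gg_pos _ ⟨(i, j), mem_prs.2 h⟩
    · subst h
      rw [gg_self, hG0]
    · rw [gg_symm, hGs]
      exact gg_pos _ ⟨(j, i), mem_prs.2 h⟩
  funext p
  unfold yy
  simp only [hgg]
  have h1 := hA p.1 (p.2, k0)
  simp only [mul_add, Finset.sum_add_distrib] at h1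
  linear_combination -h1 + (y (p.1, k0)) * two0

end sols

/-- QK-LA1 -/
theorem t_LA1 : S_LA1 := by
  intro U J _ _ _ sU tU sJ tJ A B hT hA m c d hd hU
  obtain ⟨K, hKd⟩ : ∃ K : (Fin m × J → ZMod 2) → ZMod 2, K = fun y =>
    ∑ p, y p * rowJ tU sJ tJ B (ext tJ 0) (c p.1) (d p.1) p.2 := ⟨_, rfl⟩
  have hR0 : ∀ k l, k ≠ l → ext tJ (0 : prs J → ZMod 2) k l + ext tJ 0 l k = tJ k * tJ l :=
    fun k l h => ext_add tJ 0 k l h
  -- the exponent
  have hexp : ∀ (y : Fin m × J → ZMod 2) (α : prs J → ZMod 2),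
      ∑ p, y p * rowJ tU sJ tJ B (ext tJ α) (c p.1) (d p.1) p.2 =
        K y + ∑ e : prs J, α e * cf d y e.1 := by
    intro y α
    have h0 : ∀ p : Fin m × J, y p * rowJ tU sJ tJ B (ext tJ α) (c p.1) (d p.1) p.2 =
        y p * rowJ tU sJ tJ B (ext tJ 0) (c p.1) (d p.1) p.2 +
          y p * ∑ l, (aa α (l, p.2) + aa α (p.2, l)) * (d p.1 p.2 + d p.1 l) := by
      intro p
      rw [rowJ_aff tU sJ tJ B α, mul_add]
    rw [sum_aa, hKd, Finset.sum_congr rfl fun p _ => h0 p, Finset.sum_add_distrib]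
    congr 1
    rw [← Finset.univ_product_univ, Finset.sum_product]
    have h1 : ∀ i : Fin m, ∑ k : J, (y (i, k) * ∑ l, (aa α (l, k) + aa α (k, l)) *
        (d i k + d i l)) = ∑ e ∈ prs J, aa α e * ((y (i, e.1) + y (i, e.2)) *
          (d i e.1 + d i e.2)) := by
      intro i
      simp only [Finset.mul_sum]
      rw [sum_pairs (fun k l => y (i, k) * ((aa α (l, k) + aa α (k, l)) * (d i k + d i l)))]
      have h2 : ∑ k : J, y (i, k) * ((aa α (k, k) + aa α (k, k)) * (d i k + d i k)) = 0 :=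
        Finset.sum_eq_zero fun k _ => by rw [add_self0 (d i k), mul_zero, mul_zero]
      rw [h2, add_zero]
      refine Finset.sum_congr rfl fun e he => ?_
      have h3 : e.1 < e.2 := mem_prs.1 he
      rw [aa_neg α (e := (e.2, e.1)) (not_lt.2 h3.le)]
      have h4 : aa α (e.1, e.2) = aa α e := rfl
      rw [h4]
      ring
    have h6 : ∑ e ∈ prs J, aa α e * cf d y e = ∑ i, ∑ e ∈ prs J,
        aa α e * ((y (i, e.1) + y (i, e.2)) * (d i e.1 + d i e.2)) := by
      rw [Finset.sum_comm]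
      refine Finset.sum_congr rfl fun e _ => ?_
      unfold cf
      rw [Finset.mul_sum]
    rw [h6]
    refine Finset.sum_congr rfl fun i _ => ?_
    exact h1 i
  -- the values at the solutions of the transposed system
  have hKy : ∀ x : (prs (Fin m) → ZMod 2) × (Fin m → ZMod 2), K (yy d x) =
      ∑ e : prs (Fin m), x.1 e * bt tU tJ (c e.1.1) (d e.1.1) (c e.1.2) (d e.1.2) +
        ∑ i, x.2 i * colS sU tU sJ tJ (c i) (d i) := by
    intro x
    rw [sum_aa x.1 fun e => bt tU tJ (c e.1) (d e.1) (c e.2) (d e.2), hKd]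
    beta_reduce
    rw [← Finset.univ_product_univ, Finset.sum_product]
    have h1 : ∀ i : Fin m, ∑ k : J, yy d x (i, k) *
        rowJ tU sJ tJ B (ext tJ 0) (c i) (d i) k =
        ∑ j, gg x.1 i j * ∑ k, d j k * rowJ tU sJ tJ B (ext tJ 0) (c i) (d i) k +
          x.2 i * colS sU tU sJ tJ (c i) (d i) := by
      intro i
      rw [← sumrows sU tU sJ tJ A B (ext tJ 0) hA hR0 hT (c i) (d i) (hU i)]
      unfold yy
      simp only [add_mul, Finset.sum_add_distrib, Finset.mul_sum, Finset.sum_mul]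
      congr 1
      rw [Finset.sum_comm]
      refine Finset.sum_congr rfl fun j _ => Finset.sum_congr rfl fun k _ => ?_
      ring
    rw [Finset.sum_congr rfl fun i _ => h1 i, Finset.sum_add_distrib]
    congr 1
    rw [sum_pairs]
    simp only [gg_self, zero_mul, Finset.sum_const_zero, add_zero]
    refine Finset.sum_congr rfl fun e he => ?_
    rw [gg_symm x.1 e.2 e.1, ← mul_add]
    have h2 : gg x.1 e.1 e.2 = aa x.1 e := by
      have h3 := gg_pos x.1 ⟨e, he⟩
      have h4 := aa_pos x.1 ⟨e, he⟩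
      rw [h4]
      exact h3
    rw [h2, ← pol sU tU sJ tJ A B (ext tJ 0) hA hR0 _ _ _ _ (hU e.1) (hU e.2)]
  -- the counting
  have hcount : ((univ.filter fun α : prs J → ZMod 2 =>
      ∀ i k, rowJ tU sJ tJ B (ext tJ α) (c i) (d i) k = 0).card : ℤ) *
        2 ^ Fintype.card (Fin m × J) =
      2 ^ Fintype.card (prs J) * ∑ y ∈ univ.filter (fun y => ∀ e : prs J, cf d y e.1 = 0),
        ch (K y) := by
    rw [Finset.card_filter]
    push_cast
    rw [Finset.sum_mul, Finset.mul_sum]
    have h1 : ∀ α : prs J → ZMod 2,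
        (if ∀ i k, rowJ tU sJ tJ B (ext tJ α) (c i) (d i) k = 0 then (1 : ℤ) else 0) *
          2 ^ Fintype.card (Fin m × J) = ∑ y : Fin m × J → ZMod 2,
            ch (∑ p, y p * rowJ tU sJ tJ B (ext tJ α) (c p.1) (d p.1) p.2) := by
      intro α
      rw [sum_ch]
      have h2 : (∀ i k, rowJ tU sJ tJ B (ext tJ α) (c i) (d i) k = 0) ↔
          ∀ p : Fin m × J, rowJ tU sJ tJ B (ext tJ α) (c p.1) (d p.1) p.2 = 0 :=
        ⟨fun h p => h p.1 p.2, fun h i k => h (i, k)⟩
      by_cases h3 : ∀ p : Fin m × J, rowJ tU sJ tJ B (ext tJ α) (c p.1) (d p.1) p.2 = 0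
      · rw [if_pos h3, if_pos (h2.2 h3), one_mul]
      · rw [if_neg h3, if_neg (fun h => h3 (h2.1 h)), zero_mul]
    rw [Finset.sum_congr rfl fun α _ => h1 α, Finset.sum_comm]
    have h2 : ∀ y : Fin m × J → ZMod 2, ∑ α : prs J → ZMod 2,
        ch (∑ p, y p * rowJ tU sJ tJ B (ext tJ α) (c p.1) (d p.1) p.2) =
        if ∀ e : prs J, cf d y e.1 = 0 then 2 ^ Fintype.card (prs J) * ch (K y) else 0 := by
      intro y
      simp only [hexp y, ch_add]
      rw [← Finset.mul_sum, sum_ch]
      split_ifs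
      · ring
      · ring
    rw [Finset.sum_congr rfl fun y _ => h2 y, Finset.sum_filter]
  have hbij : ∑ y ∈ univ.filter (fun y => ∀ e : prs J, cf d y e.1 = 0), ch (K y) =
      ∑ x : (prs (Fin m) → ZMod 2) × (Fin m → ZMod 2), ch (K (yy d x)) := by
    symm
    refine Finset.sum_bij (fun x _ => yy d x) ?_ ?_ ?_ ?_
    · intro x _
      rw [Finset.mem_filter]
      exact ⟨Finset.mem_univ _, fun e => cf_yy d x e.1⟩
    · intro x _ x' _ h
      exact yy_inj d hd h
    · intro y hy
      rw [Finset.mem_filter] at hy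
      obtain ⟨x, hx⟩ := yy_surj d hd y fun e he => hy.2 ⟨e, he⟩
      exact ⟨x, Finset.mem_univ _, hx⟩
    · intro x _
      rfl
  have hval : ∑ x : (prs (Fin m) → ZMod 2) × (Fin m → ZMod 2), ch (K (yy d x)) =
      if OKt sU tU sJ tJ A B c d then 2 ^ (m.choose 2 + m) else 0 := by
    simp only [hKy, ch_add]
    rw [← Finset.univ_product_univ, Finset.sum_product]
    simp only [← Finset.mul_sum]
    rw [← Finset.sum_mul, sum_ch (fun i => colS sU tU sJ tJ (c i) (d i)),
      sum_ch (fun e : prs (Fin m) => bt tU tJ (c e.1.1) (d e.1.1) (c e.1.2) (d e.1.2))]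
    have hbts : ∀ i j, bt tU tJ (c i) (d i) (c j) (d j) =
        bt tU tJ (c j) (d j) (c i) (d i) := by
      intro i j
      unfold bt
      simp only [mul_comm (c i _) (c j _), mul_comm (d i _) (d j _)]
      ring
    have hbt0 : ∀ i, bt tU tJ (c i) (d i) (c i) (d i) = 0 := by
      intro i
      unfold bt
      simp only [sq0]
      exact add_self0 _
    have h1 : OKt sU tU sJ tJ A B c d ↔
        (∀ e : prs (Fin m), bt tU tJ (c e.1.1) (d e.1.1) (c e.1.2) (d e.1.2) = 0) ∧
        ∀ i, colS sU tU sJ tJ (c i) (d i) = 0 := by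
      unfold OKt
      constructor
      · rintro ⟨-, h2, h3⟩
        exact ⟨fun e => h3 _ _, h2⟩
      · rintro ⟨h2, h3⟩
        refine ⟨hU, h3, fun i j => ?_⟩
        rcases lt_trichotomy i j with h | h | h
        · exact h2 ⟨(i, j), mem_prs.2 h⟩
        · subst h
          exact hbt0 i
        · rw [hbts]
          exact h2 ⟨(j, i), mem_prs.2 h⟩
    have h2 : Fintype.card (prs (Fin m)) = m.choose 2 := by
      rw [Fintype.card_coe, prs_card]
    rw [h2, Fintype.card_fin]
    by_cases h3 : ∀ e : prs (Fin m), bt tU tJ (c e.1.1) (d e.1.1) (c e.1.2) (d e.1.2) = 0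
    · by_cases h4 : ∀ i, colS sU tU sJ tJ (c i) (d i) = 0
      · rw [if_pos h3, if_pos h4, if_pos (h1.2 ⟨h3, h4⟩), pow_add]
      · rw [if_pos h3, if_neg h4, if_neg (fun h => h4 (h1.1 h).2), mul_zero]
    · rw [if_neg h3, if_neg (fun h => h3 (h1.1 h).1), zero_mul]
  rw [hbij, hval] at hcount
  -- the exponents
  have hcard : Fintype.card (Fin m × J) = m * (Fintype.card J - 1) + m := by
    rw [Fintype.card_prod, Fintype.card_fin]
    rcases Nat.eq_zero_or_pos m with h | h
    · subst h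
      simp
    · obtain ⟨k, -, -⟩ := hd (fun _ => 1) ⟨⟨0, h⟩, by decide⟩
      have h1 : 0 < Fintype.card J := Fintype.card_pos_iff.2 ⟨k⟩
      obtain ⟨n, hn⟩ := Nat.exists_eq_succ_of_ne_zero h1.ne'
      rw [hn, Nat.succ_sub_one, Nat.mul_succ]
  rw [hcard, Fintype.card_coe, pow_add, ← mul_assoc] at hcount
  have h2m : (2 : ℤ) ^ m ≠ 0 := pow_ne_zero _ (by norm_num)
  by_cases hok : OKt sU tU sJ tJ A B c d
  · rw [if_pos hok] at hcount ⊢
    have h1 : (((univ.filter fun α : prs J → ZMod 2 =>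
        ∀ i k, rowJ tU sJ tJ B (ext tJ α) (c i) (d i) k = 0).card : ℤ) *
        2 ^ (m * (Fintype.card J - 1))) * 2 ^ m = 2 ^ ((prs J).card + m.choose 2) * 2 ^ m := by
      rw [hcount, ← pow_add, ← pow_add]
      congr 1
      ring
    have h2 := mul_right_cancel₀ h2m h1
    exact_mod_cast h2
  · rw [if_neg hok] at hcount ⊢
    rw [mul_zero] at hcount
    have h2 := (mul_eq_zero.1 hcount).resolve_right h2m
    exact_mod_cast h2

end Pool.Agent.R426.QK.LA1
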