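import Pool.Agent.R426.QK.Stm

/-!
# QK-LOW: the class has positive density
-/

set_option autoImplicit false
set_option linter.unusedVariables false

open scoped Classical

namespace Pool.Agent.R426.QK.LOW

open Pool.Agent.R426.QK
open Finset
open Pool.Agent.Y698 Pool.Agent.Y698.SG

/-- the elements `1` modulo `4 * fR` of norm at most `X` -/
noncomputable def T (X : ℕ) : Finset RR := (ZB X).filter fun n => 4 * fR ∣ n - 1

lemma mem_T {X : ℕ} {n : RR} : n ∈ T X ↔ nrm n ≤ X ∧ 4 * fR ∣ n - 1 := by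
  unfold T
  rw [mem_filter, mem_ZB]

/-- the norm of `1 + 4 * fR * (a + b * aR)` -/
lemma nrm_form (a b : ℤ) : (nrm (1 + 4 * fR * mk (a, b)) : ℤ) =
    1 - 28 * b + 112 * (a ^ 2 + a * b + 2 * b ^ 2) := by
  have h4 : (4 : RR) = ((4 : ℤ) : RR) := by norm_num
  have e1 : cX (1 + 4 * fR * mk (a, b)) = 1 - 4 * a - 16 * b := by
    rw [h4, (cXY_add _ _).1, (cXY_mul _ _).1, (cXY_mul _ _).1, (cXY_mul _ _).2, (cXY_int _).1,
      (cXY_int _).2, cXY_one.1, cXY_fR.1, cXY_fR.2, (cXY_mk _).1, (cXY_mk _).2]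
    ring
  have e2 : cY (1 + 4 * fR * mk (a, b)) = 8 * a + 4 * b := by
    rw [h4, (cXY_add _ _).2, (cXY_mul _ _).2, (cXY_mul _ _).1, (cXY_mul _ _).2, (cXY_int _).1,
      (cXY_int _).2, cXY_one.2, cXY_fR.1, cXY_fR.2, (cXY_mk _).1, (cXY_mk _).2]
    ring
  rw [nrm_eq', e1, e2]
  ring

lemma four_fR_ne : (4 * fR : RR) ≠ 0 := by
  refine mul_ne_zero ?_ fR_ne
  have h4 : (4 : RR) = aR * cj aR * (aR * cj aR) := by
    rw [← two_eq]
    norm_num
  rw [h4]
  exact mul_ne_zero (mul_ne_zero prime_aR.ne_zero prime_cjaR.ne_zero)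
    (mul_ne_zero prime_aR.ne_zero prime_cjaR.ne_zero)

lemma T_lower {X : ℕ} (hX : 1 ≤ X) : X ≤ 448 * (T X).card := by
  obtain ⟨B, hB1, hB2⟩ : ∃ B : ℕ, B * B ≤ (X - 1) / 448 ∧ (X - 1) / 448 < (B + 1) * (B + 1) :=
    ⟨Nat.sqrt ((X - 1) / 448), Nat.sqrt_le _, Nat.lt_succ_sqrt _⟩
  have h1 : ((range (B + 1)) ×ˢ (range (B + 1))).card ≤ (T X).card := by
    refine card_le_card_of_injOn
      (fun p : ℕ × ℕ => 1 + 4 * fR * mk ((p.1 : ℤ), (p.2 : ℤ))) ?_ ?_
    · intro p hp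
      have hp' : p.1 < B + 1 ∧ p.2 < B + 1 := by
        simpa using hp
      have ha : (p.1 : ℤ) ≤ B := by exact_mod_cast Nat.lt_succ_iff.1 hp'.1
      have hb : (p.2 : ℤ) ≤ B := by exact_mod_cast Nat.lt_succ_iff.1 hp'.2
      have ha0 : (0 : ℤ) ≤ p.1 := Int.natCast_nonneg _
      have hb0 : (0 : ℤ) ≤ p.2 := Int.natCast_nonneg _
      rw [mem_coe, mem_T]
      refine ⟨?_, ⟨mk ((p.1 : ℤ), (p.2 : ℤ)), by ring⟩⟩
      have h2 := nrm_form p.1 p.2
      have h3 : (B * B : ℤ) * 448 ≤ X - 1 := by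
        have : B * B * 448 ≤ X - 1 := (Nat.le_div_iff_mul_le (by norm_num)).1 hB1
        have h5 : ((B * B * 448 : ℕ) : ℤ) ≤ ((X - 1 : ℕ) : ℤ) := by exact_mod_cast this
        rw [Nat.cast_sub hX] at h5
        push_cast at h5
        exact h5
      have h4 : (nrm (1 + 4 * fR * mk ((p.1 : ℤ), (p.2 : ℤ))) : ℤ) ≤ X := by
        rw [h2]
        nlinarith [mul_le_mul ha ha ha0 (ha0.trans ha), mul_le_mul hb hb hb0 (hb0.trans hb),
          mul_le_mul ha hb hb0 (ha0.trans ha)]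
      exact_mod_cast h4
    · intro p _ q _ h
      have h2 : (4 * fR) * mk ((p.1 : ℤ), (p.2 : ℤ)) = (4 * fR) * mk ((q.1 : ℤ), (q.2 : ℤ)) :=
        add_left_cancel h
      have h3 := mk_inj (mul_left_cancel₀ four_fR_ne h2)
      rw [Prod.mk.injEq] at h3
      exact Prod.ext (by exact_mod_cast h3.1) (by exact_mod_cast h3.2)
  rw [card_product, card_range] at h1
  have h2 : X - 1 < 448 * ((B + 1) * (B + 1)) := by
    rw [Nat.div_lt_iff_lt_mul (by norm_num)] at hB2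
    linarith
  have h3 : 448 * ((B + 1) * (B + 1)) ≤ 448 * (T X).card := Nat.mul_le_mul_left _ h1
  omega

/-- every nonzero element is a squarefree element times a square -/
lemma sqf_dec : ∀ (N : ℕ) (n : RR), n ≠ 0 → nrm n ≤ N → ∃ D m : RR, Squarefree D ∧ n = D * m ^ 2 := by
  intro N
  induction N with
  | zero =>
    intro n hn h
    exact absurd (nrm_zero_iff.1 (Nat.le_zero.1 h)) hn
  | succ N ih =>
    intro n hn h
    by_cases hs : Squarefree n
    · exact ⟨n, 1, hs, by ring⟩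
    · unfold Squarefree at hs
      push Not at hs
      obtain ⟨x, ⟨c, hc⟩, hx⟩ := hs
      have hc0 : c ≠ 0 := by
        rintro rfl
        exact hn (by rw [hc, mul_zero])
      have hx0 : x ≠ 0 := by
        rintro rfl
        exact hn (by rw [hc, zero_mul, zero_mul])
      have h1 : nrm c < nrm n := by
        rw [hc, nrm_mul, nrm_mul]
        have h2 : nrm x ≠ 1 := fun h => hx (nrm_one_iff.1 h)
        have h3 := nrm_pos' hx0
        have h4 := nrm_pos' hc0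
        have h5 : 1 < nrm x * nrm x := by nlinarith [show 2 ≤ nrm x by omega]
        nlinarith
      obtain ⟨D, m, hD, hm⟩ := ih c hc0 (by omega)
      exact ⟨D, x * m, hD, by rw [hc, hm]; ring⟩

lemma aR_dvd_4 : aR ∣ 4 * fR := ⟨cj aR * 2 * fR, by
  have := two_eq
  calc (4 : RR) * fR = 2 * 2 * fR := by ring
    _ = (aR * cj aR) * 2 * fR := by rw [← two_eq]
    _ = _ := by ring⟩

lemma cjaR_dvd_4 : cj aR ∣ 4 * fR := ⟨aR * 2 * fR, by
  calc (4 : RR) * fR = 2 * 2 * fR := by ring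
    _ = (aR * cj aR) * 2 * fR := by rw [← two_eq]
    _ = _ := by ring⟩

lemma not_dvd {p n : RR} (hp : Prime p) (h4 : p ∣ 4 * fR) (hn : 4 * fR ∣ n - 1) : ¬ p ∣ n := by
  intro h
  have h1 : p ∣ n - (n - 1) := dvd_sub h (h4.trans hn)
  rw [sub_sub_cancel] at h1
  exact hp.not_isUnit (isUnit_of_dvd_one h1)

lemma r4_four (x : RR) : QD.r4 (4 * x) = 0 := by
  rw [map_mul]
  have : QD.r4 (4 : RR) = 0 := by
    rw [map_ofNat]
    rfl
  rw [this, zero_mul]

lemma r4_of {n : RR} (hn : 4 * fR ∣ n - 1) : QD.r4 n = 1 ∧ QD.r4 (cj n) = 1 := by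
  obtain ⟨c, hc⟩ := hn
  have e1 : n = 1 + 4 * (fR * c) := by linear_combination hc
  constructor
  · rw [e1, map_add, map_one, r4_four, add_zero]
  · rw [e1, map_add, map_one, map_mul cj, map_add, map_one, map_ofNat cj, r4_four, add_zero]

lemma r4_sq {m : RR} (hm : ¬ aR ∣ m) : QD.r4 m ^ 2 = 1 := by
  rcases r4_unit' hm with h | h
  · rw [h]; decide
  · rw [h]; decide

/-- the squarefree part of an element of `T` -/
lemma dec_T {n : RR} (hn : 4 * fR ∣ n - 1) : ∃ D m : RR, PS D ∧ nrm D % 4 = 1 ∧ n = D * m ^ 2 ∧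
    n ≠ 0 := by
  have ha := not_dvd prime_aR aR_dvd_4 hn
  have hc := not_dvd prime_cjaR cjaR_dvd_4 hn
  have hf := not_dvd prime_fR (dvd_mul_left _ _) hn
  have hn0 : n ≠ 0 := by
    rintro rfl
    exact ha (dvd_zero _)
  obtain ⟨D, m, hD, hm⟩ := sqf_dec (nrm n) n hn0 le_rfl
  have hDn : D ∣ n := by rw [hm]; exact dvd_mul_right _ _
  have hmn : m ∣ n := by rw [hm, pow_two]; exact (dvd_mul_right m m).mul_left _
  have ham : ¬ aR ∣ m := fun h => ha (h.trans hmn)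
  have hcm : ¬ aR ∣ cj m := by
    intro h
    apply hc
    have := map_dvd cj h
    rw [cj_cj] at this
    exact this.trans hmn
  obtain ⟨h1, h2⟩ := r4_of hn
  have h3 : QD.r4 D = 1 := by
    rw [hm, map_mul, map_pow, r4_sq ham, mul_one] at h1
    exact h1
  have h4 : QD.r4 (cj D) = 1 := by
    rw [hm, map_mul cj, map_pow cj, map_mul, map_pow, r4_sq hcm, mul_one] at h2
    exact h2
  refine ⟨D, m, ⟨⟨h3, fun h => hc (h.trans hDn), fun h => hf (h.trans hDn)⟩, hD⟩, ?_, hm, hn0⟩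
  have h5 : QD.r4 (D * cj D) = 1 := by rw [map_mul, h3, h4, mul_one]
  rw [mul_cj, ← nrm_cast, map_intCast] at h5
  have h6 : ((nrm D : ℕ) : ZMod 4) = ((1 : ℕ) : ZMod 4) := by
    push_cast at h5 ⊢
    exact h5
  have h7 := (ZMod.natCast_eq_natCast_iff _ _ _).1 h6
  exact h7

/-- the norm as a homomorphism -/
noncomputable def nh : RR →* ℕ where
  toFun := nrm
  map_one' := nrm_one
  map_mul' := nrm_mul

lemma nrm_prod (S : Finset RR) : nrm (∏ π ∈ S, π) = ∏ π ∈ S, nrm π := map_prod nh _ _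

/-- the set of prime divisors is in the class -/
lemma PD_mem {D : RR} {X : ℕ} (hD : PS D) (h4 : nrm D % 4 = 1) (hX : nrm D ≤ X) : PD D ∈ SS X := by
  have h1 : ∏ π ∈ PD D, nrm π = nrm D := by rw [← nrm_prod, hD.prod]
  unfold SS
  rw [mem_filter, mem_powerset]
  refine ⟨?_, ⟨?_, ?_⟩, ?_⟩
  · intro π hπ
    rw [mem_PD hD.ne] at hπ
    rw [mem_QB]
    exact ⟨(norm_le_of_dvd hD.ne hπ.2).trans hX, hπ.1⟩
  · intro π hπ
    exact ((mem_PD hD.ne).1 hπ).1
  · rw [h1]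
    exact h4
  · rw [h1]
    exact hX

/-- dyadic tail bound -/
lemma tail {L : ℕ} (hL : 1 ≤ L) (j : ℕ) : ∑ m ∈ ZB (2 ^ j * L) \ ZB L, 1 / (nrm m : ℝ) ^ 2 ≤
    64 / (L : ℝ) * (1 - (1 / 2) ^ j) := by
  have hL0 : (0 : ℝ) < L := by exact_mod_cast hL
  induction j with
  | zero => simp
  | succ j ih =>
    have hsub : ZB (2 ^ (j + 1) * L) \ ZB L ⊆
        (ZB (2 ^ j * L) \ ZB L) ∪ (ZB (2 ^ (j + 1) * L) \ ZB (2 ^ j * L)) := by
      intro m hm
      rw [mem_sdiff] at hm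
      rw [mem_union, mem_sdiff, mem_sdiff]
      by_cases h : m ∈ ZB (2 ^ j * L)
      · exact Or.inl ⟨h, hm.2⟩
      · exact Or.inr ⟨hm.1, h⟩
    have hP : (0 : ℝ) < 2 ^ j * L := by positivity
    have hblock : ∑ m ∈ ZB (2 ^ (j + 1) * L) \ ZB (2 ^ j * L), 1 / (nrm m : ℝ) ^ 2 ≤
        64 / (L : ℝ) * (1 / 2) ^ (j + 1) := by
      have h1 : ∀ m ∈ ZB (2 ^ (j + 1) * L) \ ZB (2 ^ j * L), 1 / (nrm m : ℝ) ^ 2 ≤
          1 / (2 ^ j * L : ℝ) ^ 2 := by
        intro m hm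
        rw [mem_sdiff, mem_ZB, mem_ZB, not_le] at hm
        have h2 : (2 ^ j * L : ℝ) ≤ nrm m := by exact_mod_cast hm.2.le
        exact one_div_le_one_div_of_le (by positivity) (pow_le_pow_left₀ hP.le h2 2)
      refine (sum_le_sum h1).trans ?_
      rw [sum_const, nsmul_eq_mul]
      have h3 : ((ZB (2 ^ (j + 1) * L) \ ZB (2 ^ j * L)).card : ℝ) ≤ 16 * (2 ^ (j + 1) * L : ℝ) := by
        have h4 : ((ZB (2 ^ (j + 1) * L) \ ZB (2 ^ j * L)).card : ℝ) ≤
            ((ZB (2 ^ (j + 1) * L)).card : ℝ) := by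
          exact_mod_cast card_le_card sdiff_subset
        refine h4.trans ?_
        have h5 := card_ZB_le (V := 2 ^ (j + 1) * L) (Nat.mul_pos (by positivity) hL)
        push_cast at h5
        exact h5
      refine (mul_le_mul_of_nonneg_right h3 (by positivity)).trans (le_of_eq ?_)
      have hp : (2 : ℝ) ^ j ≠ 0 := by positivity
      rw [one_div_pow, pow_succ, pow_succ]
      field_simp
      ring
    calc ∑ m ∈ ZB (2 ^ (j + 1) * L) \ ZB L, 1 / (nrm m : ℝ) ^ 2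
        ≤ ∑ m ∈ (ZB (2 ^ j * L) \ ZB L) ∪ (ZB (2 ^ (j + 1) * L) \ ZB (2 ^ j * L)),
          1 / (nrm m : ℝ) ^ 2 := sum_le_sum_of_subset_of_nonneg hsub fun _ _ _ => by positivity
      _ ≤ ∑ m ∈ ZB (2 ^ j * L) \ ZB L, 1 / (nrm m : ℝ) ^ 2 +
          ∑ m ∈ ZB (2 ^ (j + 1) * L) \ ZB (2 ^ j * L), 1 / (nrm m : ℝ) ^ 2 := by
        have := sum_union_inter (s₁ := ZB (2 ^ j * L) \ ZB L)
          (s₂ := ZB (2 ^ (j + 1) * L) \ ZB (2 ^ j * L)) (f := fun m : RR => 1 / (nrm m : ℝ) ^ 2)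
        have h0 : 0 ≤ ∑ m ∈ (ZB (2 ^ j * L) \ ZB L) ∩ (ZB (2 ^ (j + 1) * L) \ ZB (2 ^ j * L)),
          1 / (nrm m : ℝ) ^ 2 := sum_nonneg fun _ _ => by positivity
        linarith
      _ ≤ 64 / (L : ℝ) * (1 - (1 / 2) ^ j) + 64 / (L : ℝ) * (1 / 2) ^ (j + 1) := add_le_add ih hblock
      _ = 64 / (L : ℝ) * (1 - (1 / 2) ^ (j + 1)) := by ring

lemma tail' {L : ℕ} (hL : 1 ≤ L) (X : ℕ) : ∑ m ∈ ZB X \ ZB L, 1 / (nrm m : ℝ) ^ 2 ≤ 64 / (L : ℝ) := by
  have hL0 : (0 : ℝ) < L := by exact_mod_cast hL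
  have h1 : ZB X \ ZB L ⊆ ZB (2 ^ X * L) \ ZB L := by
    intro m hm
    rw [mem_sdiff, mem_ZB] at hm ⊢
    refine ⟨?_, hm.2⟩
    have h2 : X ≤ 2 ^ X * L := (Nat.lt_two_pow_self).le.trans (Nat.le_mul_of_pos_right _ hL)
    exact hm.1.trans h2
  refine (sum_le_sum_of_subset_of_nonneg h1 fun _ _ _ => by positivity).trans
    ((tail hL X).trans ?_)
  have h3 : (0 : ℝ) ≤ (1 / 2) ^ X := by positivity
  have h4 : (0 : ℝ) ≤ 64 / (L : ℝ) := by positivity
  nlinarith [mul_nonneg h4 h3]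

/-- the chosen squarefree part -/
noncomputable def dD (n : RR) : RR := if h : 4 * fR ∣ n - 1 then (dec_T h).choose else 1

/-- the chosen square root of the square part -/
noncomputable def dm (n : RR) : RR := if h : 4 * fR ∣ n - 1 then (dec_T h).choose_spec.choose else 1

lemma d_spec {n : RR} (h : 4 * fR ∣ n - 1) : PS (dD n) ∧ nrm (dD n) % 4 = 1 ∧
    n = dD n * dm n ^ 2 ∧ n ≠ 0 := by
  unfold dD dm
  rw [dif_pos h, dif_pos h]
  exact (dec_T h).choose_spec.choose_spec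

lemma card_small (X L : ℕ) : ((T X).filter fun n => nrm (dm n) ≤ L).card ≤
    (ZB L).card * (SS X).card := by
  rw [← card_product]
  refine card_le_card_of_injOn (fun n => (dm n, PD (dD n))) ?_ ?_
  · intro n hn
    rw [mem_coe, mem_filter, mem_T] at hn
    obtain ⟨h1, h2, h3, h4⟩ := d_spec hn.1.2
    rw [mem_coe, mem_product, mem_ZB]
    refine ⟨hn.2, PD_mem h1 h2 ?_⟩
    refine (norm_le_of_dvd h4 ?_).trans hn.1.1
    exact ⟨_, h3⟩
  · intro n hn n' hn' h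
    rw [mem_coe, mem_filter, mem_T] at hn hn'
    obtain ⟨h1, h2, h3, h4⟩ := d_spec hn.1.2
    obtain ⟨k1, k2, k3, k4⟩ := d_spec hn'.1.2
    rw [Prod.mk.injEq] at h
    rw [h3, k3, ← h1.prod, ← k1.prod, h.1, h.2]

lemma card_big {X L : ℕ} (hL : 1 ≤ L) : (((T X).filter fun n => ¬ nrm (dm n) ≤ L).card : ℝ) ≤
    16 * X * (64 / L) := by
  have h1 : ((T X).filter fun n => ¬ nrm (dm n) ≤ L).card ≤
      (((ZB X \ ZB L).filter fun m => 1 ≤ X / nrm m ^ 2).sigma fun m => ZB (X / nrm m ^ 2)).card := by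
    refine card_le_card_of_injOn (fun n => ⟨dm n, dD n⟩) ?_ ?_
    · intro n hn
      rw [mem_coe, mem_filter, mem_T] at hn
      obtain ⟨h1, h2, h3, h4⟩ := d_spec hn.1.2
      have h5 : nrm n = nrm (dD n) * nrm (dm n) ^ 2 := by
        conv_lhs => rw [h3]
        rw [nrm_mul, pow_two, nrm_mul, pow_two]
      have hm0 : dm n ≠ 0 := by
        intro h0
        rw [h0] at h3
        exact h4 (by rw [h3]; ring)
      have hm1 := nrm_pos' hm0
      have hD1 := nrm_pos' h1.ne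
      have h6 : nrm (dD n) * nrm (dm n) ^ 2 ≤ X := by rw [← h5]; exact hn.1.1
      have h7 : nrm (dD n) ≤ X / nrm (dm n) ^ 2 :=
        (Nat.le_div_iff_mul_le (by positivity)).2 h6
      rw [mem_coe, mem_sigma, mem_filter, mem_sdiff, mem_ZB, mem_ZB, mem_ZB]
      refine ⟨⟨⟨?_, hn.2⟩, ?_⟩, h7⟩
      · calc nrm (dm n) ≤ nrm (dm n) ^ 2 := Nat.le_self_pow (by norm_num) _
          _ ≤ nrm (dD n) * nrm (dm n) ^ 2 := Nat.le_mul_of_pos_left _ hD1
          _ ≤ X := h6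
      · show 1 ≤ X / nrm (dm n) ^ 2
        omega
    · intro n hn n' hn' h
      rw [mem_coe, mem_filter, mem_T] at hn hn'
      obtain ⟨h1, h2, h3, h4⟩ := d_spec hn.1.2
      obtain ⟨k1, k2, k3, k4⟩ := d_spec hn'.1.2
      have e1 : dm n = dm n' := congrArg Sigma.fst h
      have e2 : dD n = dD n' := by
        have := (Sigma.mk.inj_iff.1 h).2
        exact eq_of_heq this
      rw [h3, k3, e1, e2]
  rw [card_sigma] at h1
  have h2 : (((T X).filter fun n => ¬ nrm (dm n) ≤ L).card : ℝ) ≤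
      ∑ m ∈ (ZB X \ ZB L).filter (fun m => 1 ≤ X / nrm m ^ 2), ((ZB (X / nrm m ^ 2)).card : ℝ) := by
    exact_mod_cast h1
  refine h2.trans ?_
  calc ∑ m ∈ (ZB X \ ZB L).filter (fun m => 1 ≤ X / nrm m ^ 2), ((ZB (X / nrm m ^ 2)).card : ℝ)
      ≤ ∑ m ∈ (ZB X \ ZB L).filter (fun m => 1 ≤ X / nrm m ^ 2), 16 * X * (1 / (nrm m : ℝ) ^ 2) := by
        refine sum_le_sum fun m hm => ?_
        rw [mem_filter] at hm
        refine (card_ZB_le hm.2).trans ?_
        have h3 : ((X / nrm m ^ 2 : ℕ) : ℝ) ≤ (X : ℝ) / (nrm m : ℝ) ^ 2 := by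
          have := @Nat.cast_div_le ℝ _ _ _ X (nrm m ^ 2)
          push_cast at this
          exact this
        calc 16 * ((X / nrm m ^ 2 : ℕ) : ℝ) ≤ 16 * ((X : ℝ) / (nrm m : ℝ) ^ 2) := by linarith
          _ = _ := by ring
    _ ≤ ∑ m ∈ ZB X \ ZB L, 16 * X * (1 / (nrm m : ℝ) ^ 2) :=
        sum_le_sum_of_subset_of_nonneg (filter_subset _ _) fun _ _ _ => by positivity
    _ = 16 * X * ∑ m ∈ ZB X \ ZB L, 1 / (nrm m : ℝ) ^ 2 := by rw [mul_sum]
    _ ≤ 16 * X * (64 / L) := mul_le_mul_of_nonneg_left (tail' hL X) (by positivity)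

/-- **QK-LOW** -/
theorem t_LOW : S_LOW := by
  obtain ⟨L, hL⟩ : ∃ L : ℕ, L = 917504 := ⟨_, rfl⟩
  have hL1 : 1 ≤ L := by rw [hL]; norm_num
  have hZ : 0 < (ZB L).card := by
    rw [card_pos]
    exact ⟨1, mem_ZB.2 (by rw [nrm_one]; exact hL1)⟩
  have hZ' : (0 : ℝ) < (ZB L).card := by exact_mod_cast hZ
  refine ⟨1 / (896 * (ZB L).card), 1, by positivity, fun X hX => ?_⟩
  have h1 : (X : ℝ) ≤ 448 * (T X).card := by exact_mod_cast T_lower hX
  have h2 : ((T X).card : ℝ) = (((T X).filter fun n => nrm (dm n) ≤ L).card : ℝ) +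
      (((T X).filter fun n => ¬ nrm (dm n) ≤ L).card : ℝ) := by
    exact_mod_cast (card_filter_add_card_filter_not (s := T X) (fun n => nrm (dm n) ≤ L)).symm
  have h3 : (((T X).filter fun n => nrm (dm n) ≤ L).card : ℝ) ≤
      (ZB L).card * (SS X).card := by exact_mod_cast card_small X L
  have h4 := card_big (X := X) hL1
  have h5 : (16 * X * (64 / L) : ℝ) = X / 896 := by
    rw [hL]
    push_cast
    ring
  rw [h5] at h4
  have h6 : (X : ℝ) ≤ 896 * ((ZB L).card * (SS X).card) := by linarith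
  calc 1 / (896 * ((ZB L).card : ℝ)) * X ≤
      1 / (896 * ((ZB L).card : ℝ)) * (896 * ((ZB L).card * (SS X).card)) :=
        mul_le_mul_of_nonneg_left h6 (by positivity)
    _ = (SS X).card := by
      field_simp

end Pool.Agent.R426.QK.LOW
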