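import Pool.Agent.R426.QK.Hal2
import Pool.Agent.Y495.CX.FEW

/-!
# Project QK: bilinear sums, Mertens' theorem

Adapted from `Pool/Agent/Y363/XK/Bil.lean` and `Pool/Agent/Y433/XK/Gen.lean`.
-/

set_option autoImplicit false
set_option linter.unusedSectionVars false

open scoped Classical
open Finset

namespace Pool.Agent.R426.QK

open Pool.Agent.Y698
open Pool.Agent.Y698.SG hiding PD
open scoped ComplexConjugate
open Pool.Agent.Y495.CX.Few (PN mert)

theorem t_BIL : S_BIL := by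
  obtain ⟨C, hC1, hC⟩ := box
  refine ⟨(2 * C) ^ 24, one_le_pow₀ (by linarith), ?_⟩
  intro P Q A B z c d hP hQ hdis hz hzA hzB hc hd
  have hps : ∀ π : RR, Pq π → PS π := fun π h => ⟨h.prm, h.prime.irreducible.squarefree⟩
  have hPA : P ⊆ SB A := fun x hx => mem_SB.2 ⟨(hP x hx).2, hps x (hP x hx).1⟩
  have hQB : Q ⊆ SB B := fun x hx => mem_SB.2 ⟨(hQ x hx).2, hps x (hQ x hx).1⟩
  have h1 := hC (fun x => if x ∈ P then c x else 0) (fun y => if y ∈ Q then d y else 0)
    (fun x => by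
      show ‖if x ∈ P then c x else 0‖ ≤ 1
      split_ifs
      · exact hc x
      · rw [norm_zero]; exact zero_le_one)
    (fun y => by
      show ‖if y ∈ Q then d y else 0‖ ≤ 1
      split_ifs
      · exact hd y
      · rw [norm_zero]; exact zero_le_one) A B (hz.trans hzA) (hz.trans hzB)
  have e1 : Bil (fun x => if x ∈ P then c x else 0) (fun y => if y ∈ Q then d y else 0) A B =
      ∑ π ∈ P, ∑ ρ ∈ Q, c π * d ρ * ez (cs π ρ) := by
    unfold Bil
    refine (sum_subset hPA fun x _ hx => ?_).symm.trans (sum_congr rfl fun x hx => ?_)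
    · refine sum_eq_zero fun y _ => ?_
      show (if x ∈ P then c x else 0) * (if y ∈ Q then d y else 0) * jac x y = 0
      rw [if_neg hx, zero_mul, zero_mul]
    · refine (sum_subset hQB fun y _ hy => ?_).symm.trans (sum_congr rfl fun y hy => ?_)
      · show (if x ∈ P then c x else 0) * (if y ∈ Q then d y else 0) * jac x y = 0
        rw [if_neg hy, mul_zero, zero_mul]
      · show (if x ∈ P then c x else 0) * (if y ∈ Q then d y else 0) * jac x y = _
        rw [if_pos hx, if_pos hy, jac_prime (hP x hx).1, sy_cs fun hd' => ?_]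
        have he := eq_of_dvd (hP x hx).1 (hQ y hy).1 hd'
        exact (Finset.disjoint_left.1 hdis) hx (he ▸ hy)
  rw [e1] at h1
  have hz0 : (0 : ℝ) < z := by exact_mod_cast hz
  have hzA' : (z : ℝ) ≤ A := by exact_mod_cast hzA
  have hzB' : (z : ℝ) ≤ B := by exact_mod_cast hzB
  have hA0 : (0 : ℝ) < A := lt_of_lt_of_le hz0 hzA'
  have hB0 : (0 : ℝ) < B := lt_of_lt_of_le hz0 hzB'
  have h2 : (A : ℝ) ^ (-(1 / 24) : ℝ) ≤ (z : ℝ) ^ (-(1 / 24) : ℝ) :=
    Real.rpow_le_rpow_of_nonpos hz0 hzA' (by norm_num)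
  have h3 : (B : ℝ) ^ (-(1 / 24) : ℝ) ≤ (z : ℝ) ^ (-(1 / 24) : ℝ) :=
    Real.rpow_le_rpow_of_nonpos hz0 hzB' (by norm_num)
  set q : ℝ := (z : ℝ) ^ (-(1 / 24) : ℝ) with hq
  have hq24 : q ^ 24 * z = 1 := by
    rw [hq, ← Real.rpow_natCast, ← Real.rpow_mul hz0.le]
    norm_num
    rw [Real.rpow_neg_one]
    exact inv_mul_cancel₀ hz0.ne'
  have h4 : ‖∑ π ∈ P, ∑ ρ ∈ Q, c π * d ρ * ez (cs π ρ)‖ ≤ 2 * C * (A * B) * q := by
    refine h1.trans ?_
    have h5 : (A : ℝ) * B * ((A : ℝ) ^ (-(1 / 24) : ℝ) + (B : ℝ) ^ (-(1 / 24) : ℝ)) ≤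
        A * B * (q + q) := by
      apply mul_le_mul_of_nonneg_left (add_le_add h2 h3) (by positivity)
    have h6 := mul_le_mul_of_nonneg_left h5 (by linarith : (0 : ℝ) ≤ C)
    refine h6.trans (le_of_eq ?_)
    ring
  have h5 := pow_le_pow_left₀ (norm_nonneg _) h4 24
  calc ‖∑ π ∈ P, ∑ ρ ∈ Q, c π * d ρ * ez (cs π ρ)‖ ^ 24 * z ≤
      (2 * C * (A * B) * q) ^ 24 * z := mul_le_mul_of_nonneg_right h5 hz0.le
    _ = (2 * C) ^ 24 * ((A : ℝ) * B) ^ 24 * (q ^ 24 * z) := by ring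
    _ = (2 * C) ^ 24 * ((A : ℝ) * B) ^ 24 := by rw [hq24, mul_one]

/-- Mertens' theorem, upper bound -/
theorem t_MERT : S_MERT := by
  obtain ⟨C, hC0, hC⟩ := mert
  refine ⟨2 * C, by positivity, fun N hN => ?_⟩
  have hmaps : ∀ π ∈ QB N, (nrm π).minFac ∈ PN N := by
    intro π hπ
    rw [mem_QB] at hπ
    obtain ⟨h1, -, h3, -⟩ := pq_rat hπ.2
    rw [mem_filter, mem_Icc]
    exact ⟨⟨h1.one_lt.le, h3.trans hπ.1⟩, h1⟩
  rw [← sum_fiberwise_of_maps_to hmaps]
  have h1 : ∀ p ∈ PN N, ∑ π ∈ (QB N).filter (fun π => (nrm π).minFac = p), (1 : ℝ) / nrm π ≤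
      2 * (1 / p) := by
    intro p hp
    have hpp : p.Prime := by
      rw [mem_filter] at hp
      exact hp.2
    have hp0 : (0 : ℝ) < p := by exact_mod_cast hpp.pos
    have h2 : ∀ π ∈ (QB N).filter (fun π => (nrm π).minFac = p), (1 : ℝ) / nrm π ≤ 1 / p := by
      intro π hπ
      rw [mem_filter, mem_QB] at hπ
      obtain ⟨-, -, h3, -⟩ := pq_rat hπ.1.2
      rw [hπ.2] at h3
      exact one_div_le_one_div_of_le hp0 (by exact_mod_cast h3)
    have h3 : ((QB N).filter (fun π => (nrm π).minFac = p)).card ≤ 2 := by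
      refine le_trans (card_le_card ?_) (card_PD_nat hpp)
      intro π hπ
      rw [mem_filter, mem_QB] at hπ
      obtain ⟨-, h4, -, -⟩ := pq_rat hπ.1.2
      rw [hπ.2] at h4
      have hp0' : (p : RR) ≠ 0 := by
        intro h0
        have h1 := nrm_natCast p
        rw [h0] at h1
        have h2 : nrm (0 : RR) = 0 := nrm_zero_iff.2 rfl
        rw [h2] at h1
        have := hpp.pos
        have : 0 < p ^ 2 := by positivity
        omega
      rw [mem_PD hp0']
      exact ⟨hπ.1.2, h4⟩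
    calc ∑ π ∈ (QB N).filter (fun π => (nrm π).minFac = p), (1 : ℝ) / nrm π
        ≤ ∑ π ∈ (QB N).filter (fun π => (nrm π).minFac = p), (1 : ℝ) / p := sum_le_sum h2
      _ = ((QB N).filter (fun π => (nrm π).minFac = p)).card * (1 / (p:ℝ)) := by
          rw [sum_const, nsmul_eq_mul]
      _ ≤ 2 * (1 / p) := by
          refine mul_le_mul_of_nonneg_right ?_ (by positivity)
          exact_mod_cast h3
  refine (sum_le_sum h1).trans ?_
  rw [← mul_sum]
  have := hC N hN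
  linarith

end Pool.Agent.R426.QK
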