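import Pool.Agent.R426.QK.Div

/-!
# Project QK: Box

Adapted from `Y699/E/Box.lean`.
-/

set_option autoImplicit false
set_option linter.unusedSectionVars false

open scoped Classical
open Finset

namespace Pool.Agent.R426.QK

open Pool.Agent.R426.QD (r4 r4_eq r4_a Pn)
open Pool.Agent.Y698
open Pool.Agent.Y698.SG hiding PD
open H667R3 Pool.Agent.W192.HK Pool.Agent.TH936.CM Pool.Agent.TH936.PU
open scoped ComplexConjugate




/-- bilinear form -/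
noncomputable def Bil (α β : RR → ℂ) (M N : ℕ) : ℂ :=
  ∑ x ∈ SB M, ∑ y ∈ SB N, α x * β y * jac x y

lemma exists_phase (z : ℂ) : ∃ θ : ℂ, ‖θ‖ ≤ 1 ∧ θ * z = (‖z‖ : ℂ) := by
  by_cases h : z = 0
  · exact ⟨0, by simp, by simp [h]⟩
  · have h1 : ‖z‖ ≠ 0 := norm_ne_zero_iff.2 h
    refine ⟨conj z / ‖z‖, ?_, ?_⟩
    · rw [norm_div, Complex.norm_conj, Complex.norm_real, norm_norm, div_self h1]
    · have h2 : ((‖z‖ : ℝ) : ℂ) ≠ 0 := by exact_mod_cast h1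
      rw [div_mul_eq_mul_div, div_eq_iff h2, mul_comm (conj z), Complex.mul_conj,
        Complex.normSq_eq_norm_sq]
      push_cast
      ring

/-- the bound for the sixth power of the number of divisors -/
lemma div_six : ∃ C : ℝ, 1 ≤ C ∧ ∀ (N : ℕ) (h : RR), 1 ≤ N → prm h → nrm h ≤ N ^ 6 →
    ((DP h).card : ℝ) ^ 6 ≤ C * (N : ℝ) ^ (1 / 12 : ℝ) := by
  obtain ⟨C1, hC1, hdiv⟩ := div_bound (ε := 1 / 432) (by norm_num)
  refine ⟨C1 ^ 6, one_le_pow₀ hC1, ?_⟩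
  intro N h hN hh hhN
  have hNr : (0 : ℝ) ≤ N := Nat.cast_nonneg N
  have hn0 : (0 : ℝ) ≤ (nrm h : ℝ) := Nat.cast_nonneg _
  have h4 : ((DP h).card : ℝ) ^ 6 ≤ (C1 * (nrm h : ℝ) ^ (1 / 432 : ℝ)) ^ 6 := by
    have := hdiv h hh
    gcongr
  have e : ((nrm h : ℝ) ^ (1 / 432 : ℝ)) ^ 6 = (nrm h : ℝ) ^ (1 / 72 : ℝ) := by
    rw [← Real.rpow_natCast, ← Real.rpow_mul hn0]
    norm_num
  have h6 : (nrm h : ℝ) ^ (1 / 72 : ℝ) ≤ (N : ℝ) ^ (1 / 12 : ℝ) := by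
    have e : (N : ℝ) ^ (1 / 12 : ℝ) = ((N : ℝ) ^ 6) ^ (1 / 72 : ℝ) := by
      rw [← Real.rpow_natCast, ← Real.rpow_mul hNr]
      norm_num
    rw [e]
    apply Real.rpow_le_rpow hn0 _ (by norm_num)
    exact_mod_cast hhN
  rw [mul_pow, e] at h4
  refine h4.trans ?_
  gcongr

lemma SB_sub_PB (N : ℕ) : SB N ⊆ PB N := by
  intro x hx
  rw [mem_SB] at hx
  exact mem_PB.2 ⟨hx.1, hx.2.prm⟩

/-- first case -/
lemma bil_long {α β : RR → ℂ} (hα : ∀ x, ‖α x‖ ≤ 1) (hβ : ∀ x, ‖β x‖ ≤ 1) {M N : ℕ} (hM : 1 ≤ M)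
    (hMN : M ^ 6 ≤ N) : ‖Bil α β M N‖ ^ 2 ≤ 5566464 * (M * N ^ 2) := by
  have hN : 1 ≤ N := (Nat.one_le_pow _ _ hM).trans hMN
  have e1 : Bil α β M N = ∑ y ∈ SB N, β y * ∑ x ∈ SB M, α x * jac x y := by
    unfold Bil
    rw [sum_comm]
    refine sum_congr rfl fun y _ => ?_
    rw [mul_sum]
    refine sum_congr rfl fun x _ => by ring
  have e2 : ‖Bil α β M N‖ ≤ ∑ y ∈ SB N, ‖β y‖ * ‖∑ x ∈ SB M, α x * jac x y‖ := by
    rw [e1]
    refine (norm_sum_le _ _).trans (le_of_eq ?_)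
    exact sum_congr rfl fun y _ => norm_mul _ _
  have h1 := sum_mul_sq_le_sq_mul_sq (SB N) (fun y => ‖β y‖) (fun y => ‖∑ x ∈ SB M, α x * jac x y‖)
  refine (pow_le_pow_left₀ (norm_nonneg _) e2 2).trans (h1.trans ?_)
  have h2 : ∑ y ∈ SB N, ‖β y‖ ^ 2 ≤ 16 * N := by
    have : ∀ y ∈ SB N, ‖β y‖ ^ 2 ≤ 1 := fun y _ => pow_le_one₀ (norm_nonneg _) (hβ y)
    refine (sum_le_sum this).trans ?_
    rw [sum_const, nsmul_eq_mul, mul_one]
    exact card_SB_le hN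
  have h3 : ∑ y ∈ SB N, ‖∑ x ∈ SB M, α x * jac x y‖ ^ 2 ≤ 347904 * (M * N) :=
    (sum_le_sum_of_subset_of_nonneg (SB_sub_PB N) (fun _ _ _ => sq_nonneg _)).trans
      (mean_sq hα hM hMN)
  have h4 : (0 : ℝ) ≤ ∑ y ∈ SB N, ‖∑ x ∈ SB M, α x * jac x y‖ ^ 2 :=
    sum_nonneg fun _ _ => sq_nonneg _
  calc (∑ y ∈ SB N, ‖β y‖ ^ 2) * ∑ y ∈ SB N, ‖∑ x ∈ SB M, α x * jac x y‖ ^ 2
      ≤ (16 * N) * (347904 * (M * N)) := mul_le_mul h2 h3 h4 (by positivity)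
    _ = 5566464 * (M * N ^ 2) := by ring

lemma jac_prod_fin {x : RR} (hx : x ≠ 0) (p : Fin 6 → RR) : jac x (∏ i, p i) = ∏ i, jac x (p i) :=
  jac_prod hx univ p

lemma nrm_prod {ι : Type*} (s : Finset ι) (p : ι → RR) : nrm (∏ i ∈ s, p i) = ∏ i ∈ s, nrm (p i) := by
  classical
  induction s using Finset.induction_on with
  | empty => rw [prod_empty, prod_empty, nrm_one]
  | insert a s ha ih => rw [prod_insert ha, prod_insert ha, nrm_mul, ih]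

/-- second case -/
lemma bil_short : ∃ C : ℝ, 1 ≤ C ∧ ∀ (α β : RR → ℂ), (∀ x, ‖α x‖ ≤ 1) → (∀ x, ‖β x‖ ≤ 1) →
    ∀ M N : ℕ, 1 ≤ M → M ≤ N →
    ‖Bil α β M N‖ ^ 12 ≤ C * ((M : ℝ) ^ 11 * (N : ℝ) ^ 12 * (N : ℝ) ^ (1 / 12 : ℝ)) := by
  obtain ⟨R, hR1, hR⟩ := div_six
  refine ⟨16 ^ 16 * 347904 * R, by nlinarith, ?_⟩
  intro α β hα hβ M N hM hMN
  have hN : 1 ≤ N := hM.trans hMN
  have hMr : (0 : ℝ) ≤ M := Nat.cast_nonneg M
  have hNr : (0 : ℝ) ≤ N := Nat.cast_nonneg N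
  set A : RR → ℂ := fun x => ∑ y ∈ SB N, β y * jac x y with hA
  have hS : ‖Bil α β M N‖ ≤ ∑ x ∈ SB M, ‖A x‖ := by
    have e1 : Bil α β M N = ∑ x ∈ SB M, α x * A x := by
      unfold Bil
      refine sum_congr rfl fun x _ => ?_
      rw [hA, mul_sum]
      refine sum_congr rfl fun y _ => by ring
    rw [e1]
    refine (norm_sum_le _ _).trans (sum_le_sum fun x _ => ?_)
    rw [norm_mul]
    exact mul_le_of_le_one_left (norm_nonneg _) (hα x)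
  set W : ℝ := ∑ x ∈ SB M, ‖A x‖ ^ 6 with hW
  have hW0 : 0 ≤ W := sum_nonneg fun x _ => by positivity
  have hS6 : ‖Bil α β M N‖ ^ 6 ≤ (16 * M) ^ 5 * W := by
    have h1 : ‖Bil α β M N‖ ^ 6 ≤ (∑ x ∈ SB M, ‖A x‖) ^ 6 := pow_le_pow_left₀ (norm_nonneg _) hS 6
    have h3 : (∑ x ∈ SB M, ‖A x‖) ^ 6 ≤ ((SB M).card : ℝ) ^ 5 * ∑ x ∈ SB M, ‖A x‖ ^ 6 := by
      have hc := pow_sum_div_card_le_sum_pow (s := SB M) (f := fun x => ‖A x‖) (n := 5) (fun x _ => norm_nonneg _)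
      by_cases hcard : (SB M).card = 0
      · rw [Finset.card_eq_zero] at hcard
        rw [hcard]
        simp
      · have hcp : (0 : ℝ) < ((SB M).card : ℝ) ^ 5 := by positivity
        rw [div_le_iff₀ hcp] at hc
        rw [mul_comm]
        exact hc
    refine h1.trans (h3.trans ?_)
    have h5 := card_SB_le hM
    exact mul_le_mul_of_nonneg_right (pow_le_pow_left₀ (Nat.cast_nonneg _) h5 5) hW0
  -- expansion of the sixth power
  set P := Fintype.piFinset (fun _ : Fin 6 => SB N) with hP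
  choose θ hθ1 hθ2 using fun x => exists_phase (A x ^ 6)
  set G : RR → ℂ := fun h => ∑ x ∈ SB M, θ x * jac x h with hG
  have hWexp : (W : ℂ) = ∑ p ∈ P, (∏ i, β (p i)) * G (∏ i, p i) := by
    have h1 : ∀ x ∈ SB M, ((‖A x‖ ^ 6 : ℝ) : ℂ) = ∑ p ∈ P, (∏ i, β (p i)) * (θ x * jac x (∏ i, p i)) := by
      intro x hx
      have hx0 := (mem_SB.1 hx).2.ne
      have h2 : (A x) ^ 6 = ∏ _i : Fin 6, ∑ y ∈ SB N, β y * jac x y := by
        rw [prod_const, card_univ, Fintype.card_fin]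
      rw [← norm_pow, ← hθ2 x, h2, prod_univ_sum, mul_sum]
      refine sum_congr rfl fun p _ => ?_
      rw [prod_mul_distrib, jac_prod_fin hx0]
      ring
    rw [hW, Complex.ofReal_sum, sum_congr rfl h1, sum_comm]
    refine sum_congr rfl fun p _ => ?_
    rw [hG, mul_sum]
  have hPmem : ∀ p ∈ P, (∏ i, p i) ∈ PB (N ^ 6) := by
    intro p hp
    rw [hP, Fintype.mem_piFinset] at hp
    rw [mem_PB]
    constructor
    · rw [nrm_prod]
      refine (prod_le_prod' fun i _ => (mem_SB.1 (hp i)).1).trans ?_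
      rw [prod_const, card_univ, Fintype.card_fin]
    · exact prod_induction _ prm (fun a b => prm_mul) prm_one fun i _ => (mem_SB.1 (hp i)).2.prm
  have hcardP : (P.card : ℝ) ≤ (16 * N) ^ 6 := by
    rw [hP, Fintype.card_piFinset, prod_const, card_univ, Fintype.card_fin]
    push_cast
    have h5 := card_SB_le hN
    exact pow_le_pow_left₀ (Nat.cast_nonneg _) h5 6
  have hN6 : 1 ≤ N ^ 6 := Nat.one_le_pow _ _ hN
  have hmean := mean_sq hθ1 hM (Nat.pow_le_pow_left hMN 6)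
  have hG2 : ∑ p ∈ P, ‖G (∏ i, p i)‖ ^ 2 ≤ R * (N : ℝ) ^ (1 / 12 : ℝ) * (347904 * (M * (N : ℝ) ^ 6)) := by
    classical
    rw [← sum_fiberwise_of_maps_to hPmem]
    have h1 : ∀ h ∈ PB (N ^ 6), ∑ p ∈ P.filter (fun p => ∏ i, p i = h), ‖G (∏ i, p i)‖ ^ 2 ≤
        R * (N : ℝ) ^ (1 / 12 : ℝ) * ‖G h‖ ^ 2 := by
      intro h hh
      have hh0 : h ≠ 0 := prm_ne_zero (mem_PB.1 hh).2
      have h2 : ∑ p ∈ P.filter (fun p => ∏ i, p i = h), ‖G (∏ i, p i)‖ ^ 2 =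
          ((P.filter (fun p => ∏ i, p i = h)).card : ℝ) * ‖G h‖ ^ 2 := by
        rw [← nsmul_eq_mul, ← sum_const]
        refine sum_congr rfl fun p hp => ?_
        rw [(mem_filter.1 hp).2]
      rw [h2]
      have h3 : (P.filter (fun p => ∏ i, p i = h)).card ≤ (DP h).card ^ 6 := by
        have h4 : P.filter (fun p => ∏ i, p i = h) ⊆ Fintype.piFinset (fun _ : Fin 6 => DP h) := by
          intro p hp
          rw [Fintype.mem_piFinset]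
          intro i
          have hp1 := (mem_filter.1 hp).1
          rw [hP, Fintype.mem_piFinset] at hp1
          rw [mem_DP hh0]
          refine ⟨(mem_SB.1 (hp1 i)).2.prm, ?_⟩
          rw [← (mem_filter.1 hp).2]
          exact dvd_prod_of_mem _ (mem_univ i)
        refine (card_le_card h4).trans ?_
        rw [Fintype.card_piFinset, prod_const, card_univ, Fintype.card_fin]
      have h5 : ((P.filter (fun p => ∏ i, p i = h)).card : ℝ) ≤ R * (N : ℝ) ^ (1 / 12 : ℝ) := by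
        refine le_trans ?_ (hR N h hN (mem_PB.1 hh).2 (mem_PB.1 hh).1)
        exact_mod_cast h3
      exact mul_le_mul_of_nonneg_right h5 (sq_nonneg _)
    refine (sum_le_sum h1).trans ?_
    rw [← mul_sum]
    have h6 : ∑ h ∈ PB (N ^ 6), ‖G h‖ ^ 2 ≤ 347904 * (M * (N : ℝ) ^ 6) := by
      refine hmean.trans (le_of_eq ?_)
      push_cast
      ring
    exact mul_le_mul_of_nonneg_left h6 (by positivity)
  have hW2 : W ^ 2 ≤ (16 * N) ^ 6 * (R * (N : ℝ) ^ (1 / 12 : ℝ) * (347904 * (M * (N : ℝ) ^ 6))) := by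
    have h1 : W ≤ ∑ p ∈ P, ‖G (∏ i, p i)‖ := by
      have h0 : W ≤ ‖(W : ℂ)‖ := by
        rw [Complex.norm_real]
        exact le_abs_self _
      refine h0.trans ?_
      rw [hWexp]
      refine (norm_sum_le _ _).trans (sum_le_sum fun p _ => ?_)
      rw [norm_mul]
      refine mul_le_of_le_one_left (norm_nonneg _) ?_
      rw [norm_prod]
      exact prod_le_one (fun i _ => norm_nonneg _) (fun i _ => hβ _)
    have h2 : W ^ 2 ≤ (∑ p ∈ P, ‖G (∏ i, p i)‖) ^ 2 := pow_le_pow_left₀ hW0 h1 2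
    refine h2.trans ?_
    refine (sq_sum_le_card_mul_sum_sq).trans ?_
    have h4 : (0 : ℝ) ≤ ∑ p ∈ P, ‖G (∏ i, p i)‖ ^ 2 := sum_nonneg fun _ _ => sq_nonneg _
    exact mul_le_mul hcardP hG2 h4 (by positivity)
  have h12 : ‖Bil α β M N‖ ^ 12 = (‖Bil α β M N‖ ^ 6) ^ 2 := by
    rw [← pow_mul]
  rw [h12]
  clear_value W G P A
  clear hWexp hG2 hPmem h12 hcardP
  generalize (N : ℝ) ^ (1 / 12 : ℝ) = r at hW2 ⊢
  have s1 : (‖Bil α β M N‖ ^ 6) ^ 2 ≤ ((16 * M) ^ 5 * W) ^ 2 :=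
    pow_le_pow_left₀ (by positivity) hS6 2
  have s2 : (16 * (M : ℝ)) ^ 10 * W ^ 2 ≤
      (16 * M) ^ 10 * ((16 * N) ^ 6 * (R * r * (347904 * (M * (N : ℝ) ^ 6)))) :=
    mul_le_mul_of_nonneg_left hW2 (by positivity)
  calc (‖Bil α β M N‖ ^ 6) ^ 2 ≤ ((16 * M) ^ 5 * W) ^ 2 := s1
    _ = (16 * M) ^ 10 * W ^ 2 := by ring
    _ ≤ (16 * M) ^ 10 * ((16 * N) ^ 6 * (R * r * (347904 * (M * (N : ℝ) ^ 6)))) := s2
    _ = 16 ^ 16 * 347904 * R * ((M : ℝ) ^ 11 * (N : ℝ) ^ 12 * r) := by ring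

/-- **bilinear estimate** -/
theorem box1 : ∃ C : ℝ, 1 ≤ C ∧ ∀ (α β : RR → ℂ), (∀ x, ‖α x‖ ≤ 1) → (∀ x, ‖β x‖ ≤ 1) →
    ∀ M N : ℕ, 1 ≤ M → M ≤ N → ‖Bil α β M N‖ ≤ C * (M * N * (M : ℝ) ^ (-(1 / 24) : ℝ)) := by
  obtain ⟨C, hC1, hC⟩ := bil_short
  refine ⟨C + 5566464, by linarith, ?_⟩
  intro α β hα hβ M N hM hMN
  have hN : 1 ≤ N := hM.trans hMN
  have hMr : (1 : ℝ) ≤ M := by exact_mod_cast hM
  have hNr : (1 : ℝ) ≤ N := by exact_mod_cast hN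
  have hM0 : (0 : ℝ) < M := by linarith
  have hN0 : (0 : ℝ) < N := by linarith
  set K : ℝ := C + 5566464 with hK
  have hK1 : 1 ≤ K := by rw [hK]; linarith
  set m : ℝ := (M : ℝ) ^ (-(1 / 24) : ℝ) with hm
  have hm0 : 0 < m := Real.rpow_pos_of_pos hM0 _
  have hm12 : m ^ 12 = (M : ℝ) ^ (-(1 / 2) : ℝ) := by
    rw [hm, ← Real.rpow_natCast, ← Real.rpow_mul hM0.le]
    norm_num
  by_cases h6 : M ^ 6 ≤ N
  · have h1 := bil_long hα hβ hM h6
    have hm2 : (M : ℝ) ^ (-(1 / 2) : ℝ) ≤ m := by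
      rw [hm]
      exact Real.rpow_le_rpow_of_exponent_le hMr (by norm_num)
    have h2 : ‖Bil α β M N‖ ≤ K * (M * N * (M : ℝ) ^ (-(1 / 2) : ℝ)) := by
      refine (pow_le_pow_iff_left₀ (norm_nonneg _) (by positivity) (two_ne_zero)).1 ?_
      have e2 : ((M : ℝ) ^ (-(1 / 2) : ℝ)) ^ 2 * M = 1 := by
        rw [← Real.rpow_natCast, ← Real.rpow_mul hM0.le]
        have : (-(1 / 2) : ℝ) * ((2 : ℕ) : ℝ) = -1 := by norm_num
        rw [this, Real.rpow_neg_one]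
        field_simp
      have e3 : (K * (M * N * (M : ℝ) ^ (-(1 / 2) : ℝ))) ^ 2 = K ^ 2 * (M * N ^ 2) := by
        have : (K * (M * N * (M : ℝ) ^ (-(1 / 2) : ℝ))) ^ 2 =
          K ^ 2 * (M * N ^ 2) * (((M : ℝ) ^ (-(1 / 2) : ℝ)) ^ 2 * M) := by ring
        rw [this, e2, mul_one]
      rw [e3]
      refine h1.trans ?_
      have h3 : (5566464 : ℝ) ≤ K ^ 2 := by
        have : 5566464 ≤ K := by rw [hK]; linarith
        nlinarith
      gcongr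
    refine h2.trans ?_
    gcongr
  · push Not at h6
    have h1 := hC α β hα hβ M N hM hMN
    have h2 : (N : ℝ) ^ (1 / 12 : ℝ) ≤ (M : ℝ) ^ (1 / 2 : ℝ) := by
      have e : (M : ℝ) ^ (1 / 2 : ℝ) = ((M : ℝ) ^ 6) ^ (1 / 12 : ℝ) := by
        rw [← Real.rpow_natCast, ← Real.rpow_mul hM0.le]
        norm_num
      rw [e]
      apply Real.rpow_le_rpow hN0.le _ (by norm_num)
      exact_mod_cast h6.le
    have h3 : (M : ℝ) ^ 11 * (N : ℝ) ^ 12 * (M : ℝ) ^ (1 / 2 : ℝ) = (M * N * m) ^ 12 := by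
      rw [mul_pow, mul_pow, hm12]
      have : (M : ℝ) ^ (1 / 2 : ℝ) = M * (M : ℝ) ^ (-(1 / 2) : ℝ) := by
        have e := Real.rpow_add hM0 1 (-(1 / 2))
        rw [Real.rpow_one] at e
        rw [← e]
        norm_num
      rw [this]
      ring
    have h4 : ‖Bil α β M N‖ ^ 12 ≤ (K * (M * N * m)) ^ 12 := by
      refine h1.trans ?_
      rw [mul_pow K, ← h3]
      have h5 : C ≤ K ^ 12 := by
        have : C ≤ K := by rw [hK]; linarith
        exact this.trans (le_self_pow₀ hK1 (by norm_num))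
      gcongr
    exact (pow_le_pow_iff_left₀ (norm_nonneg _) (by positivity) (by norm_num)).1 h4

theorem bil_symm (α β : RR → ℂ) (M N : ℕ) : Bil α β M N =
    (Bil β α N M + Bil β (fun x => α x * kp x) N M + Bil (fun x => β x * kp x) α N M -
      Bil (fun x => β x * kp x) (fun x => α x * kp x) N M) / 2 := by
  unfold Bil
  rw [← sum_add_distrib, ← sum_add_distrib, ← sum_sub_distrib, sum_div, sum_comm]
  refine sum_congr rfl fun y hy => ?_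
  rw [← sum_add_distrib, ← sum_add_distrib, ← sum_sub_distrib, sum_div]
  refine sum_congr rfl fun x hx => ?_
  have h1 := (mem_SB.1 hx).2
  have h2 := (mem_SB.1 hy).2
  rw [jac_rec h1 h2, ez_tt x y h1.prm h2.prm]
  ring

/-- **bilinear estimate over boxes** -/
theorem box : ∃ C : ℝ, 1 ≤ C ∧ ∀ (α β : RR → ℂ), (∀ x, ‖α x‖ ≤ 1) → (∀ x, ‖β x‖ ≤ 1) →
    ∀ M N : ℕ, 1 ≤ M → 1 ≤ N →
      ‖Bil α β M N‖ ≤ C * (M * N * ((M : ℝ) ^ (-(1 / 24) : ℝ) + (N : ℝ) ^ (-(1 / 24) : ℝ))) := by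
  obtain ⟨C, hC1, hC⟩ := box1
  refine ⟨2 * C, by linarith, ?_⟩
  intro α β hα hβ M N hM hN
  have hMr : (1 : ℝ) ≤ M := by exact_mod_cast hM
  have hNr : (1 : ℝ) ≤ N := by exact_mod_cast hN
  have m0 : (0 : ℝ) ≤ (M : ℝ) ^ (-(1 / 24) : ℝ) := by positivity
  have n0 : (0 : ℝ) ≤ (N : ℝ) ^ (-(1 / 24) : ℝ) := by positivity
  have hMN : (0 : ℝ) ≤ M * N := by positivity
  rcases le_total M N with h | h
  · refine (hC α β hα hβ M N hM h).trans ?_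
    have h1 : (M : ℝ) * N * (M : ℝ) ^ (-(1 / 24) : ℝ) ≤
        M * N * ((M : ℝ) ^ (-(1 / 24) : ℝ) + (N : ℝ) ^ (-(1 / 24) : ℝ)) :=
      mul_le_mul_of_nonneg_left (by linarith) hMN
    have h2 : (0 : ℝ) ≤ M * N * ((M : ℝ) ^ (-(1 / 24) : ℝ) + (N : ℝ) ^ (-(1 / 24) : ℝ)) := by
      positivity
    nlinarith
  · have hk : ∀ f : RR → ℂ, (∀ x, ‖f x‖ ≤ 1) → ∀ x, ‖f x * kp x‖ ≤ 1 := by
      intro f hf x
      rw [norm_mul]
      exact mul_le_one₀ (hf x) (norm_nonneg _) (kp_V3 x).norm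
    have hb : ∀ f g : RR → ℂ, (∀ x, ‖f x‖ ≤ 1) → (∀ x, ‖g x‖ ≤ 1) → ‖Bil g f N M‖ ≤
        C * (M * N * ((M : ℝ) ^ (-(1 / 24) : ℝ) + (N : ℝ) ^ (-(1 / 24) : ℝ))) := by
      intro f g hf hg
      refine (hC g f hg hf N M hN h).trans ?_
      have h1 : (N : ℝ) * M * (N : ℝ) ^ (-(1 / 24) : ℝ) ≤
          M * N * ((M : ℝ) ^ (-(1 / 24) : ℝ) + (N : ℝ) ^ (-(1 / 24) : ℝ)) := by
        rw [mul_comm (N : ℝ) M]
        exact mul_le_mul_of_nonneg_left (by linarith) hMN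
      exact mul_le_mul_of_nonneg_left h1 (by linarith)
    rw [bil_symm]
    have b1 := hb α β hα hβ
    have b2 := hb _ β (hk α hα) hβ
    have b3 := hb α _ hα (hk β hβ)
    have b4 := hb _ _ (hk α hα) (hk β hβ)
    rw [norm_div]
    have h2 : ‖(2 : ℂ)‖ = 2 := by norm_num
    rw [h2, div_le_iff₀ (by norm_num)]
    refine (norm_sub_le _ _).trans ?_
    have h3 := norm_add_le (Bil β α N M + Bil β (fun x => α x * kp x) N M)
      (Bil (fun x => β x * kp x) α N M)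
    have h4 := norm_add_le (Bil β α N M) (Bil β (fun x => α x * kp x) N M)
    linarith

end Pool.Agent.R426.QK
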