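import Pool.Agent.R426.QD.Cf

/-!
# Primary primes of `ℤ[(1 + √-7) / 2]`

Adapted from `Pool/Agent/Y699/E/Pd.lean` (helper699).
-/

set_option autoImplicit false
set_option linter.unusedSectionVars false

open Finset

namespace Pool.Agent.R426.QK

open Pool.Agent.R426.QD (r4 r4_eq r4_a Pn recG tp et)
open Pool.Agent.Y698 Pool.Agent.Y698.SG
open H667R3 Pool.Agent.W192.HK Pool.Agent.TH936.CM Pool.Agent.TH936.PU

/-- the norm as a natural number -/
noncomputable def nrm (a : RR) : ℕ := (nR a).natAbs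

lemma nrm_cast (a : RR) : (nrm a : ℤ) = nR a := Int.natAbs_of_nonneg (nR_nonneg a)

lemma nrm_eq' (a : RR) : (nrm a : ℤ) = cX a ^ 2 + cX a * cY a + 2 * cY a ^ 2 := nrm_cast a

lemma nrm_mul (a b : RR) : nrm (a * b) = nrm a * nrm b := by
  unfold nrm
  rw [nR_mul, Int.natAbs_mul]

lemma nrm_zero_iff {a : RR} : nrm a = 0 ↔ a = 0 := by
  unfold nrm
  rw [Int.natAbs_eq_zero]
  exact nR_eq_zero

lemma nrm_ne {a : RR} (h : a ≠ 0) : nrm a ≠ 0 := fun h' => h (nrm_zero_iff.1 h')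

lemma nrm_pos' {x : RR} (h : x ≠ 0) : 0 < nrm x := Nat.pos_of_ne_zero (nrm_ne h)

lemma nrm_one : nrm 1 = 1 := by
  unfold nrm nR
  rw [cXY_one.1, cXY_one.2]
  norm_num

lemma dvd_nrm (q : RR) : q ∣ ((nrm q : ℕ) : RR) := by
  refine ⟨cj q, ?_⟩
  rw [mul_cj, ← nrm_cast]
  simp

lemma nrm_one_iff {a : RR} : nrm a = 1 ↔ IsUnit a := by
  constructor
  · intro h
    have h1 := dvd_nrm a
    rw [h, Nat.cast_one] at h1
    exact isUnit_of_dvd_one h1
  · intro h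
    rcases isUnit_iff.1 h with rfl | rfl
    · exact nrm_one
    · unfold nrm nR
      rw [(cXY_neg 1).1, (cXY_neg 1).2, cXY_one.1, cXY_one.2]
      norm_num

lemma two_eq : (2 : RR) = aR * cj aR := by
  rw [mul_cj]
  have : nR aR = 2 := by
    unfold nR
    rw [cXY_aR.1, cXY_aR.2]
    norm_num
  rw [this]
  norm_num

lemma prime_aR : Prime aR := by
  have h : nR aR = ((2 : ℕ) : ℤ) := by
    unfold nR
    rw [cXY_aR.1, cXY_aR.2]
    norm_num
  rw [← irreducible_iff_prime]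
  refine ⟨fun hu => ?_, fun x y hxy => ?_⟩
  · have := nrm_one_iff.2 hu
    unfold nrm at this
    rw [h] at this
    norm_num at this
  · have h1 : nrm x * nrm y = 2 := by
      rw [← nrm_mul, ← hxy]
      unfold nrm
      rw [h]
      rfl
    rcases (Nat.dvd_prime Nat.prime_two).1 (Dvd.intro _ h1) with h2 | h2
    · exact Or.inl (nrm_one_iff.1 h2)
    · right
      apply nrm_one_iff.1
      rw [h2] at h1
      omega

lemma prime_cjaR : Prime (cj aR) := QD.pr_cj prime_aR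

lemma prime_fR : Prime fR := QC.prime_fR

/-- primary elements -/
structure prm (a : RR) : Prop where
  r4 : r4 a = 1
  cop2 : ¬ cj aR ∣ a
  cop7 : ¬ fR ∣ a

lemma prm_one : prm 1 := ⟨map_one _, fun h => prime_cjaR.not_isUnit (isUnit_of_dvd_one h),
  fun h => prime_fR.not_isUnit (isUnit_of_dvd_one h)⟩

lemma prm_mul {a b : RR} (ha : prm a) (hb : prm b) : prm (a * b) :=
  ⟨by rw [map_mul, ha.r4, hb.r4, mul_one],
    fun h => (prime_cjaR.dvd_or_dvd h).elim ha.cop2 hb.cop2,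
    fun h => (prime_fR.dvd_or_dvd h).elim ha.cop7 hb.cop7⟩

lemma prm_cancel {a b : RR} (ha : prm a) (h : prm (a * b)) : prm b :=
  ⟨by have := h.r4; rwa [map_mul, ha.r4, one_mul] at this,
    fun h1 => h.cop2 (h1.mul_left _), fun h1 => h.cop7 (h1.mul_left _)⟩

lemma prm_ne_zero {a : RR} (h : prm a) : a ≠ 0 := by
  rintro rfl
  exact h.cop2 (dvd_zero _)

lemma eq_one_of_prm {u : RR} (h : prm u) (hu : IsUnit u) : u = 1 := by
  rcases isUnit_iff.1 hu with rfl | rfl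
  · rfl
  · have := h.r4
    rw [map_neg, map_one] at this
    revert this
    decide

/-- primary primes -/
structure Pq (π : RR) : Prop where
  prime : Prime π
  prm : prm π

lemma pq_ne {π : RR} (h : Pq π) : π ≠ 0 := h.prime.ne_zero

lemma pq_prm {π : RR} (h : Pq π) : prm π := h.prm

lemma not_aR {a : RR} (h : prm a) : ¬ aR ∣ a := by
  rintro ⟨c, rfl⟩
  have h1 := h.r4
  rw [map_mul, r4_a] at h1
  have h2 : ∀ t : ZMod 4, 2 * t ≠ 1 := by decide
  exact h2 _ h1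

lemma Pq.od {π : RR} (h : Pq π) : ¬ π ∣ 2 := by
  intro h1
  rw [two_eq] at h1
  rcases h.prime.dvd_or_dvd h1 with h2 | h2
  · exact not_aR h.prm (h.prime.associated_of_dvd prime_aR h2).symm.dvd
  · exact h.prm.cop2 (h.prime.associated_of_dvd prime_cjaR h2).symm.dvd

lemma Pq.pn {π : RR} (h : Pq π) : Pn π := ⟨h.prime, h.od, h.prm.r4⟩

lemma eq_of_dvd {π ρ : RR} (h : Pq π) (h' : Pq ρ) (hd : π ∣ ρ) : π = ρ := by
  obtain ⟨c, hc⟩ := hd
  have hcu : IsUnit c := by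
    rcases h'.prime.irreducible.isUnit_or_isUnit hc with h1 | h1
    · exact absurd h1 h.prime.not_isUnit
    · exact h1
  have hcp : prm c := prm_cancel h.prm (by rw [← hc]; exact h'.prm)
  rw [hc, eq_one_of_prm hcp hcu, mul_one]

lemma pq_cop {π ρ : RR} (h : Pq π) (h' : Pq ρ) (hne : π ≠ ρ) : IsCoprime π ρ :=
  (h.prime.irreducible.coprime_iff_not_dvd).2 fun hd => hne (eq_of_dvd h h' hd)

lemma mem_box {N : ℕ} {a : RR} (h : nrm a ≤ N) : (-(2 * N : ℤ) ≤ cX a ∧ cX a ≤ 2 * N) ∧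
    (-(2 * N : ℤ) ≤ cY a ∧ cY a ≤ 2 * N) := by
  have h2 := nrm_eq' a
  have h3 : cX a ^ 2 + cX a * cY a + 2 * cY a ^ 2 ≤ N := by rw [← h2]; exact_mod_cast h
  have h4 : ∀ x : ℤ, x ^ 2 ≤ 2 * N → -(2 * N : ℤ) ≤ x ∧ x ≤ 2 * N := by
    intro x hx
    constructor
    · nlinarith [sq_nonneg (x + 1), sq_nonneg x]
    · nlinarith [sq_nonneg (x - 1)]
  exact ⟨h4 _ (by nlinarith [sq_nonneg (4 * cY a + cX a), sq_nonneg (cX a)]),
    h4 _ (by nlinarith [sq_nonneg (2 * cX a + cY a), sq_nonneg (cY a)])⟩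

/-- the element with given coordinates -/
noncomputable def mk (p : ℤ × ℤ) : RR := (p.1 : RR) + (p.2 : RR) * aR

lemma cXY_mk (p : ℤ × ℤ) : cX (mk p) = p.1 ∧ cY (mk p) = p.2 := by
  unfold mk
  rw [(cXY_add _ _).1, (cXY_add _ _).2, (cXY_mul _ _).1, (cXY_mul _ _).2, (cXY_int _).1,
    (cXY_int _).2, (cXY_int _).1, (cXY_int _).2, cXY_aR.1, cXY_aR.2]
  constructor <;> ring

lemma mk_co (a : RR) : mk (cX a, cY a) = a := RR_ext (cXY_mk _).1 (cXY_mk _).2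

lemma mk_inj : Function.Injective mk := by
  intro p q h
  have h1 := cXY_mk p
  rw [h, (cXY_mk q).1, (cXY_mk q).2] at h1
  exact Prod.ext h1.1.symm h1.2.symm

/-- finitely many elements of bounded norm -/
lemma fin_norm_le (N : ℕ) : {a : RR | nrm a ≤ N}.Finite := by
  have h : {a : RR | nrm a ≤ N} ⊆
      mk '' ((Set.Icc (-(2 * N : ℤ)) (2 * N)) ×ˢ (Set.Icc (-(2 * N : ℤ)) (2 * N))) := by
    intro a ha
    obtain ⟨h1, h2⟩ := mem_box ha
    exact ⟨(cX a, cY a), ⟨h1, h2⟩, mk_co a⟩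
  exact (((Set.finite_Icc _ _).prod (Set.finite_Icc _ _)).image _).subset h

lemma norm_le_of_dvd {a n : RR} (hn : n ≠ 0) (h : a ∣ n) : nrm a ≤ nrm n := by
  obtain ⟨c, rfl⟩ := h
  have hc : c ≠ 0 := right_ne_zero_of_mul hn
  rw [nrm_mul]
  exact Nat.le_mul_of_pos_right _ (nrm_pos' hc)

lemma fin_pd {n : RR} (hn : n ≠ 0) : {π : RR | Pq π ∧ π ∣ n}.Finite :=
  (fin_norm_le (nrm n)).subset fun _ h => norm_le_of_dvd hn h.2

open Classical in
/-- the primary primes dividing `n` -/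
noncomputable def PD (n : RR) : Finset RR := if h : n ≠ 0 then (fin_pd h).toFinset else ∅

lemma mem_PD {n π : RR} (hn : n ≠ 0) : π ∈ PD n ↔ Pq π ∧ π ∣ n := by
  unfold PD
  rw [dif_pos hn, Set.Finite.mem_toFinset]
  rfl

/-- primary and squarefree -/
structure PS (n : RR) : Prop where
  prm : prm n
  sqf : Squarefree n

lemma PS.ne {n : RR} (h : PS n) : n ≠ 0 := prm_ne_zero h.prm

lemma PS_one : PS (1 : RR) := ⟨prm_one, squarefree_one⟩

lemma r4_zero' {x : RR} (h : r4 x = 0) : aR ∣ x := by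
  rw [r4_eq, ZMod.intCast_zmod_eq_zero_iff_dvd] at h
  rw [QC.mem_a]
  omega

lemma r4_unit' {x : RR} (h : ¬ aR ∣ x) : r4 x = 1 ∨ r4 x = 3 := by
  have h1 : r4 x ≠ 0 := fun h0 => h (r4_zero' h0)
  have h2 : r4 x ≠ 2 := by
    intro h0
    have h3 : r4 (x - aR) = 0 := by rw [map_sub, h0, r4_a, sub_self]
    apply h
    have h4 := r4_zero' h3
    have e1 : x = (x - aR) + aR := by ring
    rw [e1]
    exact dvd_add h4 dvd_rfl
  revert h1 h2
  generalize r4 x = t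
  revert t
  decide

/-- the associated element with a given residue -/
lemma exists_PP {ρ : RR} (hρ : Prime ρ) (ha : ¬ aR ∣ ρ) (hc : ¬ cj aR ∣ ρ) (hf : ¬ fR ∣ ρ) :
    ∃ π, Pq π ∧ Associated π ρ := by
  rcases r4_unit' ha with h1 | h1
  · exact ⟨ρ, ⟨hρ, h1, hc, hf⟩, Associated.refl ρ⟩
  · refine ⟨-ρ, ⟨hρ.neg, ?_, fun h => hc ((dvd_neg).1 h), fun h => hf ((dvd_neg).1 h)⟩,
      Associated.neg_left (Associated.refl ρ)⟩
    rw [map_neg, h1]
    decide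

lemma not_dvd_of_prm {ρ n : RR} (h : ρ ∣ n) (hn : prm n) :
    ¬ aR ∣ ρ ∧ ¬ cj aR ∣ ρ ∧ ¬ fR ∣ ρ :=
  ⟨fun h1 => not_aR hn (h1.trans h), fun h1 => hn.cop2 (h1.trans h), fun h1 => hn.cop7 (h1.trans h)⟩

lemma prm_prod {S : Finset RR} (hS : ∀ π ∈ S, prm π) : prm (∏ π ∈ S, π) :=
  Finset.prod_induction _ prm (fun _ _ => prm_mul) prm_one hS

lemma PS.prod {n : RR} (h : PS n) : ∏ π ∈ PD n, π = n := by
  have hn := h.ne
  have h1 : (∏ π ∈ PD n, π) ∣ n := by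
    refine Finset.prod_dvd_of_coprime ?_ ?_
    · intro π hπ ρ hρ hne
      exact pq_cop ((mem_PD hn).1 hπ).1 ((mem_PD hn).1 hρ).1 hne
    · intro π hπ
      exact ((mem_PD hn).1 hπ).2
  obtain ⟨u, hu⟩ := h1
  have hP : QK.prm (∏ π ∈ PD n, π) := prm_prod fun π hπ => ((mem_PD hn).1 hπ).1.prm
  have hup : QK.prm u := prm_cancel hP (by rw [← hu]; exact h.prm)
  have huu : IsUnit u := by
    by_contra hnu
    obtain ⟨ρ, hρ, hρu⟩ := WfDvdMonoid.exists_irreducible_factor hnu (prm_ne_zero hup)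
    have hρ' : Prime ρ := irreducible_iff_prime.1 hρ
    have h2 : ρ ∣ n := by rw [hu]; exact hρu.mul_left _
    obtain ⟨k1, k2, k3⟩ := not_dvd_of_prm h2 h.prm
    obtain ⟨π, hπ, hass⟩ := exists_PP hρ' k1 k2 k3
    have h3 : π ∈ PD n := (mem_PD hn).2 ⟨hπ, hass.dvd.trans h2⟩
    have h4 : π * π ∣ n := by
      rw [hu]
      exact mul_dvd_mul (Finset.dvd_prod_of_mem _ h3) (hass.dvd.trans hρu)
    exact hπ.prime.not_isUnit (h.sqf _ h4)
  rw [eq_one_of_prm hup huu, mul_one] at hu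
  exact hu.symm

lemma PS.of_dvd {d D : RR} (h : PS D) (hd : QK.prm d) (hdD : d ∣ D) : PS d :=
  ⟨hd, h.sqf.squarefree_of_dvd hdD⟩

/-- products of sets of primary primes -/
lemma PS_prod {S : Finset RR} (hS : ∀ π ∈ S, Pq π) : PS (∏ π ∈ S, π) ∧ PD (∏ π ∈ S, π) = S := by
  classical
  set n := ∏ π ∈ S, π with hn
  have hP : prm n := prm_prod fun π hπ => (hS π hπ).prm
  have hn0 : n ≠ 0 := prm_ne_zero hP
  have hmem : ∀ ρ : RR, Prime ρ → ρ ∣ n → ∃ π ∈ S, Associated ρ π := by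
    intro ρ hρ h
    rw [hn] at h
    obtain ⟨π, hπ, h2⟩ := (hρ.dvd_finsetProd_iff _).1 h
    exact ⟨π, hπ, (hρ.irreducible).associated_of_dvd (hS π hπ).prime.irreducible h2⟩
  have hPD : PD n = S := by
    ext π
    rw [mem_PD hn0]
    constructor
    · rintro ⟨h1, h2⟩
      obtain ⟨ρ, hρ, hass⟩ := hmem π h1.prime h2
      rw [eq_of_dvd h1 (hS ρ hρ) hass.dvd]
      exact hρ
    · intro h
      exact ⟨hS π h, Finset.dvd_prod_of_mem _ h⟩
  refine ⟨⟨hP, ?_⟩, hPD⟩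
  intro x hx
  by_contra hnu
  have hx0 : x ≠ 0 := by
    rintro rfl
    rw [zero_mul, zero_dvd_iff] at hx
    exact hn0 hx
  obtain ⟨ρ, hρ, hρx⟩ := WfDvdMonoid.exists_irreducible_factor hnu hx0
  have hρ' : Prime ρ := irreducible_iff_prime.1 hρ
  have h1 : ρ * ρ ∣ n := (mul_dvd_mul hρx hρx).trans hx
  obtain ⟨π, hπ, hass⟩ := hmem ρ hρ' ((dvd_mul_right _ _).trans h1)
  have h2 : π * π ∣ π * ∏ σ ∈ S.erase π, σ := by
    rw [Finset.mul_prod_erase S (fun σ => σ) hπ]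
    exact (mul_dvd_mul hass.symm.dvd hass.symm.dvd).trans h1
  have h3 := (mul_dvd_mul_iff_left (hS π hπ).prime.ne_zero).1 h2
  obtain ⟨σ, hσ, h4⟩ := ((hS π hπ).prime.dvd_finsetProd_iff _).1 h3
  have h5 := eq_of_dvd (hS π hπ) (hS σ (Finset.mem_of_mem_erase hσ)) h4
  exact (Finset.mem_erase.1 hσ).1 h5.symm

lemma PD_subset {d D : RR} (hD : D ≠ 0) (h : d ∣ D) : PD d ⊆ PD D := by
  intro π hπ
  have hd : d ≠ 0 := by
    rintro rfl
    exact hD (zero_dvd_iff.1 h)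
  rw [mem_PD hd] at hπ
  exact (mem_PD hD).2 ⟨hπ.1, hπ.2.trans h⟩

lemma PD_one : PD (1 : RR) = ∅ := by
  rw [Finset.eq_empty_iff_forall_notMem]
  intro π hπ
  rw [mem_PD one_ne_zero] at hπ
  exact hπ.1.prime.not_isUnit (isUnit_of_dvd_one hπ.2)

lemma PD_mul {a b : RR} (ha : a ≠ 0) (hb : b ≠ 0) : PD (a * b) = PD a ∪ PD b := by
  classical
  ext π
  rw [Finset.mem_union, mem_PD (mul_ne_zero ha hb), mem_PD ha, mem_PD hb]
  constructor
  · rintro ⟨h1, h2⟩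
    rcases h1.prime.dvd_or_dvd h2 with h | h
    · exact Or.inl ⟨h1, h⟩
    · exact Or.inr ⟨h1, h⟩
  · rintro (⟨h1, h2⟩ | ⟨h1, h2⟩)
    · exact ⟨h1, h2.mul_right _⟩
    · exact ⟨h1, h2.mul_left _⟩

lemma PD_disj {a b : RR} (ha : a ≠ 0) (hb : b ≠ 0) (h : IsCoprime a b) : Disjoint (PD a) (PD b) := by
  rw [Finset.disjoint_left]
  intro π h1 h2
  rw [mem_PD ha] at h1
  rw [mem_PD hb] at h2
  exact h1.1.prime.not_isUnit (h.isUnit_of_dvd' h1.2 h2.2)

lemma PD_prime {π : RR} (h : Pq π) : PD π = {π} := by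
  ext ρ
  rw [mem_PD (pq_ne h), Finset.mem_singleton]
  constructor
  · rintro ⟨h1, h2⟩
    exact eq_of_dvd h1 h h2
  · rintro rfl
    exact ⟨h, dvd_rfl⟩

lemma PS.mul_iff {a b : RR} (ha : QK.prm a) (hb : QK.prm b) :
    PS (a * b) ↔ PS a ∧ PS b ∧ IsCoprime a b := by
  constructor
  · intro h
    refine ⟨h.of_dvd ha (dvd_mul_right _ _), h.of_dvd hb (dvd_mul_left _ _), ?_⟩
    exact (isRelPrime_iff_isCoprime.1 (squarefree_mul_iff.1 h.sqf).1)
  · rintro ⟨h1, h2, h3⟩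
    exact ⟨prm_mul ha hb, squarefree_mul_iff.2 ⟨isRelPrime_iff_isCoprime.2 h3, h1.sqf, h2.sqf⟩⟩

/-- the primary primes of norm at most `V` -/
noncomputable def QB (V : ℕ) : Finset RR :=
  ((fin_norm_le V).subset (fun _ h => h.2 : {π : RR | Pq π ∧ nrm π ≤ V} ⊆ {a : RR | nrm a ≤ V})).toFinset

lemma mem_QB {V : ℕ} {π : RR} : π ∈ QB V ↔ nrm π ≤ V ∧ Pq π := by
  unfold QB
  rw [Set.Finite.mem_toFinset]
  exact and_comm

end Pool.Agent.R426.QK
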