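import Pool.Agent.R426.QK.KEY2

/-!
# QK-KEY: the sum over the boxes (helper983)

Port of `Pool/Agent/Y696/XL/Key3.lean` (helper697, helper696) to `ℤ[(1 + √-7) / 2]`.
-/

set_option autoImplicit false

namespace Pool.Agent.R426.QK.KEY

open Finset
open Pool.Agent.Y698 Pool.Agent.Y698.SG
open Pool.Agent.Y703.CX (jj XX)
open Pool.Agent.R426.QK
open scoped Classical

/-- `1 + log₂ T`, rounded -/
noncomputable def lg2 (T : ℕ) : ℝ := (Nat.log 2 T : ℝ) + 1

/-- harmonic sums -/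
theorem hsum (T : ℕ) : ∑ x ∈ (ZB T).filter (fun x => x ≠ 0), (1 : ℝ) / nrm x ≤ 32 * lg2 T := by
  have hmaps : ∀ x ∈ (ZB T).filter (fun x => x ≠ 0), Nat.log 2 (nrm x) ∈ range (Nat.log 2 T + 1) := by
    intro x hx
    rw [mem_filter, mem_ZB] at hx
    rw [mem_range]
    have := Nat.log_mono_right (b := 2) hx.1
    omega
  rw [← sum_fiberwise_of_maps_to hmaps]
  have h1 : ∀ k ∈ range (Nat.log 2 T + 1), ∑ x ∈ ((ZB T).filter (fun x => x ≠ 0)).filter
      (fun x => Nat.log 2 (nrm x) = k), (1 : ℝ) / nrm x ≤ 32 := by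
    intro k _
    have h2 : ∀ x ∈ ((ZB T).filter (fun x => x ≠ 0)).filter (fun x => Nat.log 2 (nrm x) = k),
        (1 : ℝ) / nrm x ≤ 1 / 2 ^ k := by
      intro x hx
      rw [mem_filter, mem_filter] at hx
      have h3 : 2 ^ k ≤ nrm x := by
        rw [← hx.2]
        exact Nat.pow_log_le_self 2 (nrm_pos' hx.1.2).ne'
      have h4 : (2 : ℝ) ^ k ≤ nrm x := by exact_mod_cast h3
      exact div_le_div_of_nonneg_left zero_le_one (by positivity) h4
    refine (sum_le_sum h2).trans ?_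
    rw [sum_const, nsmul_eq_mul]
    have h5 : (((ZB T).filter (fun x => x ≠ 0)).filter (fun x => Nat.log 2 (nrm x) = k)) ⊆
        ZB (2 ^ (k + 1)) := by
      intro x hx
      rw [mem_filter] at hx
      rw [mem_ZB]
      have := Nat.lt_pow_succ_log_self (b := 2) (by norm_num) (nrm x)
      rw [hx.2] at this
      exact this.le
    have h6 : ((((ZB T).filter (fun x => x ≠ 0)).filter
        (fun x => Nat.log 2 (nrm x) = k)).card : ℝ) ≤ 16 * ((2 ^ (k + 1) : ℕ) : ℝ) :=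
      le_trans (by exact_mod_cast card_le_card h5) (card_ZB_le Nat.one_le_two_pow)
    rw [mul_one_div, div_le_iff₀ (by positivity)]
    refine h6.trans (le_of_eq ?_)
    push_cast
    rw [pow_succ]
    ring
  refine (sum_le_sum h1).trans (le_of_eq ?_)
  rw [sum_const, card_range, nsmul_eq_mul]
  unfold lg2
  push_cast
  ring

theorem lg_le {X : ℕ} (hX : 1 ≤ X) : lg2 X ≤ 2 * (1 + Real.log X) := by
  unfold lg2
  have h1 : ((2 ^ Nat.log 2 X : ℕ) : ℝ) ≤ X := by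
    exact_mod_cast Nat.pow_log_le_self 2 (by omega)
  have h2 : (Nat.log 2 X : ℝ) * Real.log 2 ≤ Real.log X := by
    rw [← Real.log_pow]
    push_cast at h1
    exact Real.log_le_log (by positivity) h1
  have h3 : (1 / 2 : ℝ) ≤ Real.log 2 := by have := Real.log_two_gt_d9; linarith
  have h4 : (0 : ℝ) ≤ Nat.log 2 X := Nat.cast_nonneg _
  nlinarith

theorem sum_inv {X : ℕ} (hX : 1 ≤ X) {A : Finset (Finset RR)} (hA : ∀ S ∈ A, (∀ p ∈ S, Pq p) ∧
    ∏ p ∈ S, nrm p ≤ X) : ∑ S ∈ A, (1 : ℝ) / ((∏ p ∈ S, nrm p : ℕ) : ℝ) ≤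
      64 * (1 + Real.log X) := by
  have hinj : Set.InjOn (fun S : Finset RR => ∏ p ∈ S, p) (A : Set (Finset RR)) := by
    intro S hS T hT h
    have h1 := (PS_prod (hA S hS).1).2
    have h2 := (PS_prod (hA T hT).1).2
    simp only at h
    rw [← h1, ← h2, h]
  have h1 : ∑ S ∈ A, (1 : ℝ) / ((∏ p ∈ S, nrm p : ℕ) : ℝ) =
      ∑ n ∈ A.image (fun S => ∏ p ∈ S, p), (1 : ℝ) / (nrm n : ℝ) := by
    rw [Finset.sum_image (f := fun n : RR => (1 : ℝ) / (nrm n : ℝ)) hinj]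
    refine Finset.sum_congr rfl fun S _ => ?_
    rw [nrm_prod]
  rw [h1]
  have h2 : A.image (fun S => ∏ p ∈ S, p) ⊆ (ZB X).filter (fun x => x ≠ 0) := by
    intro n hn
    rw [Finset.mem_image] at hn
    obtain ⟨S, hS, rfl⟩ := hn
    rw [mem_filter, mem_ZB, nrm_prod]
    exact ⟨(hA S hS).2, prm_ne_zero (PS_prod (hA S hS).1).1.prm⟩
  refine (Finset.sum_le_sum_of_subset_of_nonneg h2 fun n _ _ => by positivity).trans ?_
  have h3 := hsum X
  have h4 := lg_le hX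
  linarith

theorem keg_err {X z H k V N : ℕ} {κ : ℝ} (hX : 1 ≤ X) (hH : 1 ≤ H) (hz : 1 ≤ z) (hκ : 0 ≤ κ)
    (hN : (H : ℝ) * Real.log X < N) {T : Finset (Finset RR × Finset ℕ)}
    (hT : ∀ k' ∈ T, k' ∈ (Rg X z H k V).image (ky z H)) :
    ∑ k' ∈ T, (3 ^ (9 * k ^ 2) * κ) * (X * (1 / ((∏ p ∈ k'.1, nrm p : ℕ) : ℝ))) ≤
      (9 * N + 9 : ℝ) ^ k * (3 ^ (9 * k ^ 2 + 9) * κ) * (X * (1 + Real.log X)) := by
  -- the errors
  set U : Finset ℕ := range (4 * N) with hU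
  set A := T.image Prod.fst with hA
  have hAp : ∀ S ∈ A, (∀ p ∈ S, Pq p) ∧ ∏ p ∈ S, nrm p ≤ X := by
    intro S hS
    rw [hA, Finset.mem_image] at hS
    obtain ⟨⟨S₀, J⟩, hk, rfl⟩ := hS
    obtain ⟨h₀O, h₀, hJi, hCd, hJf⟩ := key_facts hH (hT _ hk)
    refine ⟨fun p hp => h₀O p hp, ?_⟩
    have h4 : 1 ≤ ∏ i ∈ J, XX H (i / 4) := by
      apply Nat.one_le_iff_ne_zero.2
      rw [Finset.prod_ne_zero_iff]
      intro i hi
      exact Nat.one_le_iff_ne_zero.1 (hz.trans (hJf i hi).1)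
    calc ∏ p ∈ S₀, nrm p = (∏ p ∈ S₀, nrm p) * 1 := (mul_one _).symm
      _ ≤ (∏ p ∈ S₀, nrm p) * ∏ i ∈ J, XX H (i / 4) := Nat.mul_le_mul_left _ h4
      _ ≤ X := hCd.2.2.1
  have hsub : T ⊆ A ×ˢ (U.powerset.filter fun J => J.card ≤ k) := by
    intro k' hk
    obtain ⟨S₀, J⟩ := k'
    rw [Finset.mem_product, Finset.mem_filter, Finset.mem_powerset]
    obtain ⟨h₀O, h₀, hJi, hCd, hJf⟩ := key_facts hH (hT _ hk)
    have hc := hCd.2.1
    refine ⟨Finset.mem_image_of_mem _ hk, ?_, (Nat.le_add_left _ _).trans hc⟩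
    intro i hi
    obtain ⟨k2, q, hq, hzq, hqX, hqi⟩ := hJf i hi
    rw [hU, Finset.mem_range]
    have hH0 : (0 : ℝ) < H := by exact_mod_cast hH
    have hq0 : (0 : ℝ) < nrm q := by exact_mod_cast nrm_one_le hq
    have h4 : (H : ℝ) * Real.log (nrm q) ≤ H * Real.log X := by
      apply mul_le_mul_of_nonneg_left _ hH0.le
      exact Real.log_le_log hq0 (by exact_mod_cast hqX)
    have h5 : ((⌊(H : ℝ) * Real.log (nrm q)⌋₊ : ℕ) : ℝ) < N :=
      (Nat.floor_le (mul_nonneg hH0.le (Real.log_natCast_nonneg _))).trans_lt (h4.trans_lt hN)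
    have h6 : bl H q < N := by
      unfold bl jj
      exact_mod_cast h5
    have h7 := ph_div H q
    rw [hqi] at h7
    omega
  have hX0 : (0 : ℝ) ≤ X := Nat.cast_nonneg X
  have hcU : ((U.powerset.filter fun J => J.card ≤ k).card : ℝ) ≤ (9 * N + 9 : ℝ) ^ k := by
    have h4 := card_sub U k
    have h5 : U.card = 4 * N := by
      rw [hU, Finset.card_range]
    rw [h5] at h4
    have h6 : ((U.powerset.filter fun J => J.card ≤ k).card : ℝ) ≤ ((4 * N + 1 : ℕ) : ℝ) ^ k := by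
      exact_mod_cast h4
    refine h6.trans ?_
    apply pow_le_pow_left₀ (by positivity)
    push_cast
    linarith
  have hlogX : 0 ≤ 1 + Real.log X := by
    have := Real.log_natCast_nonneg X
    linarith
  calc ∑ k' ∈ T, (3 ^ (9 * k ^ 2) * κ) * (X * (1 / ((∏ p ∈ k'.1, nrm p : ℕ) : ℝ)))
      ≤ ∑ k' ∈ A ×ˢ (U.powerset.filter fun J => J.card ≤ k),
        (3 ^ (9 * k ^ 2) * κ) * (X * (1 / ((∏ p ∈ k'.1, nrm p : ℕ) : ℝ))) :=
        Finset.sum_le_sum_of_subset_of_nonneg hsub fun _ _ _ => by positivity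
    _ = ((U.powerset.filter fun J => J.card ≤ k).card : ℝ) * ((3 ^ (9 * k ^ 2) * κ) *
        (X * ∑ S ∈ A, 1 / ((∏ p ∈ S, nrm p : ℕ) : ℝ))) := by
        rw [Finset.sum_product]
        simp only [Finset.sum_const, nsmul_eq_mul]
        rw [← Finset.mul_sum, ← Finset.mul_sum, ← Finset.mul_sum]
    _ ≤ (9 * N + 9 : ℝ) ^ k * ((3 ^ (9 * k ^ 2) * κ) * (X * (64 * (1 + Real.log X)))) := by
        have h4 := sum_inv hX hAp
        have h5 : (0 : ℝ) ≤ ∑ S ∈ A, 1 / ((∏ p ∈ S, nrm p : ℕ) : ℝ) :=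
          Finset.sum_nonneg fun _ _ => by positivity
        gcongr
    _ = (9 * N + 9 : ℝ) ^ k * ((3 ^ (9 * k ^ 2) * 64) * κ) * (X * (1 + Real.log X)) := by ring
    _ ≤ (9 * N + 9 : ℝ) ^ k * (3 ^ (9 * k ^ 2 + 9) * κ) * (X * (1 + Real.log X)) := by
        have h6 : (3 : ℝ) ^ (9 * k ^ 2) * 64 ≤ 3 ^ (9 * k ^ 2 + 9) := by
          rw [pow_add]
          refine mul_le_mul_of_nonneg_left ?_ (by positivity)
          norm_num
        gcongr

/-- **QK-KEY.** -/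
theorem t_KEY : S_KEY := by
  rintro hR ⟨C₁, hC₁, hb1⟩ hE hB
  refine ⟨C₁, hC₁, ?_⟩
  intro ε V hε hL X z H k N κ hX hH hz hκ h1 hN
  set T := (Rg X z H k V).image (ky z H) with hT
  have hfib : ∀ P : Finset RR → Prop, (((Rg X z H k V).filter fun S => P S).card : ℝ) =
      ∑ k' ∈ T, (((Rg X z H k V).filter fun S => ky z H S = k' ∧ P S).card : ℝ) := by
    intro P
    rw [Finset.card_eq_sum_card_fiberwise (f := ky z H) (t := T) (by
      intro S hS
      rw [Finset.mem_coe, Finset.mem_filter] at hS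
      exact Finset.mem_coe.2 (Finset.mem_image_of_mem _ hS.1))]
    push_cast
    refine Finset.sum_congr rfl fun k' _ => ?_
    congr 2
    ext S
    simp only [Finset.mem_filter]
    tauto
  have hall : ((Rg X z H k V).card : ℝ) =
      ∑ k' ∈ T, (((Rg X z H k V).filter fun S => ky z H S = k' ∧ True).card : ℝ) := by
    rw [Finset.card_eq_sum_card_fiberwise (f := ky z H) (t := T) (by
      intro S hS
      exact Finset.mem_coe.2 (Finset.mem_image_of_mem _ hS))]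
    push_cast
    exact Finset.sum_congr rfl fun k' _ => congrArg _ (fcc fun _ _ => by tauto)
  have q1 : (((Rg X z H k V).filter fun S => Nd (sm z S) (la z S) ∧ Gd S).card : ℝ) =
      ∑ k' ∈ T, (((Rg X z H k V).filter fun S => ky z H S = k' ∧
        (Nd (sm z S) (la z S) ∧ Gd S)).card : ℝ) :=
    (congrArg _ (fcc fun _ _ => Iff.rfl)).trans ((hfib fun S => Nd (sm z S) (la z S) ∧ Gd S).trans
      (Finset.sum_congr rfl fun k' _ => congrArg _ (fcc fun _ _ => Iff.rfl)))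
  rw [q1, hfib, Finset.mul_sum, ← Finset.sum_sub_distrib, hall, Finset.mul_sum]
  refine (Finset.abs_sum_le_sum_abs _ _).trans ?_
  have h3 : ∑ k' ∈ T, |(((Rg X z H k V).filter fun S => ky z H S = k' ∧
      (Nd (sm z S) (la z S) ∧ Gd S)).card : ℝ) - c2 * (((Rg X z H k V).filter fun S =>
      ky z H S = k' ∧ Nd (sm z S) (la z S)).card : ℝ)| ≤
      ∑ k' ∈ T, (ε * (((Rg X z H k V).filter fun S =>
      ky z H S = k' ∧ True).card : ℝ) +
      (3 ^ (9 * k ^ 2) * κ) * (X * (1 / ((∏ p ∈ k'.1, nrm p : ℕ) : ℝ)))) := by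
    refine Finset.sum_le_sum fun k' hk => ?_
    obtain ⟨S₀, J⟩ := k'
    exact per_key hR hE hB hL hε hb1 hH hz hκ h1 hk
  refine h3.trans ?_
  rw [Finset.sum_add_distrib]
  refine add_le_add (le_refl _) ?_
  exact keg_err hX hH hz hκ hN fun k' hk => hk

end Pool.Agent.R426.QK.KEY
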