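import Pool.Agent.R426.QK.Stm

/-!
QK-LA3: the moments of the kernel.
-/

set_option autoImplicit false
set_option linter.unusedVariables false

open scoped Classical

namespace Pool.Agent.R426.QK.LA3

open Finset Pool.Agent.R426.QK

/-- the number of the linearly independent tuples -/
theorem card_li {V : Type} [AddCommGroup V] [Module (ZMod 2) V] [Finite V] (m : ℕ) :
    (Nat.card {s : Fin m → V // LinearIndependent (ZMod 2) s} : ℝ) =
      ∏ i ∈ range m, ((2 : ℝ) ^ Module.finrank (ZMod 2) V - 2 ^ i) := by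
  have hfin : Module.Finite (ZMod 2) V := Module.Finite.of_finite
  by_cases hm : m ≤ Module.finrank (ZMod 2) V
  · rw [card_linearIndependent hm, ZMod.card, Nat.cast_prod, Finset.prod_range]
    apply Finset.prod_congr rfl
    intro i _
    rw [Nat.cast_sub]
    · push_cast; rfl
    · exact Nat.pow_le_pow_right (by norm_num) (by omega)
  · rw [Finset.prod_eq_zero (i := Module.finrank (ZMod 2) V)]
    · have : IsEmpty {s : Fin m → V // LinearIndependent (ZMod 2) s} := by
        constructor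
        rintro ⟨s, hs⟩
        have := hs.fintype_card_le_finrank
        rw [Fintype.card_fin] at this
        exact hm this
      rw [Nat.card_of_isEmpty, Nat.cast_zero]
    · rw [Finset.mem_range]; omega
    · rw [sub_self]

section

variable {U J : Type} [Fintype U] [Fintype J]

theorem two_eq : (2 : ZMod 2) = 0 := rfl

theorem rowU_add (sU : U → ZMod 2) (A : U → U → ZMod 2) (B : U → J → ZMod 2)
    (c c' : U → ZMod 2) (d d' : J → ZMod 2) (u : U) :
    rowU sU A B (c + c') (d + d') u = rowU sU A B c d u + rowU sU A B c' d' u := by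
  unfold rowU
  simp only [Pi.add_apply]
  have h1 : ∑ v, A u v * (c u + c' u + (c v + c' v)) =
      ∑ v, A u v * (c u + c v) + ∑ v, A u v * (c' u + c' v) := by
    rw [← Finset.sum_add_distrib]
    exact Finset.sum_congr rfl fun v _ => by ring
  have h2 : ∑ l, B u l * (c u + c' u + (d l + d' l)) =
      ∑ l, B u l * (c u + d l) + ∑ l, B u l * (c' u + d' l) := by
    rw [← Finset.sum_add_distrib]
    exact Finset.sum_congr rfl fun v _ => by ring
  rw [h1, h2]; ring

theorem rowU_smul (sU : U → ZMod 2) (A : U → U → ZMod 2) (B : U → J → ZMod 2) (a : ZMod 2)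
    (c : U → ZMod 2) (d : J → ZMod 2) (u : U) :
    rowU sU A B (a • c) (a • d) u = a * rowU sU A B c d u := by
  unfold rowU
  simp only [Pi.smul_apply, smul_eq_mul]
  rw [mul_add, mul_add, Finset.mul_sum, Finset.mul_sum]
  congr 1
  · congr 1
    · ring
    · exact Finset.sum_congr rfl fun v _ => by ring
  · exact Finset.sum_congr rfl fun v _ => by ring

theorem rowJ_add (tU : U → ZMod 2) (sJ tJ : J → ZMod 2) (B : U → J → ZMod 2)
    (R : J → J → ZMod 2) (c c' : U → ZMod 2) (d d' : J → ZMod 2) (k : J) :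
    rowJ tU sJ tJ B R (c + c') (d + d') k = rowJ tU sJ tJ B R c d k + rowJ tU sJ tJ B R c' d' k := by
  unfold rowJ
  simp only [Pi.add_apply]
  have h1 : ∑ u, (B u k + tU u * tJ k) * (d k + d' k + (c u + c' u)) =
      ∑ u, (B u k + tU u * tJ k) * (d k + c u) + ∑ u, (B u k + tU u * tJ k) * (d' k + c' u) := by
    rw [← Finset.sum_add_distrib]
    exact Finset.sum_congr rfl fun v _ => by ring
  have h2 : ∑ l, R k l * (d k + d' k + (d l + d' l)) =
      ∑ l, R k l * (d k + d l) + ∑ l, R k l * (d' k + d' l) := by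
    rw [← Finset.sum_add_distrib]
    exact Finset.sum_congr rfl fun v _ => by ring
  rw [h1, h2]; ring

theorem rowJ_smul (tU : U → ZMod 2) (sJ tJ : J → ZMod 2) (B : U → J → ZMod 2)
    (R : J → J → ZMod 2) (a : ZMod 2) (c : U → ZMod 2) (d : J → ZMod 2) (k : J) :
    rowJ tU sJ tJ B R (a • c) (a • d) k = a * rowJ tU sJ tJ B R c d k := by
  unfold rowJ
  simp only [Pi.smul_apply, smul_eq_mul]
  rw [mul_add, mul_add, Finset.mul_sum, Finset.mul_sum]
  congr 1
  · congr 1
    · ring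
    · exact Finset.sum_congr rfl fun v _ => by ring
  · exact Finset.sum_congr rfl fun v _ => by ring

/-- the kernel of the block system -/
def Kr (sU tU : U → ZMod 2) (sJ tJ : J → ZMod 2) (A : U → U → ZMod 2) (B : U → J → ZMod 2)
    (R : J → J → ZMod 2) : Submodule (ZMod 2) ((U → ZMod 2) × (J → ZMod 2)) where
  carrier := {x | (∀ u, rowU sU A B x.1 x.2 u = 0) ∧ ∀ k, rowJ tU sJ tJ B R x.1 x.2 k = 0}
  zero_mem' := by
    refine ⟨fun u => ?_, fun k => ?_⟩
    · have := rowU_smul sU A B 0 0 0 u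
      simpa using this
    · have := rowJ_smul tU sJ tJ B R 0 0 0 k
      simpa using this
  add_mem' := by
    rintro ⟨c, d⟩ ⟨c', d'⟩ ⟨h1, h2⟩ ⟨h3, h4⟩
    refine ⟨fun u => ?_, fun k => ?_⟩
    · change rowU sU A B (c + c') (d + d') u = 0
      rw [rowU_add]
      have e1 : rowU sU A B c d u = 0 := h1 u
      have e2 : rowU sU A B c' d' u = 0 := h3 u
      rw [e1, e2, add_zero]
    · change rowJ tU sJ tJ B R (c + c') (d + d') k = 0
      rw [rowJ_add]
      have e1 : rowJ tU sJ tJ B R c d k = 0 := h2 k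
      have e2 : rowJ tU sJ tJ B R c' d' k = 0 := h4 k
      rw [e1, e2, add_zero]
  smul_mem' := by
    rintro a ⟨c, d⟩ ⟨h1, h2⟩
    refine ⟨fun u => ?_, fun k => ?_⟩
    · change rowU sU A B (a • c) (a • d) u = 0
      rw [rowU_smul]
      have e1 : rowU sU A B c d u = 0 := h1 u
      rw [e1, mul_zero]
    · change rowJ tU sJ tJ B R (a • c) (a • d) k = 0
      rw [rowJ_smul]
      have e1 : rowJ tU sJ tJ B R c d k = 0 := h2 k
      rw [e1, mul_zero]

theorem mem_Kr {sU tU : U → ZMod 2} {sJ tJ : J → ZMod 2} {A : U → U → ZMod 2} {B : U → J → ZMod 2}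
    {R : J → J → ZMod 2} {x : (U → ZMod 2) × (J → ZMod 2)} :
    x ∈ Kr sU tU sJ tJ A B R ↔
      (∀ u, rowU sU A B x.1 x.2 u = 0) ∧ ∀ k, rowJ tU sJ tJ B R x.1 x.2 k = 0 := Iff.rfl

theorem gd_iff {sU tU : U → ZMod 2} {sJ tJ : J → ZMod 2} {A : U → U → ZMod 2}
    {B : U → J → ZMod 2} {R : J → J → ZMod 2} :
    GdA sU tU sJ tJ A B R ↔ Module.finrank (ZMod 2) (Kr sU tU sJ tJ A B R) = 0 := by
  rw [Submodule.finrank_eq_zero, Submodule.eq_bot_iff]
  constructor
  · rintro h ⟨c, d⟩ hx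
    obtain ⟨h1, h2⟩ := h c d (fun u => hx.1 u) (fun k => hx.2 k)
    ext i
    · exact h1 i
    · exact h2 i
  · intro h c d h1 h2
    have := h (c, d) ⟨fun u => h1 u, fun k => h2 k⟩
    rw [Prod.mk_eq_zero] at this
    exact ⟨fun u => congrFun this.1 u, fun l => congrFun this.2 l⟩

/-- linear independence in the kernel -/
theorem li_iff {sU tU : U → ZMod 2} {sJ tJ : J → ZMod 2} {A : U → U → ZMod 2}
    {B : U → J → ZMod 2} {R : J → J → ZMod 2} (k0 : J)
    (h4 : ∀ (w : U → ZMod 2) (e : ZMod 2), ((∃ u, w u ≠ 0) ∨ e ≠ 0) →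
      ∃ k, e * sJ k + ∑ u, w u * (B u k + tU u * tJ k) ≠ 0) {m : ℕ}
    (s : Fin m → Kr sU tU sJ tJ A B R) :
    LinearIndependent (ZMod 2) s ↔ IndJ (fun i => (s i).1.2) := by
  rw [Fintype.linearIndependent_iff]
  have hsum2 : ∀ (a : Fin m → ZMod 2) (k : J),
      (((∑ i, a i • s i : Kr sU tU sJ tJ A B R) : (U → ZMod 2) × (J → ZMod 2)).2 k) =
        ∑ i, a i * (s i).1.2 k := by
    intro a k
    rw [Submodule.coe_sum, Prod.snd_sum, Finset.sum_apply]
    rfl
  constructor
  · intro h a ⟨i0, hi0⟩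
    by_contra hcon
    push Not at hcon
    apply hi0
    refine h a ?_ i0
    obtain ⟨y, hy⟩ : ∃ y, y = ∑ i, a i • s i := ⟨_, rfl⟩
    rw [← hy]
    have hyk : ∀ k, y.1.2 k = ∑ i, a i * (s i).1.2 k := by
      intro k; rw [hy]; exact hsum2 a k
    have hconst : ∀ l, y.1.2 l = y.1.2 k0 := by
      intro l
      have h1 := hcon l k0
      simp_rw [mul_add] at h1
      rw [Finset.sum_add_distrib, ← hyk, ← hyk] at h1
      have h2 : y.1.2 l = -y.1.2 k0 := eq_neg_of_add_eq_zero_left h1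
      rw [h2, ZMod.neg_eq_self_mod_two]
    have hy2 := y.2.2
    by_contra hy0
    have hor : (∃ u, y.1.1 u + y.1.2 k0 ≠ 0) ∨ y.1.2 k0 ≠ 0 := by
      by_contra hn
      push Not at hn
      obtain ⟨hn1, hn2⟩ := hn
      apply hy0
      apply Subtype.ext
      ext i
      · have := hn1 i
        rw [hn2, add_zero] at this
        exact this
      · change y.1.2 i = 0
        rw [hconst i, hn2]
    obtain ⟨k, hk⟩ := h4 (fun u => y.1.1 u + y.1.2 k0) (y.1.2 k0) hor
    apply hk
    have h5 : rowJ tU sJ tJ B R y.1.1 y.1.2 k = 0 := hy2 k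
    unfold rowJ at h5
    rw [hconst k] at h5
    have h6 : ∑ l, R k l * (y.1.2 k0 + y.1.2 l) = 0 := by
      apply Finset.sum_eq_zero
      intro l _
      rw [hconst l, ← two_mul, two_eq, zero_mul, mul_zero]
    rw [h6, add_zero] at h5
    rw [← h5]
    congr 1
    · ring
    · exact Finset.sum_congr rfl fun u _ => by ring
  · intro h a ha
    by_contra hcon
    push Not at hcon
    obtain ⟨k, l, hkl⟩ := h a hcon
    apply hkl
    simp_rw [mul_add]
    rw [Finset.sum_add_distrib, ← hsum2 a k, ← hsum2 a l, ha]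
    change (0 : ZMod 2) + 0 = 0
    rw [add_zero]

end

theorem card_univ_inst {α : Type} (i1 i2 : Fintype α) (p : α → Prop) (d1 d2 : DecidablePred p) :
    (@Finset.filter α p d1 (@Finset.univ α i1)).card =
      (@Finset.filter α p d2 (@Finset.univ α i2)).card := by
  have h1 : i1 = i2 := Subsingleton.elim _ _
  subst h1
  have h2 : d1 = d2 := Subsingleton.elim _ _
  subst h2
  rfl

theorem t_LA3 : S_LA3 := by
  intro hMOM hLA1 hLA2 ε hε
  obtain ⟨M, δ, hδ, hM⟩ := hMOM ε hε
  choose! Vf hVf using fun m => hLA2 m δ hδ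
  refine ⟨(range (M + 1)).sup Vf + 2, ?_⟩
  intro U J _ _ _ sU tU sJ tJ A B hV hpar hsym hnd
  have hJ : ∃ k0 : J, True := by
    have : 0 < (univ.filter fun j => tJ j = 1).card := by omega
    obtain ⟨k0, _⟩ := Finset.card_pos.1 this
    exact ⟨k0, trivial⟩
  obtain ⟨k0, -⟩ := hJ
  have hcardΩ : (Fintype.card (prs J → ZMod 2) : ℝ) = 2 ^ (prs J).card := by
    rw [Fintype.card_fun, ZMod.card, Fintype.card_coe]
    push_cast
    rfl
  have key := hM (prs J → ZMod 2)
    (fun α => Module.finrank (ZMod 2) (Kr sU tU sJ tJ A B (ext tJ α))) ?_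
  · rw [hcardΩ] at key
    have h1 : (univ.filter fun α : prs J → ZMod 2 => GdA sU tU sJ tJ A B (ext tJ α)) =
        univ.filter fun α : prs J → ZMod 2 =>
          Module.finrank (ZMod 2) (Kr sU tU sJ tJ A B (ext tJ α)) = 0 :=
      Finset.filter_congr fun α _ => gd_iff
    rw [h1]
    exact key
  · intro m hm
    -- the tuples
    obtain ⟨T, hT⟩ : ∃ T : Finset ((Fin m → U → ZMod 2) × (Fin m → J → ZMod 2)),
      T = univ.filter fun x => IndJ x.2 ∧ ∀ i u, rowU sU A B (x.1 i) (x.2 i) u = 0 := ⟨_, rfl⟩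
    have hTm : ∀ x, x ∈ T ↔ IndJ x.2 ∧ ∀ i u, rowU sU A B (x.1 i) (x.2 i) u = 0 := by
      intro x
      rw [hT, Finset.mem_filter]
      exact ⟨fun h => h.2, fun h => ⟨Finset.mem_univ _, h⟩⟩
    have hcount : ∀ α : prs J → ZMod 2,
        ∏ i ∈ range m, ((2 : ℝ) ^ Module.finrank (ZMod 2) (Kr sU tU sJ tJ A B (ext tJ α)) - 2 ^ i) =
        ((T.filter fun x => ∀ i k, rowJ tU sJ tJ B (ext tJ α) (x.1 i) (x.2 i) k = 0).card : ℝ) := by
      intro α
      rw [← card_li]
      congr 1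
      rw [← Fintype.card_coe, ← Nat.card_eq_fintype_card]
      apply Nat.card_congr
      refine
        { toFun := fun s => ⟨(fun i => (s.1 i).1.1, fun i => (s.1 i).1.2), ?_⟩
          invFun := fun x => ⟨fun i => ⟨(x.1.1 i, x.1.2 i), ?_⟩, ?_⟩
          left_inv := ?_
          right_inv := ?_ }
      · rw [Finset.mem_filter, hTm]
        refine ⟨⟨(li_iff k0 (fun w e h => (hnd w e h).1) s.1).1 s.2, ?_⟩, ?_⟩
        · intro i u; exact (s.1 i).2.1 u
        · intro i k; exact (s.1 i).2.2 k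
      · have hx := Finset.mem_filter.1 x.2
        exact ⟨fun u => ((hTm x.1).1 hx.1).2 i u, fun k => hx.2 i k⟩
      · have hx := Finset.mem_filter.1 x.2
        exact (li_iff k0 (fun w e h => (hnd w e h).1) _).2 ((hTm x.1).1 hx.1).1
      · intro s; rfl
      · intro x; rfl
    rw [Finset.sum_congr rfl fun α _ => hcount α, ← Nat.cast_sum]
    have hswap : ∑ α : prs J → ZMod 2,
        (T.filter fun x => ∀ i k, rowJ tU sJ tJ B (ext tJ α) (x.1 i) (x.2 i) k = 0).card =
        ∑ x ∈ T, (univ.filter fun α : prs J → ZMod 2 =>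
          ∀ i k, rowJ tU sJ tJ B (ext tJ α) (x.1 i) (x.2 i) k = 0).card := by
      have := Finset.sum_card_bipartiteAbove_eq_sum_card_bipartiteBelow
        (s := (univ : Finset (prs J → ZMod 2))) (t := T)
        (fun α x => ∀ i k, rowJ tU sJ tJ B (ext tJ α) (x.1 i) (x.2 i) k = 0)
      exact this
    rw [hswap]
    have hmul : (∑ x ∈ T, (univ.filter fun α : prs J → ZMod 2 =>
          ∀ i k, rowJ tU sJ tJ B (ext tJ α) (x.1 i) (x.2 i) k = 0).card) *
          2 ^ (m * (Fintype.card J - 1)) =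
        (univ.filter fun x : (Fin m → U → ZMod 2) × (Fin m → J → ZMod 2) =>
          IndJ x.2 ∧ OKt sU tU sJ tJ A B x.1 x.2).card * 2 ^ ((prs J).card + m.choose 2) := by
      rw [Finset.sum_mul]
      have h1 : ∀ x ∈ T, (univ.filter fun α : prs J → ZMod 2 =>
          ∀ i k, rowJ tU sJ tJ B (ext tJ α) (x.1 i) (x.2 i) k = 0).card *
          2 ^ (m * (Fintype.card J - 1)) =
          if OKt sU tU sJ tJ A B x.1 x.2 then 2 ^ ((prs J).card + m.choose 2) else 0 := by
        intro x hx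
        rw [hTm] at hx
        exact hLA1 U J sU tU sJ tJ A B hpar hsym m x.1 x.2 hx.1 hx.2
      rw [Finset.sum_congr rfl h1, ← Finset.sum_filter, Finset.sum_const, smul_eq_mul]
      congr 2
      rw [hT, Finset.filter_filter]
      apply Finset.filter_congr
      intro x _
      constructor
      · rintro ⟨⟨h2, _⟩, h3⟩; exact ⟨h2, h3⟩
      · rintro ⟨h2, h3⟩; exact ⟨⟨h2, h3.1⟩, h3⟩
    have hVm : 4 * Fintype.card U + Vf m ≤ (univ.filter fun j => tJ j = 1).card := by
      have : Vf m ≤ (range (M + 1)).sup Vf :=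
        Finset.le_sup (f := Vf) (Finset.mem_range.2 (by omega))
      omega
    have hfin := hVf m U J sU tU sJ tJ A B hVm hpar hsym (fun w e h => (hnd w e h).2)
    obtain ⟨N1, hN1⟩ : ∃ N1 : ℕ, N1 = ∑ x ∈ T, (univ.filter fun α : prs J → ZMod 2 =>
          ∀ i k, rowJ tU sJ tJ B (ext tJ α) (x.1 i) (x.2 i) k = 0).card := ⟨_, rfl⟩
    obtain ⟨N2, hN2⟩ : ∃ N2 : ℕ, N2 =
        (univ.filter fun x : (Fin m → U → ZMod 2) × (Fin m → J → ZMod 2) =>
          IndJ x.2 ∧ OKt sU tU sJ tJ A B x.1 x.2).card := ⟨_, rfl⟩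
    rw [← hN1, ← hN2] at hmul
    have hfin2 : |(N2 : ℝ) * 2 ^ m.choose 2 / 2 ^ (m * (Fintype.card J - 1)) - 1| ≤ δ := by
      generalize hN3 : Finset.card _ = N3 at hfin
      have hN4 : N2 = N3 := by
        rw [hN2, ← hN3]
        exact card_univ_inst _ _ _ _ _
      rw [hN4]
      exact hfin
    rw [← hN1, hcardΩ]
    obtain ⟨P, hP⟩ : ∃ P : ℕ, P = (prs J).card := ⟨_, rfl⟩
    rw [← hP] at hmul ⊢
    have hval : (N1 : ℝ) / 2 ^ P = (N2 : ℝ) * 2 ^ m.choose 2 / 2 ^ (m * (Fintype.card J - 1)) := by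
      rw [div_eq_div_iff (by positivity) (by positivity)]
      have h2 : (N1 : ℝ) * 2 ^ (m * (Fintype.card J - 1)) = (N2 : ℝ) * 2 ^ (P + m.choose 2) := by
        exact_mod_cast hmul
      rw [h2, pow_add]
      ring
    rw [hval]
    exact hfin2

end Pool.Agent.R426.QK.LA3
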