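import Pool.Agent.R426.QK.Stm
import Pool.Agent.R906.QK.MomA

/-!
QK-MOM and QK-C2.
-/

set_option autoImplicit false

open scoped Classical

namespace Pool.Agent.R426.QK.MOM

open Pool.Agent.R426.QK

theorem t_C2 : S_C2 := Pool.Agent.R906.QK.c2_main _ rfl

theorem t_MOM : S_MOM := by
  intro ε hε
  obtain ⟨M, δ, hδ, h⟩ := Pool.Agent.R906.QK.mom_main _ rfl ε hε
  refine ⟨M, δ, hδ, fun Ω _ _ r hm => ?_⟩
  have h1 := h Ω r hm
  exact h1

end Pool.Agent.R426.QK.MOM
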