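import Pool.Agent.R426.QK.Stm

/-!
# Project QK: translation between elements and sets of primes
(port of `Pool/Agent/Y550/XK/NS.lean`)
-/

set_option autoImplicit false

open scoped Classical

namespace Pool.Agent.R426.QK.NS

open Finset
open Pool.Agent.R426.QK
open Pool.Agent.R426.QD (r4 r4_eq r4_a)
open Pool.Agent.Y698 Pool.Agent.Y698.SG

theorem nrm_prod (S : Finset RR) : nrm (∏ π ∈ S, π) = ∏ π ∈ S, nrm π := by
  induction S using Finset.induction_on with
  | empty => rw [Finset.prod_empty, Finset.prod_empty, nrm_one]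
  | insert a S ha ih => rw [Finset.prod_insert ha, Finset.prod_insert ha, nrm_mul, ih]

theorem four_dvd_iff (D : RR) : (4 : RR) ∣ D - 1 ↔ (4 : ℤ) ∣ cX D - 1 ∧ (4 : ℤ) ∣ cY D := by
  have h1 : cX (D - 1) = cX D - 1 ∧ cY (D - 1) = cY D := by
    rw [sub_eq_add_neg, (cXY_add _ _).1, (cXY_add _ _).2, (cXY_neg _).1, (cXY_neg _).2,
      cXY_one.1, cXY_one.2]
    constructor <;> ring
  have h4 : cX (4 : RR) = 4 ∧ cY (4 : RR) = 0 := by
    have := cXY_int 4
    push_cast at this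
    exact this
  constructor
  · rintro ⟨c, hc⟩
    rw [← h1.1, ← h1.2, hc, (cXY_mul _ _).1, (cXY_mul _ _).2, h4.1, h4.2]
    exact ⟨⟨cX c, by ring⟩, ⟨cY c, by ring⟩⟩
  · rintro ⟨⟨a, ha⟩, ⟨b, hb⟩⟩
    refine ⟨mk (a, b), RR_ext ?_ ?_⟩
    · rw [h1.1, (cXY_mul _ _).1, h4.1, h4.2, (cXY_mk _).1, ha]
      ring
    · rw [h1.2, (cXY_mul _ _).2, h4.1, h4.2, (cXY_mk _).2, hb]
      ring

theorem r4_iff (D : RR) : r4 D = 1 ↔ (cX D + 2 * cY D) % 4 = 1 := by
  rw [r4_eq]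
  have h1 : (1 : ZMod 4) = ((1 : ℤ) : ZMod 4) := by norm_num
  rw [h1, ZMod.intCast_eq_intCast_iff_dvd_sub]
  push_cast
  omega

theorem mod_iff (D : RR) : (4 : RR) ∣ D - 1 ↔ r4 D = 1 ∧ nrm D % 4 = 1 := by
  rw [four_dvd_iff, r4_iff]
  have h := nrm_eq' D
  have h2 : (nrm D % 4 = 1) ↔ (cX D ^ 2 + cX D * cY D + 2 * cY D ^ 2) % 4 = 1 := by
    rw [← h]; omega
  rw [h2]
  generalize cX D = x
  generalize cY D = y
  have hx : ∀ (x y : ℤ), (x ^ 2 + x * y + 2 * y ^ 2) % 4 =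
      ((x % 4) ^ 2 + (x % 4) * (y % 4) + 2 * (y % 4) ^ 2) % 4 := by
    intro x y
    have e1 := Int.mod_modEq x 4
    have e2 := Int.mod_modEq y 4
    exact (((e1.pow 2).add (e1.mul e2)).add ((Int.ModEq.refl 2).mul (e2.pow 2))).symm
  rw [hx]
  have b1 := Int.emod_nonneg x (show (4 : ℤ) ≠ 0 by norm_num)
  have b2 := Int.emod_lt_of_pos x (show (0 : ℤ) < 4 by norm_num)
  have b3 := Int.emod_nonneg y (show (4 : ℤ) ≠ 0 by norm_num)
  have b4 := Int.emod_lt_of_pos y (show (0 : ℤ) < 4 by norm_num)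
  have k1 : ((4 : ℤ) ∣ x - 1 ∧ (4 : ℤ) ∣ y) ↔ (x % 4 = 1 ∧ y % 4 = 0) := by omega
  have k2 : (x + 2 * y) % 4 = 1 ↔ (x % 4 + 2 * (y % 4)) % 4 = 1 := by omega
  rw [k1, k2]
  generalize x % 4 = u at *
  generalize y % 4 = v at *
  interval_cases u <;> interval_cases v <;> norm_num

theorem cls_iff (D : RR) : ClsE D ↔ PS D ∧ Cl (PD D) := by
  constructor
  · rintro ⟨h1, h2, h3⟩
    obtain ⟨h4, h5⟩ := (mod_iff D).1 h2
    have hP : PS D := by
      refine ⟨⟨h4, ?_, h3⟩, h1⟩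
      intro hc
      have e1 : cj aR ∣ (4 : RR) := by
        have : (4 : RR) = (aR * 2) * cj aR := by
          have e : (4 : RR) = 2 * 2 := by norm_num
          rw [e]
          conv_lhs => rw [show (2 : RR) * 2 = aR * cj aR * 2 by rw [← two_eq]]
          ring
        rw [this]
        exact dvd_mul_left _ _
      have e2 : cj aR ∣ D - 1 := e1.trans h2
      have e3 : cj aR ∣ 1 := by
        have := dvd_sub hc e2
        rwa [sub_sub_cancel] at this
      exact prime_cjaR.not_isUnit (isUnit_of_dvd_one e3)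
    refine ⟨hP, fun π hπ => ((mem_PD hP.ne).1 hπ).1, ?_⟩
    rw [← nrm_prod, hP.prod]
    exact h5
  · rintro ⟨hP, -, h⟩
    rw [← nrm_prod, hP.prod] at h
    exact ⟨hP.sqf, (mod_iff D).2 ⟨hP.prm.r4, h⟩, hP.prm.cop7⟩

theorem card_eq (X : ℕ) (Q : Finset RR → Prop) :
    {D : RR | nrm D ≤ X ∧ ClsE D ∧ Q (PD D)}.ncard = ((SS X).filter Q).card := by
  have h1 : {D : RR | nrm D ≤ X ∧ ClsE D ∧ Q (PD D)} =
      (fun S : Finset RR => ∏ π ∈ S, π) '' (((SS X).filter Q : Finset (Finset RR)) :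
        Set (Finset RR)) := by
    ext D
    constructor
    · rintro ⟨h4, h2, h3⟩
      obtain ⟨hD, hC⟩ := (cls_iff D).1 h2
      refine ⟨PD D, ?_, hD.prod⟩
      rw [Finset.mem_coe, Finset.mem_filter]
      refine ⟨?_, h3⟩
      unfold SS
      rw [Finset.mem_filter, Finset.mem_powerset]
      refine ⟨fun π hπ => ?_, hC, ?_⟩
      · obtain ⟨h5, h6⟩ := (mem_PD hD.ne).1 hπ
        exact mem_QB.2 ⟨(norm_le_of_dvd hD.ne h6).trans h4, h5⟩
      · rw [← nrm_prod, hD.prod]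
        exact h4
    · rintro ⟨S, hS, rfl⟩
      rw [Finset.mem_coe, Finset.mem_filter] at hS
      obtain ⟨h1, h2⟩ := hS
      unfold SS at h1
      rw [Finset.mem_filter] at h1
      obtain ⟨-, h3, h4⟩ := h1
      obtain ⟨h5, h6⟩ := PS_prod h3.1
      refine ⟨?_, (cls_iff _).2 ⟨h5, by rw [h6]; exact h3⟩, by rw [h6]; exact h2⟩
      rw [nrm_prod]
      exact h4
  rw [h1, Set.InjOn.ncard_image, Set.ncard_coe_finset]
  intro S hS S' hS' h
  rw [Finset.mem_coe, Finset.mem_filter] at hS hS'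
  have e1 : ∀ π ∈ S, Pq π := by
    have := hS.1
    unfold SS at this
    exact (Finset.mem_filter.1 this).2.1.1
  have e2 : ∀ π ∈ S', Pq π := by
    have := hS'.1
    unfold SS at this
    exact (Finset.mem_filter.1 this).2.1.1
  rw [← (PS_prod e1).2, ← (PS_prod e2).2]
  exact congrArg PD h

theorem card_cls (X : ℕ) : {D : RR | nrm D ≤ X ∧ ClsE D}.ncard = (SS X).card := by
  have h := card_eq X (fun _ => True)
  rw [Finset.filter_true] at h
  rw [← h]
  congr 1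
  ext D
  simp only [Set.mem_ofPred_eq, and_true]

theorem card_good (X : ℕ) : {D : RR | nrm D ≤ X ∧ GoodE D}.ncard = ((SS X).filter Gd).card := by
  rw [← card_eq X Gd]
  rfl

theorem t_NS : S_NS := by
  intro h
  unfold S_DQ at h
  unfold S_DEN
  refine h.congr fun X => ?_
  rw [card_cls, card_good]

end Pool.Agent.R426.QK.NS
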