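import Pool.Agent.R426.QK.Sym
import Pool.Agent.R426.QD.Mn

/-!
# Project QK: the good elements and the determinant over the ring of integers of a number field
-/

set_option autoImplicit false
set_option linter.unusedSectionVars false

open scoped Classical
open Finset NumberField

namespace Pool.Agent.R426.QK

open Pool.Agent.R426.QD (r4 r4_eq r4_a Pn)
open Pool.Agent.R426.QC (matK)
open Pool.Agent.Y698
open Pool.Agent.Y698.SG hiding PD
open H667R3 Pool.Agent.W192.HK Pool.Agent.TH936.CM Pool.Agent.TH936.PU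

/-- the elements of the class are primary -/
lemma ClsE.prm {D : RR} (h : ClsE D) : QK.prm D := by
  obtain ⟨-, h4, h7⟩ := h
  refine ⟨?_, ?_, h7⟩
  · obtain ⟨c, hc⟩ := h4
    have h1 : D = 1 + 4 * c := by linear_combination hc
    rw [h1, map_add, map_one, r4_four, add_zero]
  · intro h1
    have h2 : cj aR ∣ D - 1 := by
      refine dvd_trans ?_ h4
      rw [four_eq]
      exact ((dvd_mul_left (cj aR) aR).mul_right _)
    have h3 := dvd_sub h1 h2
    rw [sub_sub_cancel] at h3
    exact prime_cjaR.not_isUnit (isUnit_of_dvd_one h3)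

lemma ClsE.ps {D : RR} (h : ClsE D) : PS D := ⟨h.prm, h.1⟩

/-- a prime divisor with residue `1` is a primary prime -/
lemma pq_of {D π : RR} (h : QK.prm D) (hπ : Prime π) (hd : π ∣ D) (h4 : r4 π = 1) : Pq π := by
  obtain ⟨-, h2, h3⟩ := not_dvd_of_prm hd h
  exact ⟨hπ, h4, h2, h3⟩

section

variable {K : Type} [Field K] [NumberField K] (e : RR ≃+* 𝓞 K)

/-- **the transfer of the determinant** -/
theorem det_iff {a : 𝓞 K} (hea : e aR = a) (hef : e fR = 2 * a - 1) {x : RR} (hx : ClsE x)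
    {S : Finset (𝓞 K)} (hS : ∀ p, p ∈ S ↔ Prime p ∧ p ∣ e x ∧ a ^ 2 ∣ p - 1)
    (hE : QD.Ev S (QC.pe e)) : (matK (2 * a - 1) S).det ≠ 0 ↔ Gd (PD x) := by
  have hx0 := hx.ps.ne
  have hmem : ∀ π : RR, e π ∈ S ↔ π ∈ PD x := by
    intro π
    have hpr : Prime (e π) ↔ Prime π := MulEquiv.prime_iff e.toMulEquiv
    rw [hS, mem_PD hx0, map_dvd_iff e, hpr]
    have h3 : a ^ 2 ∣ e π - 1 ↔ r4 π = 1 := by
      rw [QD.r4_dvd, ← map_dvd_iff e, map_pow, hea, map_sub, map_one]
    rw [h3]
    constructor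
    · rintro ⟨h1, h2, h4⟩
      exact ⟨pq_of hx.prm h1 h2 h4, h2⟩
    · rintro ⟨h1, h2⟩
      exact ⟨h1.prime, h2, h1.prm.r4⟩
  have himg : S = (PD x).map e.toEquiv.toEmbedding := by
    ext p
    rw [Finset.mem_map_equiv]
    have h0 : (e.toEquiv.symm p : RR) = e.symm p := rfl
    rw [h0, ← hmem, e.apply_symm_apply]
  rw [← QD.mat_gdD e hef hE]
  have hk : gd (mc (QC.pe e)) (mr (QC.pe e)) S = 0 ↔ ¬ Gd (PD x) := by
    rw [QD.gd_zero_iff]
    unfold QD.Kr Gd Sol
    constructor
    · rintro ⟨v, h1, p, hp, hv⟩ hG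
      have h2 := hG (fun π => v (e π)) (fun π hπ => by
        have h3 := h1 (e π) ((hmem π).2 hπ)
        rw [himg, sum_map] at h3
        have e1 : mc (QC.pe e) (e π) = ss π := by
          show lg (e7 (e.symm (e π))) = _
          rw [e.symm_apply_apply]
          rfl
        rw [e1] at h3
        rw [← h3]
        congr 1
        refine sum_congr rfl fun ρ _ => ?_
        show cs ρ π * _ = mr (QC.pe e) (e π) (e ρ) * _
        have e2 : mr (QC.pe e) (e π) (e ρ) = cs ρ π := by
          show lg (sy (e.symm (e ρ)) (e.symm (e π))) = _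
          rw [e.symm_apply_apply, e.symm_apply_apply]
          rfl
        rw [e2]
        rfl) (e.symm p) ((hmem _).1 (by rw [e.apply_symm_apply]; exact hp))
      apply hv
      simpa using h2
    · intro hG
      push Not at hG
      obtain ⟨v, h1, π, hπ, hv⟩ := hG
      refine ⟨fun p => v (e.symm p), ?_, e π, (hmem π).2 hπ, by simpa using hv⟩
      intro p hp
      have h2 := h1 (e.symm p) ((hmem _).1 (by rw [e.apply_symm_apply]; exact hp))
      rw [himg, sum_map]
      rw [← h2]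
      congr 1
      refine sum_congr rfl fun ρ _ => ?_
      have e3 : ((e.toEquiv.toEmbedding : RR → 𝓞 K) ρ) = e ρ := rfl
      rw [e3]
      show lg (sy (e.symm (e ρ)) (e.symm p)) * (v (e.symm p) + v (e.symm (e ρ))) = _
      rw [e.symm_apply_apply]
      rfl
  constructor
  · intro h
    by_contra hG
    exact h (hk.2 hG)
  · intro h h0
    exact hk.1 h0 h

/-- the norm -/
lemma absNorm_e (x : RR) : Ideal.absNorm (Ideal.span {e x}) = nrm x := by
  rw [Ideal.absNorm_apply, Submodule.cardQuot_apply]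
  have h1 : Nat.card (𝓞 K ⧸ Ideal.span {e x}) = Nat.card (RR ⧸ sp x) := by
    refine Nat.card_congr (Ideal.quotientEquiv (sp x) (Ideal.span {e x}) e ?_).symm.toEquiv
    rw [Ideal.map_span, Set.image_singleton]
    rfl
  rw [h1]
  by_cases h0 : x = 0
  · subst h0
    have h2 : nrm (0 : RR) = 0 := nrm_zero_iff.2 rfl
    rw [h2]
    have h3 : sp (0 : RR) = ⊥ := by
      show Ideal.span {0} = ⊥
      rw [Ideal.span_singleton_eq_bot]
    rw [h3]
    have h4 : Infinite (RR ⧸ (⊥ : Ideal RR)) := by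
      have : Infinite RR := by
        refine Infinite.of_injective (fun n : ℕ => (n : RR)) ?_
        exact Nat.cast_injective
      exact Infinite.of_injective (Ideal.Quotient.mk (⊥ : Ideal RR)) (by
        rw [RingHom.injective_iff_ker_eq_bot, Ideal.mk_ker])
    exact Nat.card_eq_zero_of_infinite
  · have h2 := card_sp x
    have h3 : (nrm x : ℤ) = nR x := nrm_cast x
    have h4 : (Nat.card (RR ⧸ sp x) : ℤ) = (nrm x : ℤ) := by rw [h2, h3]
    exact_mod_cast h4

/-- the count -/
lemma ncard_e (X : ℕ) (P : 𝓞 K → Prop) (Q : RR → Prop) (h : ∀ x, P (e x) ↔ Q x) :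
    {D : 𝓞 K | Ideal.absNorm (Ideal.span {D}) ≤ X ∧ P D}.ncard = {x : RR | nrm x ≤ X ∧ Q x}.ncard := by
  rw [← Set.ncard_image_of_injective {x : RR | nrm x ≤ X ∧ Q x} e.injective]
  congr 1
  ext D
  simp only [Set.mem_ofPred_eq, Set.mem_image]
  constructor
  · rintro ⟨h1, h2⟩
    refine ⟨e.symm D, ⟨?_, ?_⟩, e.apply_symm_apply D⟩
    · rw [← absNorm_e e, e.apply_symm_apply]
      exact h1
    · rw [← h, e.apply_symm_apply]
      exact h2
  · rintro ⟨x, ⟨h1, h2⟩, rfl⟩
    exact ⟨by rw [absNorm_e]; exact h1, (h x).2 h2⟩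

end

end Pool.Agent.R426.QK
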