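import Pool.Agent.R426.QK.Asy
import Pool.Agent.R426.QK.NS
import Pool.Agent.R426.QK.BOX
import Pool.Agent.R426.QK.EQ
import Pool.Agent.R426.QK.LA1
import Pool.Agent.R426.QK.LA2
import Pool.Agent.R426.QK.KEY
import Pool.Agent.R426.QK.FB
import Pool.Agent.R426.QK.CNT
import Pool.Agent.R426.QK.LA3
import Pool.Agent.R426.QK.MOM
import Pool.Agent.R426.QK.Bil
import Pool.Agent.R426.QK.Tr
import Pool.Agent.R426.QK.LOW

/-!
# Project QK: the assembly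
-/

set_option autoImplicit false

open scoped Classical

namespace Pool.Agent.R426.QK

open Finset Filter
open Pool.Agent.Y698 (RR)

theorem t_LA : S_LA := LA3.t_LA3 MOM.t_MOM LA1.t_LA1 LA2.t_LA2

theorem t_DEN : S_DEN :=
  NS.t_NS (Asy.t_DQ recP t_BIL EQ.t_EQ t_LA BOX.t_BOX KEY.t_KEY CNT.t_CNT (FB.t_BAD recP t_HALL t_MERT)
    (FB.t_FEW t_HALL t_MERT) LOW.t_LOW MOM.t_C2)

/-- at least a positive constant times `X` -/
theorem good_low : ∃ (δ : ℝ) (X₀ : ℕ), 0 < δ ∧ ∀ X : ℕ, X₀ ≤ X →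
    δ * X ≤ ({D : RR | nrm D ≤ X ∧ GoodE D}.ncard : ℝ) := by
  obtain ⟨c, X₁, hc, h1⟩ := LOW.t_LOW
  have h2 := t_DEN
  obtain ⟨-, hc0, -⟩ := MOM.t_C2
  have h3 : ∀ᶠ X : ℕ in atTop, c2 / 2 < ({D : RR | nrm D ≤ X ∧ GoodE D}.ncard : ℝ) /
      ({D : RR | nrm D ≤ X ∧ ClsE D}.ncard : ℝ) :=
    (tendsto_order.1 h2).1 (c2 / 2) (by linarith)
  obtain ⟨X₂, h4⟩ := eventually_atTop.1 h3
  refine ⟨c * (c2 / 2), max X₁ (max X₂ 1), by positivity, fun X hX => ?_⟩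
  have h5 := h4 X (le_trans (le_max_left _ _) ((le_max_right _ _).trans hX))
  have h6 := h1 X ((le_max_left _ _).trans hX)
  have hX1 : (1 : ℝ) ≤ X := by
    have : 1 ≤ X := le_trans (le_max_right X₂ 1) ((le_max_right _ _).trans hX)
    exact_mod_cast this
  rw [← NS.card_cls X] at h6
  have h7 : 0 < ({D : RR | nrm D ≤ X ∧ ClsE D}.ncard : ℝ) := lt_of_lt_of_le (by positivity) h6
  rw [lt_div_iff₀ h7] at h5
  nlinarith

end Pool.Agent.R426.QK
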