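import Pool.Agent.R426.QK.Sym

/-!
# Project QK: sums of symbols

Adapted from `Pool/Agent/Y699/E/Jsum.lean` (helper699).
-/

set_option autoImplicit false
set_option linter.unusedSectionVars false

open scoped Classical
open Finset

namespace Pool.Agent.R426.QK

open Pool.Agent.R426.QD (r4 r4_eq r4_a Pn)
open Pool.Agent.Y698 Pool.Agent.Y698.SG
open H667R3 Pool.Agent.W192.HK Pool.Agent.TH936.CM Pool.Agent.TH936.PU
open scoped ComplexConjugate

/-- an element with `e7 = 1` and `kp = -1` -/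
noncomputable def el11 : RR := mk (1, 2)

lemma nrm_el11 : nrm el11 = 11 := by
  unfold el11 nrm nR
  rw [(cXY_mk _).1, (cXY_mk _).2]
  norm_num

lemma e7_el11 : e7 el11 = 1 := by
  have h1 : e7 el11 = e7 ((2 : ℕ) : RR) := by
    apply e7_per
    rw [mem_sp]
    refine ⟨1, ?_⟩
    unfold el11 mk fR
    push_cast
    ring
  rw [h1, e7_nat, qc7.2.2.1]
  norm_num

lemma prm_el11 : prm el11 ∧ kp el11 = -1 := by
  have hd : ∀ x : RR, x ∣ el11 → nrm x ∣ 11 := by
    rintro x ⟨c, hc⟩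
    rw [← nrm_el11, hc, nrm_mul]
    exact dvd_mul_right _ _
  refine ⟨⟨?_, ?_, ?_⟩, ?_⟩
  · rw [r4_eq]
    unfold el11
    rw [(cXY_mk _).1, (cXY_mk _).2]
    decide
  · intro h
    have h1 := hd _ h
    have h2 : nrm (cj aR) = 2 := by
      have h3 := congrArg nrm two_eq
      rw [nrm_mul] at h3
      have h4 : nrm (2 : RR) = 4 := by
        unfold nrm nR
        have e : (2 : RR) = ((2 : ℤ) : RR) := by push_cast; rfl
        rw [e, (cXY_int _).1, (cXY_int _).2]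
        norm_num
      have h5 : nrm aR = 2 := by
        unfold nrm nR
        rw [cXY_aR.1, cXY_aR.2]
        norm_num
      rw [h4, h5] at h3
      omega
    rw [h2] at h1
    norm_num at h1
  · intro h
    have h1 := e7_eq_zero.2 (mem_sp.2 h)
    rw [e7_el11] at h1
    norm_num at h1
  · unfold kp
    rw [nrm_el11]
    norm_num

open Classical in
/-- the product of two symbols and of the characters of conductor `√-7` and `4`, on primary elements -/
noncomputable def FF (x x' : RR) (i j : ℕ) (a : RR) : ℂ :=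
  if prm a then jac x a * jac x' a * (e7 a ^ i * kp a ^ j) else 0

lemma FF_V3 (x x' : RR) (i j : ℕ) (a : RR) : V3 (FF x x' i j a) := by
  unfold FF
  split_ifs
  · exact ((jac_V3 _ _).mul (jac_V3 _ _)).mul (((e7_V3 _).pow _).mul ((kp_V3 _).pow _))
  · exact Or.inl rfl

lemma FF_symm (x x' : RR) (i j : ℕ) (a : RR) : FF x x' i j a = FF x' x i j a := by
  unfold FF
  rw [mul_comm (jac x a)]

lemma FF_tw {x x' : RR} (hx : PS x) (hx' : PS x') {i j : ℕ} {c : RR} (hc1 : prm c)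
    (hc : jac x c * jac x' c * (e7 c ^ i * kp c ^ j) = -1) (V : ℕ) :
    ‖∑ a ∈ ZB V, FF x x' i j a‖ ≤ 336 * (nrm x * nrm x') * (3 * Real.sqrt V + 1) := by
  classical
  have hq : q0 * (x * x') ≠ 0 := mul_ne_zero q0_ne (mul_ne_zero hx.ne hx'.ne)
  have hne : jac x c ≠ 0 ∧ jac x' c ≠ 0 := by
    constructor
    · intro h
      rw [h] at hc
      norm_num at hc
    · intro h
      rw [h] at hc
      norm_num at hc
  have hcop : IsCoprime c (q0 * (x * x')) :=
    IsCoprime.mul_right (prm_cop hc1) (IsCoprime.mul_right (jac_cop hx hne.1).symm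
      (jac_cop hx' hne.2).symm)
  have h3 := csum hq (f := FF x x' i j) (z := -1) ?_ (fun a => (FF_V3 x x' i j a).norm) hcop
    (by norm_num) ?_ V
  · refine h3.trans (le_of_eq ?_)
    rw [nrm_mul, nrm_mul, nrm_q0]
    push_cast
    ring
  · intro a b hab
    unfold FF
    have e1 : q0 ∣ a - b := (dvd_mul_right _ _).trans hab
    have e1' : q0 ∣ b - a := by
      rw [← neg_sub]
      exact e1.neg_right
    have e2 : x ∣ a - b := ((dvd_mul_right _ _).trans (dvd_mul_left _ _)).trans hab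
    have e3 : x' ∣ a - b := ((dvd_mul_left _ _).trans (dvd_mul_left _ _)).trans hab
    have e4 : prm a ↔ prm b := ⟨prm_per e1, prm_per e1'⟩
    rw [jac_per hx.ne e2, jac_per hx'.ne e3, e7_per' e1, kp_per' e1]
    by_cases h : prm a
    · rw [if_pos h, if_pos (e4.1 h)]
    · rw [if_neg h, if_neg (fun hh => h (e4.2 hh))]
  · intro a
    unfold FF
    have e4 : prm (c * a) ↔ prm a :=
      ⟨fun h => prm_cancel hc1 h, fun h => prm_mul hc1 h⟩
    by_cases h : prm a
    · rw [if_pos h, if_pos (e4.2 h), jac_mul_right hx.ne, jac_mul_right hx'.ne, e7_mul, kp_mul,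
        ← hc, mul_pow, mul_pow]
      ring
    · rw [if_neg h, if_neg (fun hh => h (e4.1 hh)), mul_zero]

lemma FF_sum_aux {x x' : RR} (hx : PS x) (hx' : PS x') {π : RR} (h1 : π ∈ PD x) (h2 : π ∉ PD x')
    (i j : ℕ) (V : ℕ) :
    ‖∑ a ∈ ZB V, FF x x' i j a‖ ≤ 336 * (nrm x * nrm x') * (3 * Real.sqrt V + 1) := by
  classical
  have hπ := ((mem_PD hx.ne).1 h1).1
  have hS : ∀ ρ ∈ (PD x).erase π ∪ PD x', Pq ρ := by
    intro ρ hρ
    rw [mem_union] at hρ
    rcases hρ with h | h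
    · exact ((mem_PD hx.ne).1 (mem_of_mem_erase h)).1
    · exact ((mem_PD hx'.ne).1 h).1
  obtain ⟨c, hc1, hc2, hc3⟩ := exists_twist hS hπ (by
    rw [mem_union, not_or]
    exact ⟨notMem_erase _ _, h2⟩)
  have hjx : jac x c = -1 := by
    unfold jac
    rw [← mul_prod_erase (PD x) _ h1, prod_eq_one, mul_one, hc2]
    intro ρ hρ
    exact hc3 ρ (mem_union_left _ hρ)
  have hjx' : jac x' c = 1 := prod_eq_one fun ρ hρ => hc3 ρ (mem_union_right _ hρ)
  have hc1' : q0 ∣ 1 - c := by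
    rw [← neg_sub]
    exact hc1.neg_right
  refine FF_tw hx hx' (prm_per hc1' prm_one) ?_ V
  rw [hjx, hjx', e7_per' hc1, kp_per' hc1, e7_one, kp_one]
  simp

/-- sums of nonprincipal characters -/
theorem FF_sum {x x' : RR} (hx : PS x) (hx' : PS x') {i j : ℕ} (hi : i < 2) (hj : j < 2)
    (hne : x ≠ x' ∨ i ≠ 0 ∨ j ≠ 0) (V : ℕ) :
    ‖∑ a ∈ ZB V, FF x x' i j a‖ ≤ 336 * (nrm x * nrm x') * (3 * Real.sqrt V + 1) := by
  classical
  by_cases hxx : x = x'
  · subst hxx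
    have hij : i ≠ 0 ∨ j ≠ 0 := by
      rcases hne with h | h
      · exact absurd rfl h
      · exact h
    have hS : ∀ ρ ∈ PD x, Pq ρ := fun ρ hρ => ((mem_PD hx.ne).1 hρ).1
    have key : ∀ c₀ : RR, prm c₀ → e7 c₀ ^ i * kp c₀ ^ j = -1 →
        ‖∑ a ∈ ZB V, FF x x i j a‖ ≤ 336 * (nrm x * nrm x) * (3 * Real.sqrt V + 1) := by
      intro c₀ h0 h1
      obtain ⟨c, hc1, hc2⟩ := exists_twist0 hS c₀
      have hc1' : q0 ∣ c₀ - c := by
        rw [← neg_sub]
        exact hc1.neg_right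
      have hj1 : jac x c = 1 := prod_eq_one hc2
      refine FF_tw hx hx (prm_per hc1' h0) ?_ V
      rw [hj1, e7_per' hc1, kp_per' hc1, h1]
      norm_num
    by_cases hj0 : j = 0
    · have hi1 : i = 1 := by
        rcases hij with h | h
        · omega
        · exact absurd hj0 h
      obtain ⟨a1, a2, a3⟩ := el5
      refine key 5 a1 ?_
      rw [hj0, hi1, a2]
      norm_num
    · have hj1 : j = 1 := by omega
      refine key el11 prm_el11.1 ?_
      rw [e7_el11, prm_el11.2, hj1]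
      norm_num
  · have h1 : PD x ≠ PD x' := by
      intro h
      apply hxx
      rw [← hx.prod, ← hx'.prod, h]
    by_cases h2 : PD x ⊆ PD x'
    · have h3 : ¬ PD x' ⊆ PD x := fun h => h1 (Subset.antisymm h2 h)
      obtain ⟨π, hπ, hπ'⟩ := not_subset.1 h3
      have := FF_sum_aux hx' hx hπ hπ' i j V
      simp_rw [FF_symm x x']
      rw [mul_comm (nrm x : ℝ)]
      exact this
    · obtain ⟨π, hπ, hπ'⟩ := not_subset.1 h2
      exact FF_sum_aux hx hx' hπ hπ' i j V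

lemma mem_SB {M : ℕ} {x : RR} : x ∈ SB M ↔ nrm x ≤ M ∧ PS x := by
  unfold SB; rw [mem_filter, mem_ZB]

lemma mem_PB {M : ℕ} {x : RR} : x ∈ PB M ↔ nrm x ≤ M ∧ prm x := by
  unfold PB; rw [mem_filter, mem_ZB]

lemma card_SB_le {M : ℕ} (hM : 1 ≤ M) : ((SB M).card : ℝ) ≤ 16 * M := by
  refine le_trans ?_ (card_ZB_le hM)
  exact_mod_cast card_le_card (filter_subset _ _)

lemma card_PB_le {M : ℕ} (hM : 1 ≤ M) : ((PB M).card : ℝ) ≤ 16 * M := by
  refine le_trans ?_ (card_ZB_le hM)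
  exact_mod_cast card_le_card (filter_subset _ _)

/-- the mean square -/
theorem mean_sq {γ : RR → ℂ} (hγ : ∀ x, ‖γ x‖ ≤ 1) {M N : ℕ} (hM : 1 ≤ M) (hMN : M ^ 6 ≤ N) :
    ∑ h ∈ PB N, ‖∑ x ∈ SB M, γ x * jac x h‖ ^ 2 ≤ 347904 * (M * N) := by
  have hN : 1 ≤ N := (Nat.one_le_pow _ _ hM).trans hMN
  have hMr : (1 : ℝ) ≤ M := by exact_mod_cast hM
  have hNr : (1 : ℝ) ≤ N := by exact_mod_cast hN
  have e1 : ((∑ h ∈ PB N, ‖∑ x ∈ SB M, γ x * jac x h‖ ^ 2 : ℝ) : ℂ) =
      ∑ x ∈ SB M, ∑ x' ∈ SB M, γ x * conj (γ x') * ∑ h ∈ ZB N, FF x x' 0 0 h := by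
    have e2 : ∀ h ∈ PB N, ((‖∑ x ∈ SB M, γ x * jac x h‖ ^ 2 : ℝ) : ℂ) =
        ∑ x ∈ SB M, ∑ x' ∈ SB M, γ x * conj (γ x') * (jac x h * jac x' h * (e7 h ^ 0 * kp h ^ 0)) := by
      intro h _
      rw [← Complex.normSq_eq_norm_sq, ← Complex.mul_conj, map_sum, sum_mul_sum]
      refine sum_congr rfl fun x _ => sum_congr rfl fun x' _ => ?_
      rw [map_mul, (jac_V3 x' h).conj]
      ring
    rw [Complex.ofReal_sum, sum_congr rfl e2, sum_comm]
    refine sum_congr rfl fun x _ => ?_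
    rw [sum_comm]
    refine sum_congr rfl fun x' _ => ?_
    rw [← mul_sum]
    congr 1
    unfold PB FF
    rw [sum_filter]
  have e0 : ∑ h ∈ PB N, ‖∑ x ∈ SB M, γ x * jac x h‖ ^ 2 ≤
      ‖∑ x ∈ SB M, ∑ x' ∈ SB M, γ x * conj (γ x') * ∑ h ∈ ZB N, FF x x' 0 0 h‖ := by
    rw [← e1, Complex.norm_real]
    exact le_abs_self _
  refine e0.trans ?_
  have hs : Real.sqrt N ^ 2 = N := Real.sq_sqrt (Nat.cast_nonneg N)
  have hs1 : 1 ≤ Real.sqrt N := Real.one_le_sqrt.2 hNr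
  have hM3 : (M : ℝ) ^ 3 ≤ Real.sqrt N := by
    rw [Real.le_sqrt (by positivity) (by positivity)]
    have : (M : ℝ) ^ 6 ≤ N := by exact_mod_cast hMN
    have e : ((M : ℝ) ^ 3) ^ 2 = (M : ℝ) ^ 6 := by ring
    rw [e]
    exact this
  have hterm : ∀ x ∈ SB M, ∀ x' ∈ SB M, ‖γ x * conj (γ x') * ∑ h ∈ ZB N, FF x x' 0 0 h‖ ≤
      (if x = x' then 16 * (N : ℝ) else 0) + 336 * ((M : ℝ) * M) * (3 * Real.sqrt N + 1) := by
    intro x hx x' hx'
    have hg : ‖γ x * conj (γ x')‖ ≤ 1 := by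
      rw [norm_mul, Complex.norm_conj]
      exact mul_le_one₀ (hγ _) (norm_nonneg _) (hγ _)
    have h1 : ‖γ x * conj (γ x') * ∑ h ∈ ZB N, FF x x' 0 0 h‖ ≤ ‖∑ h ∈ ZB N, FF x x' 0 0 h‖ := by
      rw [norm_mul]
      exact mul_le_of_le_one_left (norm_nonneg _) hg
    refine h1.trans ?_
    have hpos : (0 : ℝ) ≤ 336 * ((M : ℝ) * M) * (3 * Real.sqrt N + 1) := by positivity
    by_cases hxx : x = x'
    · rw [if_pos hxx]
      refine le_trans ?_ (le_add_of_nonneg_right hpos)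
      refine (norm_sum_le _ _).trans ((sum_le_sum fun h _ => (FF_V3 _ _ _ _ _).norm).trans ?_)
      rw [sum_const, nsmul_eq_mul, mul_one]
      exact card_ZB_le hN
    · rw [if_neg hxx, zero_add]
      refine (FF_sum (mem_SB.1 hx).2 (mem_SB.1 hx').2 (by norm_num) (by norm_num)
        (Or.inl hxx) N).trans ?_
      have a1 : (nrm x : ℝ) ≤ M := by exact_mod_cast (mem_SB.1 hx).1
      have a2 : (nrm x' : ℝ) ≤ M := by exact_mod_cast (mem_SB.1 hx').1
      have a3 : (nrm x : ℝ) * nrm x' ≤ M * M := mul_le_mul a1 a2 (Nat.cast_nonneg _) (by positivity)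
      gcongr
  refine ((norm_sum_le _ _).trans (sum_le_sum fun x hx => (norm_sum_le _ _).trans
    (sum_le_sum fun x' hx' => hterm x hx x' hx'))).trans ?_
  have hc := card_SB_le hM
  have e3 : ∑ x ∈ SB M, ∑ x' ∈ SB M, ((if x = x' then 16 * (N : ℝ) else 0) +
      336 * ((M : ℝ) * M) * (3 * Real.sqrt N + 1)) =
      (SB M).card * (16 * N) + (SB M).card * ((SB M).card * (336 * ((M : ℝ) * M) * (3 * Real.sqrt N + 1))) := by
    simp_rw [sum_add_distrib, sum_const, nsmul_eq_mul]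
    congr 1
    rw [sum_congr rfl (fun x hx => by rw [sum_ite_eq, if_pos hx])]
    rw [sum_const, nsmul_eq_mul]
  rw [e3]
  have hc0 : (0 : ℝ) ≤ (SB M).card := Nat.cast_nonneg _
  have h4 : ((SB M).card : ℝ) * (SB M).card ≤ (16 * M) * (16 * M) := mul_le_mul hc hc hc0 (by positivity)
  have h5 : (M : ℝ) ^ 3 * (3 * Real.sqrt N + 1) ≤ 4 * N := by
    calc (M : ℝ) ^ 3 * (3 * Real.sqrt N + 1) ≤ Real.sqrt N * (4 * Real.sqrt N) := by
          apply mul_le_mul hM3 _ (by positivity) (by positivity)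
          linarith
      _ = 4 * N := by nlinarith
  calc (SB M).card * (16 * (N : ℝ)) + (SB M).card * ((SB M).card * (336 * ((M : ℝ) * M) * (3 * Real.sqrt N + 1)))
      ≤ (16 * M) * (16 * N) + (16 * M) * (16 * M) * (336 * ((M : ℝ) * M) * (3 * Real.sqrt N + 1)) := by
        rw [← mul_assoc ((SB M).card : ℝ) ((SB M).card : ℝ)]
        gcongr
    _ = 256 * (M * N) + 86016 * (M * ((M : ℝ) ^ 3 * (3 * Real.sqrt N + 1))) := by ring
    _ ≤ 256 * (M * N) + 86016 * (M * (4 * N)) := by gcongr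
    _ ≤ 347904 * (M * N) := by
      have : (0 : ℝ) ≤ M * N := by positivity
      linarith

end Pool.Agent.R426.QK
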