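import Pool.Agent.R426.QK.Stm

/-!
# Signs of classes modulo two, sums over pairs of indices (for QK-LA1, QK-LA2)
-/

set_option autoImplicit false
set_option linter.unusedVariables false

open scoped Classical

namespace Pool.Agent.R426.QK.LA0

open Finset

/-- the sign -/
def ch (z : ZMod 2) : ℤ := if z = 0 then 1 else -1

theorem ch_add : ∀ x y : ZMod 2, ch (x + y) = ch x * ch y := by decide

theorem ch_zero : ch 0 = 1 := by decide

theorem ch_abs : ∀ x : ZMod 2, |ch x| = 1 := by decide

theorem ch_sum {ι : Type} (s : Finset ι) (f : ι → ZMod 2) :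
    ch (∑ i ∈ s, f i) = ∏ i ∈ s, ch (f i) := by
  induction s using Finset.induction_on with
  | empty => simp [ch_zero]
  | insert a s ha ih => rw [Finset.sum_insert ha, Finset.prod_insert ha, ch_add, ih]

theorem sum_ch_one : ∀ a : ZMod 2, ∑ z : ZMod 2, ch (z * a) = if a = 0 then 2 else 0 := by decide

/-- orthogonality -/
theorem sum_ch {ι : Type} [Fintype ι] [DecidableEq ι] (a : ι → ZMod 2) :
    ∑ f : ι → ZMod 2, ch (∑ i, f i * a i) =
      if ∀ i, a i = 0 then (2 : ℤ) ^ Fintype.card ι else 0 := by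
  have h1 : ∑ f : ι → ZMod 2, ch (∑ i, f i * a i) = ∏ i, ∑ z : ZMod 2, ch (z * a i) := by
    rw [Finset.prod_univ_sum, Fintype.piFinset_univ]
    exact Finset.sum_congr rfl fun f _ => ch_sum _ _
  rw [h1, Finset.prod_congr rfl fun i _ => sum_ch_one (a i)]
  by_cases h : ∀ i, a i = 0
  · rw [if_pos h, Finset.prod_congr rfl fun i _ => if_pos (h i), Finset.prod_const,
      Finset.card_univ]
  · rw [if_neg h]
    push Not at h
    obtain ⟨i, hi⟩ := h
    exact Finset.prod_eq_zero (Finset.mem_univ i) (if_neg hi)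

theorem two0 : (2 : ZMod 2) = 0 := by decide

theorem add_self0 (x : ZMod 2) : x + x = 0 := CharTwo.add_self_eq_zero x

theorem add_eq0 {x y : ZMod 2} : x + y = 0 ↔ x = y := by
  constructor
  · intro h
    have h1 := congrArg (· + y) h
    simp only [add_assoc, add_self0, add_zero, zero_add] at h1
    exact h1
  · rintro rfl
    exact add_self0 x

theorem sq0 : ∀ x : ZMod 2, x * x = x := by decide

/-- a sum over all ordered pairs -/
theorem sum_pairs {ι M : Type} [Fintype ι] [LinearOrder ι] [AddCommMonoid M] (f : ι → ι → M) :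
    ∑ k, ∑ l, f k l = ∑ e ∈ prs ι, (f e.1 e.2 + f e.2 e.1) + ∑ k, f k k := by
  have h0 : ∑ k, ∑ l, f k l = ∑ e : ι × ι, f e.1 e.2 := by
    rw [← Finset.univ_product_univ, Finset.sum_product]
  have h1 : ∑ e : ι × ι, f e.1 e.2 = ∑ e ∈ prs ι, f e.1 e.2 +
      (∑ e ∈ univ.filter (fun e : ι × ι => e.2 < e.1), f e.1 e.2 +
        ∑ e ∈ univ.filter (fun e : ι × ι => e.1 = e.2), f e.1 e.2) := by
    unfold prs
    rw [← Finset.sum_filter_add_sum_filter_not univ (fun e : ι × ι => e.1 < e.2)]
    congr 1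
    rw [← Finset.sum_filter_add_sum_filter_not (univ.filter (fun e : ι × ι => ¬ e.1 < e.2))
      (fun e : ι × ι => e.2 < e.1)]
    congr 1
    · refine Finset.sum_congr ?_ fun _ _ => rfl
      ext e
      simp only [Finset.mem_filter, Finset.mem_univ, true_and, not_lt]
      exact ⟨fun h => h.2, fun h => ⟨h.le, h⟩⟩
    · refine Finset.sum_congr ?_ fun _ _ => rfl
      ext e
      simp only [Finset.mem_filter, Finset.mem_univ, true_and, not_lt]
      exact ⟨fun h => le_antisymm h.2 h.1, fun h => ⟨h.ge, h.le⟩⟩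
  have h2 : ∑ e ∈ univ.filter (fun e : ι × ι => e.2 < e.1), f e.1 e.2 =
      ∑ e ∈ prs ι, f e.2 e.1 := by
    unfold prs
    refine Finset.sum_nbij' (fun e => (e.2, e.1)) (fun e => (e.2, e.1)) ?_ ?_ ?_ ?_ ?_
    · intro e he
      simpa using he
    · intro e he
      simpa using he
    · intro e _; rfl
    · intro e _; rfl
    · intro e _; rfl
  have h3 : ∑ e ∈ univ.filter (fun e : ι × ι => e.1 = e.2), f e.1 e.2 = ∑ k, f k k := by
    refine Finset.sum_nbij' (fun e => e.1) (fun k => (k, k)) ?_ ?_ ?_ ?_ ?_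
    · intro e _
      exact Finset.mem_univ _
    · intro k _
      simp
    · rintro ⟨a, b⟩ he
      simp only [Finset.mem_filter, Finset.mem_univ, true_and] at he
      rw [he]
    · intro k _; rfl
    · rintro ⟨a, b⟩ he
      simp only [Finset.mem_filter, Finset.mem_univ, true_and] at he
      rw [he]
  rw [h0, h1, h2, h3, Finset.sum_add_distrib, add_assoc]

theorem prs_card (m : ℕ) : (prs (Fin m)).card = m.choose 2 := by
  have h := sum_pairs (ι := Fin m) (fun _ _ => (1 : ℕ))
  simp only [Finset.sum_const, Finset.card_univ, Fintype.card_fin, smul_eq_mul, mul_one] at h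
  rw [Nat.choose_two_right]
  have h1 : m * (m - 1) = 2 * (prs (Fin m)).card := by
    rw [Nat.mul_sub, mul_one]
    omega
  rw [h1]
  simp

/-- the extension by zero of a function on the pairs -/
noncomputable def aa {ι : Type} [Fintype ι] [LinearOrder ι] (α : prs ι → ZMod 2) (e : ι × ι) :
    ZMod 2 := if h : e ∈ prs ι then α ⟨e, h⟩ else 0

theorem mem_prs {ι : Type} [Fintype ι] [LinearOrder ι] {e : ι × ι} :
    e ∈ prs ι ↔ e.1 < e.2 := by
  unfold prs
  simp

theorem aa_pos {ι : Type} [Fintype ι] [LinearOrder ι] (α : prs ι → ZMod 2) (e : prs ι) :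
    aa α e.1 = α e := by
  unfold aa
  rw [dif_pos e.2]

theorem aa_neg {ι : Type} [Fintype ι] [LinearOrder ι] (α : prs ι → ZMod 2) {e : ι × ι}
    (h : ¬ e.1 < e.2) : aa α e = 0 := by
  unfold aa
  rw [dif_neg (fun h' => h (mem_prs.1 h'))]

theorem sum_aa {ι : Type} [Fintype ι] [LinearOrder ι] (α : prs ι → ZMod 2)
    (F : ι × ι → ZMod 2) : ∑ e : prs ι, α e * F e.1 = ∑ e ∈ prs ι, aa α e * F e := by
  rw [← Finset.sum_coe_sort (prs ι) (fun e => aa α e * F e)]
  exact Finset.sum_congr rfl fun e _ => by rw [aa_pos]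

/-- a sum of a symmetric function with zero diagonal -/
theorem sum_sym {ι : Type} [Fintype ι] (f : ι → ι → ZMod 2) (hs : ∀ i j, f i j = f j i)
    (h0 : ∀ i, f i i = 0) : ∑ i, ∑ j, f i j = 0 := by
  have h1 : ∑ i, ∑ j, f i j = ∑ e : ι × ι, f e.1 e.2 := by
    rw [← Finset.univ_product_univ, Finset.sum_product]
  rw [h1]
  refine Finset.sum_involution (fun e _ => (e.2, e.1)) ?_ ?_ ?_ ?_
  · intro e _
    rw [hs e.1 e.2]
    exact add_self0 _
  · rintro ⟨a, b⟩ _ hne h
    have h2 : b = a := congrArg Prod.fst h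
    subst h2
    exact hne (h0 _)
  · intro e _
    exact Finset.mem_univ _
  · intro e _
    rfl

/-- the polarization of the sum of the rows -/
theorem polar {P : Type} [Fintype P] (s t : P → ZMod 2) (M : P → P → ZMod 2)
    (hM : ∀ p q, p ≠ q → M p q + M q p = t p * t q) (x y : P → ZMod 2) :
    ∑ p, y p * (s p * x p + ∑ q, M p q * (x p + x q)) +
      ∑ p, x p * (s p * y p + ∑ q, M p q * (y p + y q)) =
    (∑ p, t p * x p) * (∑ p, t p * y p) + ∑ p, t p * (x p * y p) := by
  have h1 : ∀ p, y p * (s p * x p + ∑ q, M p q * (x p + x q)) +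
      x p * (s p * y p + ∑ q, M p q * (y p + y q)) =
      ∑ q, (M p q * (y p * x q) + M p q * (x p * y q)) := by
    intro p
    rw [mul_add, mul_add, Finset.mul_sum, Finset.mul_sum]
    have h2 : ∑ q, (M p q * (y p * x q) + M p q * (x p * y q)) =
        ∑ q, (y p * (M p q * (x p + x q)) + x p * (M p q * (y p + y q))) := by
      refine Finset.sum_congr rfl fun q _ => ?_
      linear_combination (-(M p q * x p * y p)) * two0
    rw [h2, Finset.sum_add_distrib]
    linear_combination (s p * x p * y p) * two0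
  rw [← Finset.sum_add_distrib, Finset.sum_congr rfl fun p _ => h1 p]
  have h3 : ∑ p, ∑ q, (M p q * (y p * x q) + M p q * (x p * y q)) =
      ∑ p, ∑ q, (M p q + M q p) * (y p * x q) := by
    have h4 : ∑ p, ∑ q, M p q * (x p * y q) = ∑ p, ∑ q, M q p * (y p * x q) := by
      rw [Finset.sum_comm]
      refine Finset.sum_congr rfl fun p _ => Finset.sum_congr rfl fun q _ => ?_
      ring
    simp only [Finset.sum_add_distrib, add_mul]
    rw [h4]
  rw [h3]
  have h5 : ∀ p q, (M p q + M q p) * (y p * x q) =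
      (t p * y p) * (t q * x q) + if p = q then t p * (x p * y p) else 0 := by
    intro p q
    by_cases h : p = q
    · subst h
      rw [if_pos rfl, add_self0, zero_mul]
      have h6 := sq0 (t p)
      have h7 : (t p * y p) * (t p * x p) = t p * (x p * y p) := by
        linear_combination (x p * y p) * h6
      rw [h7, add_self0]
    · rw [if_neg h, add_zero, hM p q h]
      ring
  simp only [h5, Finset.sum_add_distrib, Finset.sum_ite_eq, Finset.mem_univ, if_true]
  rw [← Finset.sum_mul_sum, mul_comm (∑ p, t p * x p)]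

end Pool.Agent.R426.QK.LA0
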