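import Pool.Agent.R426.QK.Bs
import Pool.Agent.Y699.E.Lat

/-!
Sums of periodic functions over the ellipses `x² + x y + 2 y² ≤ V`, and character sums.

Adapted from `Pool/Agent/Y699/E/Lat.lean` and `Pool/Agent/Y699/E/Csum.lean` (helper699).
-/

set_option autoImplicit false
set_option linter.unusedSectionVars false

open Finset

namespace Pool.Agent.R426.QK

open Pool.Agent.Y698 Pool.Agent.Y698.SG
open H667R3 Pool.Agent.W192.HK Pool.Agent.TH936.CM Pool.Agent.TH936.PU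
open Pool.Agent.Y699.E.Lat (conv_bound sqrt_two mem_sq)

/-- the norm form -/
def qf (x y : ℤ) : ℤ := x ^ 2 + x * y + 2 * y ^ 2

/-- the range of the coordinates -/
noncomputable def II (V : ℕ) : Finset ℤ := Icc (-(Nat.sqrt (2 * V) : ℤ)) (Nat.sqrt (2 * V))

lemma mem_II {V : ℕ} {y : ℤ} : y ∈ II V ↔ y ^ 2 ≤ 2 * V := mem_sq

lemma qf_x {x y : ℤ} {V : ℕ} (h : qf x y ≤ V) : x ∈ II V := by
  rw [mem_II]
  unfold qf at h
  nlinarith [sq_nonneg (4 * y + x), sq_nonneg x]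

lemma qf_y {x y : ℤ} {V : ℕ} (h : qf x y ≤ V) : y ∈ II V := by
  rw [mem_II]
  unfold qf at h
  nlinarith [sq_nonneg (2 * x + y), sq_nonneg y]

lemma card_II (V : ℕ) : ((II V).card : ℝ) = 2 * (Nat.sqrt (2 * V) : ℕ) + 1 := by
  unfold II
  rw [Int.card_Icc]
  have : ((Nat.sqrt (2 * V) : ℤ) + 1 - -(Nat.sqrt (2 * V) : ℤ)).toNat = 2 * Nat.sqrt (2 * V) + 1 := by
    omega
  rw [this]
  push_cast
  ring

/-- the ellipse -/
noncomputable def ell (V : ℕ) : Finset (ℤ × ℤ) := (II V ×ˢ II V).filter (fun p => qf p.1 p.2 ≤ V)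

lemma mem_ell {V : ℕ} {p : ℤ × ℤ} : p ∈ ell V ↔ qf p.1 p.2 ≤ V := by
  unfold ell
  rw [mem_filter, mem_product]
  exact ⟨fun h => h.2, fun h => ⟨⟨qf_x h, qf_y h⟩, h⟩⟩

/-- chords -/
noncomputable def chx (V : ℕ) (y : ℤ) : Finset ℤ := (II V).filter (fun x => qf x y ≤ V)

/-- chords in the other direction -/
noncomputable def chy (V : ℕ) (x : ℤ) : Finset ℤ := (II V).filter (fun y => qf x y ≤ V)

lemma mem_chx {V : ℕ} {x y : ℤ} : x ∈ chx V y ↔ qf x y ≤ V := by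
  unfold chx
  rw [mem_filter]
  exact ⟨fun h => h.2, fun h => ⟨qf_x h, h⟩⟩

lemma mem_chy {V : ℕ} {x y : ℤ} : y ∈ chy V x ↔ qf x y ≤ V := by
  unfold chy
  rw [mem_filter]
  exact ⟨fun h => h.2, fun h => ⟨qf_y h, h⟩⟩

lemma chx_conv (V : ℕ) (y : ℤ) : ∀ a ∈ chx V y, ∀ b ∈ chx V y, ∀ x, a ≤ x → x ≤ b → x ∈ chx V y := by
  intro a ha b hb x hax hxb
  rw [mem_chx] at *
  unfold qf at *
  by_cases h : 2 * x ≤ -y
  · nlinarith
  · push Not at h
    nlinarith

lemma chy_conv (V : ℕ) (x : ℤ) : ∀ a ∈ chy V x, ∀ b ∈ chy V x, ∀ y, a ≤ y → y ≤ b → y ∈ chy V x := by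
  intro a ha b hb y hax hxb
  rw [mem_chy] at *
  unfold qf at *
  by_cases h : 4 * y ≤ -x
  · nlinarith
  · push Not at h
    nlinarith

lemma sum_ell1 {V : ℕ} (F : ℤ → ℤ → ℂ) : ∑ p ∈ ell V, F p.1 p.2 =
    ∑ y ∈ II V, ∑ x ∈ chx V y, F x y := by
  unfold ell chx
  rw [sum_filter, sum_product_right]
  refine sum_congr rfl fun y _ => ?_
  rw [sum_filter]

lemma sum_ell2 {V : ℕ} (F : ℤ → ℤ → ℂ) : ∑ p ∈ ell V, F p.1 p.2 =
    ∑ x ∈ II V, ∑ y ∈ chy V x, F x y := by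
  unfold ell chy
  rw [sum_filter, sum_product]
  refine sum_congr rfl fun y _ => ?_
  rw [sum_filter]

/-- **sums over ellipses** -/
theorem ell_bound {f : ℤ → ℤ → ℂ} {N : ℕ} (hN : 0 < N) (h1 : ∀ x y, f (x + N) y = f x y)
    (h2 : ∀ x y, f x (y + N) = f x y) (h0 : ∑ i ∈ range N, ∑ j ∈ range N, f i j = 0)
    (hB : ∀ x y, ‖f x y‖ ≤ 1) (V : ℕ) :
    ‖∑ p ∈ ell V, f p.1 p.2‖ ≤ 3 * N * (3 * Real.sqrt V + 1) := by
  have hNr : (0 : ℝ) < N := by exact_mod_cast hN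
  have hNc : (N : ℂ) ≠ 0 := by exact_mod_cast hN.ne'
  set F : ℤ → ℂ := fun y => ∑ i ∈ range N, f i y with hF
  have hFp : ∀ y, F (y + N) = F y := fun y => sum_congr rfl fun j _ => h2 _ _
  have hF0 : ∑ i ∈ range N, F i = 0 := by
    rw [hF, sum_comm]
    exact h0
  have hFB : ∀ x, ‖F x‖ ≤ N := by
    intro x
    refine (norm_sum_le _ _).trans ((sum_le_sum fun j _ => hB _ _).trans ?_)
    simp
  have hcard := card_II V
  set s := Nat.sqrt (2 * V) with hs
  have hA : ‖∑ p ∈ ell V, (f p.1 p.2 - F p.2 / N)‖ ≤ 2 * N * (2 * s + 1) := by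
    rw [sum_ell1 (fun x y => f x y - F y / N)]
    refine (norm_sum_le _ _).trans ?_
    have : ∀ y ∈ II V, ‖∑ x ∈ chx V y, (f x y - F y / N)‖ ≤ 2 * N := by
      intro y _
      refine conv_bound (g := fun x => f x y - F y / N) hN (fun x => by simp only [h1]) ?_ ?_
        (chx_conv V y)
      · rw [sum_sub_distrib, sum_const, card_range, nsmul_eq_mul]
        have : (N : ℂ) * (F y / N) = F y := by field_simp
        rw [this]
        show F y - F y = 0
        ring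
      · intro x
        have e1 := hB x y
        have e2 : ‖F y / N‖ ≤ 1 := by
          rw [norm_div, Complex.norm_natCast, div_le_one hNr]
          exact hFB y
        have := norm_sub_le (f x y) (F y / N)
        linarith
    refine (sum_le_sum this).trans ?_
    rw [sum_const, nsmul_eq_mul, hcard]
    linarith
  have hBd : ‖∑ p ∈ ell V, F p.2‖ ≤ (N * N) * (2 * s + 1) := by
    rw [sum_ell2 (fun _ y => F y)]
    refine (norm_sum_le _ _).trans ?_
    have : ∀ x ∈ II V, ‖∑ y ∈ chy V x, F y‖ ≤ N * N := by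
      intro x _
      exact conv_bound hN hFp hF0 hFB (chy_conv V x)
    refine (sum_le_sum this).trans ?_
    rw [sum_const, nsmul_eq_mul, hcard]
    linarith
  have e : ∑ p ∈ ell V, f p.1 p.2 = ∑ p ∈ ell V, (f p.1 p.2 - F p.2 / N) +
      (∑ p ∈ ell V, F p.2) / N := by
    rw [sum_sub_distrib, sum_div]
    ring
  rw [e]
  refine (norm_add_le _ _).trans ?_
  have hC : ‖(∑ p ∈ ell V, F p.2) / N‖ ≤ N * (2 * s + 1) := by
    rw [norm_div, Complex.norm_natCast, div_le_iff₀ hNr]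
    nlinarith [hBd]
  have h3 : (N : ℝ) * (2 * s + 1) ≤ N * (3 * Real.sqrt V + 1) :=
    mul_le_mul_of_nonneg_left (sqrt_two V) hNr.le
  have h4 := add_le_add hA hC
  refine h4.trans ?_
  nlinarith

/-- number of points of the ellipse -/
lemma card_ell_le (V : ℕ) : ((ell V).card : ℝ) ≤ (3 * Real.sqrt V + 1) ^ 2 := by
  have h : ell V ⊆ II V ×ˢ II V := filter_subset _ _
  have h1 := card_le_card h
  rw [card_product] at h1
  have h3 : ((ell V).card : ℝ) ≤ (II V).card * (II V).card := by exact_mod_cast h1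
  rw [card_II] at h3
  have h0 : (0 : ℝ) ≤ (Nat.sqrt (2 * V) : ℕ) := Nat.cast_nonneg _
  have h4 := sqrt_two V
  nlinarith

lemma sum_range_zmod {N : ℕ} [NeZero N] (G : ZMod N → ℂ) : ∑ i ∈ range N, G i = ∑ z, G z := by
  refine sum_bij' (fun i _ => (i : ZMod N)) (fun z _ => z.val) ?_ ?_ ?_ ?_ ?_
  · intro i _; exact mem_univ _
  · intro z _; exact mem_range.2 (ZMod.val_lt z)
  · intro i hi; exact ZMod.val_cast_of_lt (mem_range.1 hi)
  · intro z _; exact ZMod.natCast_zmod_val z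
  · intro i _; rfl

lemma unit_of_cop {q c : RR} (hc : IsCoprime c q) :
    ∃ u : (RR ⧸ Ideal.span {q})ˣ, (u : RR ⧸ Ideal.span {q}) = Ideal.Quotient.mk _ c := by
  obtain ⟨a, b, hab⟩ := hc
  have h : Ideal.Quotient.mk (Ideal.span {q}) a * Ideal.Quotient.mk (Ideal.span {q}) c = 1 := by
    rw [← map_mul, ← map_one (Ideal.Quotient.mk (Ideal.span {q})), Ideal.Quotient.eq,
      Ideal.mem_span_singleton]
    exact ⟨-b, by linear_combination hab⟩
  exact ⟨⟨_, _, by rw [mul_comm]; exact h, h⟩, rfl⟩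

open Classical in
/-- the sum over a block vanishes -/
theorem block_zero {q : RR} (hq : q ≠ 0) {f : RR → ℂ} (per : ∀ a b, q ∣ a - b → f a = f b)
    {c : RR} (hc : IsCoprime c q) {z : ℂ} (hz : z ≠ 1) (hfc : ∀ a, f (c * a) = z * f a) :
    ∑ i ∈ range (nrm q), ∑ j ∈ range (nrm q), f (mk (i, j)) = 0 := by
  set N := nrm q with hN
  have hN0 : N ≠ 0 := nrm_ne hq
  have : NeZero N := ⟨hN0⟩
  set mq : RR →+* RR ⧸ Ideal.span {q} := Ideal.Quotient.mk (Ideal.span {q}) with hmq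
  have hmkN : mq ((N : ℕ) : RR) = 0 := by
    rw [hmq, Ideal.Quotient.eq_zero_iff_mem, Ideal.mem_span_singleton]
    exact dvd_nrm q
  set f1 : ℤ →+ RR ⧸ Ideal.span {q} := (mq : RR →+ RR ⧸ Ideal.span {q}).comp (Int.castAddHom RR) with hf1
  have h1 : f1 (N : ℤ) = 0 := by
    show mq (((N : ℕ) : ℤ) : RR) = 0
    rw [Int.cast_natCast]
    exact hmkN
  set f2 : ℤ →+ RR ⧸ Ideal.span {q} := (AddMonoidHom.mulRight (mq aR)).comp f1 with hf2
  have h2 : f2 (N : ℤ) = 0 := by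
    show f1 (N : ℤ) * mq aR = 0
    rw [h1, zero_mul]
  set φ : ZMod N × ZMod N →+ RR ⧸ Ideal.span {q} :=
    AddMonoidHom.coprod (ZMod.lift N ⟨f1, h1⟩) (ZMod.lift N ⟨f2, h2⟩) with hφ
  have hφv : ∀ i j : ℤ, φ ((i : ZMod N), (j : ZMod N)) = mq (mk (i, j)) := by
    intro i j
    rw [hφ, AddMonoidHom.coprod_apply, ZMod.lift_coe, ZMod.lift_coe]
    show mq (i : RR) + mq (j : RR) * mq aR = mq (mk (i, j))
    rw [← map_mul, ← map_add]
    rfl
  have hsurj : ∀ x : RR ⧸ Ideal.span {q}, x ∈ Set.range φ := by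
    intro x
    obtain ⟨a, rfl⟩ := Ideal.Quotient.mk_surjective x
    exact ⟨((cX a : ZMod N), (cY a : ZMod N)), by rw [hφv (cX a) (cY a), mk_co]⟩
  have : Finite (RR ⧸ Ideal.span {q}) := Finite.of_surjective φ hsurj
  letI := Fintype.ofFinite (RR ⧸ Ideal.span {q})
  set fb : RR ⧸ Ideal.span {q} → ℂ :=
    fun x => f (Function.surjInv (Ideal.Quotient.mk_surjective (I := Ideal.span {q})) x) with hfb
  have hfbv : ∀ a, fb (mq a) = f a := by
    intro a
    apply per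
    have h3 := Function.surjInv_eq (Ideal.Quotient.mk_surjective (I := Ideal.span {q})) (mq a)
    rw [hmq, Ideal.Quotient.eq, Ideal.mem_span_singleton] at h3
    exact h3
  have hsum0 : ∑ x : RR ⧸ Ideal.span {q}, fb x = 0 := by
    obtain ⟨u, hu⟩ := unit_of_cop hc
    have h3 : ∑ x : RR ⧸ Ideal.span {q}, fb x = ∑ x : RR ⧸ Ideal.span {q}, fb (u * x) :=
      (Equiv.sum_comp (Units.mulLeft u) fb).symm
    have h4 : ∑ x : RR ⧸ Ideal.span {q}, fb (u * x) = z * ∑ x : RR ⧸ Ideal.span {q}, fb x := by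
      rw [mul_sum]
      refine sum_congr rfl fun x _ => ?_
      obtain ⟨a, rfl⟩ := Ideal.Quotient.mk_surjective x
      rw [hu, ← map_mul]
      have h5 := hfbv (c * a)
      have h6 := hfbv a
      rw [hmq] at h5 h6
      rw [h5, h6, hfc]
    rw [h4] at h3
    have h7 : (1 - z) * ∑ x : RR ⧸ Ideal.span {q}, fb x = 0 := by linear_combination h3
    rcases mul_eq_zero.1 h7 with h8 | h8
    · exact absurd (sub_eq_zero.1 h8).symm hz
    · exact h8
  have h3 : ∑ i ∈ range N, ∑ j ∈ range N, f (mk (i, j)) = ∑ p : ZMod N × ZMod N, fb (φ p) := by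
    rw [Fintype.sum_prod_type, ← sum_range_zmod]
    refine sum_congr rfl fun i _ => ?_
    rw [← sum_range_zmod]
    refine sum_congr rfl fun j _ => ?_
    have := hφv (i : ℤ) (j : ℤ)
    rw [Int.cast_natCast, Int.cast_natCast] at this
    rw [this, hfbv]
  rw [h3]
  have h4 : ∑ p : ZMod N × ZMod N, fb (φ p) =
      ∑ x : RR ⧸ Ideal.span {q}, ∑ p ∈ univ.filter (fun p => φ p = x), fb (φ p) :=
    (sum_fiberwise _ _ _).symm
  rw [h4]
  have h5 : ∀ x : RR ⧸ Ideal.span {q}, ∑ p ∈ univ.filter (fun p => φ p = x), fb (φ p) =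
      ((univ.filter (fun p => φ p = 0)).card : ℂ) * fb x := by
    intro x
    have h6 : ∑ p ∈ univ.filter (fun p => φ p = x), fb (φ p) =
        ∑ p ∈ univ.filter (fun p => φ p = x), fb x :=
      sum_congr rfl fun p hp => by rw [(mem_filter.1 hp).2]
    rw [h6, sum_const, nsmul_eq_mul, AddMonoidHom.card_fiber_eq_of_mem_range φ (hsurj x) (hsurj 0)]
  rw [sum_congr rfl (fun x _ => h5 x), ← mul_sum, hsum0, mul_zero]

/-- elements of norm at most `V` -/
noncomputable def ZB (V : ℕ) : Finset RR := (ell V).map ⟨mk, mk_inj⟩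

lemma nrm_mk (p : ℤ × ℤ) : (nrm (mk p) : ℤ) = qf p.1 p.2 := by
  rw [nrm_eq', (cXY_mk p).1, (cXY_mk p).2]
  rfl

lemma mem_ZB {V : ℕ} {a : RR} : a ∈ ZB V ↔ nrm a ≤ V := by
  unfold ZB
  rw [mem_map]
  constructor
  · rintro ⟨p, hp, rfl⟩
    rw [mem_ell, ← nrm_mk] at hp
    exact_mod_cast hp
  · intro h
    refine ⟨(cX a, cY a), ?_, mk_co a⟩
    rw [mem_ell, ← nrm_mk, mk_co]
    exact_mod_cast h

lemma sum_ZB (V : ℕ) (f : RR → ℂ) : ∑ a ∈ ZB V, f a = ∑ p ∈ ell V, f (mk p) := by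
  unfold ZB
  rw [sum_map]
  rfl

theorem csum {q : RR} (hq : q ≠ 0) {f : RR → ℂ} (per : ∀ a b, q ∣ a - b → f a = f b)
    (hb : ∀ a, ‖f a‖ ≤ 1) {c : RR} (hc : IsCoprime c q) {z : ℂ} (hz : z ≠ 1)
    (hfc : ∀ a, f (c * a) = z * f a) (V : ℕ) :
    ‖∑ a ∈ ZB V, f a‖ ≤ 3 * nrm q * (3 * Real.sqrt V + 1) := by
  rw [sum_ZB]
  refine ell_bound (f := fun x y => f (mk (x, y))) (Nat.pos_of_ne_zero (nrm_ne hq)) ?_ ?_
    (block_zero hq per hc hz hfc) (fun x y => hb _) V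
  · intro x y
    apply per
    have : mk (x + (nrm q : ℕ), y) - mk (x, y) = ((nrm q : ℕ) : RR) := by
      unfold mk
      push_cast
      ring
    rw [this]
    exact dvd_nrm q
  · intro x y
    apply per
    have : mk (x, y + (nrm q : ℕ)) - mk (x, y) = ((nrm q : ℕ) : RR) * aR := by
      unfold mk
      push_cast
      ring
    rw [this]
    exact (dvd_nrm q).mul_right _

/-- the bound for the number of elements -/
lemma card_ZB_le {V : ℕ} (hV : 1 ≤ V) : ((ZB V).card : ℝ) ≤ 16 * V := by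
  have h1 := card_ell_le V
  have h2 : (ZB V).card = (ell V).card := by unfold ZB; rw [card_map]
  rw [h2]
  refine h1.trans ?_
  have h3 : Real.sqrt V ^ 2 = V := Real.sq_sqrt (Nat.cast_nonneg V)
  have h4 : (1 : ℝ) ≤ V := by exact_mod_cast hV
  have h5 : 1 ≤ Real.sqrt V := Real.one_le_sqrt.2 h4
  nlinarith

end Pool.Agent.R426.QK
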