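import Pool.Agent.R426.QK.Lat
import Pool.Agent.Y703.CX.Stm

/-!
# Project QK (helper426): the exact proportion over `ℚ(√-7)`

`D` runs over the squarefree elements `≡ 1` modulo `4` of `RR = ℤ[(1 + √-7) / 2]` prime to `√-7`. The
proportion of those for which the matrix of the quadratic residue symbols of the prime divisors
(`Pool/Agent/Results/MP_e996df_nt/TwoPartTwistsX49.lean`) is not singular tends to
`∏_{i ≥ 1} (1 - 2^{-i}) = 0.288...`. Statements of the parts, after project XK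
(`Pool/Agent/Y703/XK/Stm.lean`). Tools: `Pool/Agent/R426/QK/Bs.lean` (`nrm`: norm, `prm`: primary,
`Pq`: primary primes, `PS`: primary squarefree, `PD n`: the primary primes dividing `n`, `QB V`: the
primary primes of norm at most `V`).
-/

set_option autoImplicit false
set_option linter.unusedVariables false

open scoped Classical

namespace Pool.Agent.R426.QK

open Finset
open Pool.Agent.Y698 Pool.Agent.Y698.SG
open Pool.Agent.Y703.CX (jj XX eL zz kk)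

/-- the sign of a class modulo `2` -/
noncomputable def ez (c : ZMod 2) : ℂ := if c = 0 then 1 else -1

/-- `0` if `x` is a square modulo the prime `π`, otherwise `1` -/
noncomputable def cs (π x : RR) : ZMod 2 := SG.lg (sy π x)

/-- `0` if `x` is a square modulo `√-7`, otherwise `1` -/
noncomputable def ss (x : RR) : ZMod 2 := SG.lg (e7 x)

/-- `1` if the norm is `3` modulo `4`, otherwise `0` -/
noncomputable def tt (x : RR) : ZMod 2 := if nrm x % 4 = 3 then 1 else 0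

/-- the reciprocity law -/
def RecP : Prop := ∀ π ρ : RR, Pq π → Pq ρ → π ≠ ρ → cs π ρ + cs ρ π = tt π * tt ρ

/-- the kernel of the matrix of the symbols -/
def Sol (S : Finset RR) (v : RR → ZMod 2) : Prop :=
  ∀ π ∈ S, ss π * v π + ∑ ρ ∈ S, cs ρ π * (v π + v ρ) = 0

/-- the good sets: all solutions are zero -/
def Gd (S : Finset RR) : Prop := ∀ v, Sol S v → ∀ π ∈ S, v π = 0

/-- the class of the sets of primary primes -/
def Cl (S : Finset RR) : Prop := (∀ π ∈ S, Pq π) ∧ (∏ π ∈ S, nrm π) % 4 = 1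

/-- the sets of the class with norm at most `X` -/
noncomputable def SS (X : ℕ) : Finset (Finset RR) :=
  (QB X).powerset.filter fun S => Cl S ∧ ∏ π ∈ S, nrm π ≤ X

/-- the limit `(1 - 1/2) (1 - 1/4) (1 - 1/8) ⋯` -/
noncomputable def c2 : ℝ := ∏' i : ℕ, (1 - (1 / 2 : ℝ) ^ (i + 1))

/-- FINAL: the proportion of the good sets -/
def S_DQ : Prop := Filter.Tendsto
  (fun X : ℕ => (((SS X).filter Gd).card : ℝ) / ((SS X).card : ℝ)) Filter.atTop (nhds c2)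

/-- the class of the elements -/
def ClsE (D : RR) : Prop := Squarefree D ∧ (4 : RR) ∣ D - 1 ∧ ¬ fR ∣ D

/-- the good elements -/
def GoodE (D : RR) : Prop := ClsE D ∧ Gd (PD D)

/-- FINAL, in terms of the elements `D`. -/
def S_DEN : Prop := Filter.Tendsto
  (fun X : ℕ => ({D : RR | nrm D ≤ X ∧ GoodE D}.ncard : ℝ) /
    ({D : RR | nrm D ≤ X ∧ ClsE D}.ncard : ℝ)) Filter.atTop (nhds c2)

/-- QK-NS: the translation. -/
def S_NS : Prop := S_DQ → S_DEN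

/-- QK-LOW: the class has positive density. -/
def S_LOW : Prop := ∃ (c : ℝ) (X₀ : ℕ), 0 < c ∧ ∀ X : ℕ, X₀ ≤ X → c * X ≤ ((SS X).card : ℝ)

/-- QK-BIL: bilinear sums of symbols. -/
def S_BIL : Prop := ∃ C : ℝ, 1 ≤ C ∧ ∀ (P Q : Finset RR) (A B z : ℕ) (c d : RR → ℂ),
  (∀ π ∈ P, Pq π ∧ nrm π ≤ A) → (∀ ρ ∈ Q, Pq ρ ∧ nrm ρ ≤ B) → Disjoint P Q →
  1 ≤ z → z ≤ A → z ≤ B → (∀ π, ‖c π‖ ≤ 1) → (∀ ρ, ‖d ρ‖ ≤ 1) →
  ‖∑ π ∈ P, ∑ ρ ∈ Q, c π * d ρ * ez (cs π ρ)‖ ^ 24 * z ≤ C * ((A : ℝ) * B) ^ 24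

/-- the pairs of indices -/
noncomputable def prs (ι : Type) [Fintype ι] [LinearOrder ι] : Finset (ι × ι) :=
  univ.filter fun e => e.1 < e.2

/-- the bilinear hypothesis for a box -/
def HB {ι : Type} (C : ι → Finset RR) (X : ι → ℕ) (κ : ℝ) : Prop :=
  ∀ i l : ι, i ≠ l → ∀ (c d : RR → ℂ), (∀ π, ‖c π‖ ≤ 1) → (∀ ρ, ‖d ρ‖ ≤ 1) →
    ‖∑ x ∈ C i, ∑ y ∈ C l, c x * d y * ez (cs x y)‖ ≤ κ * (X i * X l)

/-- QK-EQ: equidistribution of the symbols of a tuple. -/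
def S_EQ : Prop := ∀ (ι : Type) [Fintype ι] [LinearOrder ι] (C : ι → Finset RR)
  (X : ι → ℕ) (κ : ℝ), 0 ≤ κ → (∀ i, (C i).card ≤ X i) → HB C X κ →
  ∀ Q : (prs ι → ZMod 2) → Prop,
    |(((Fintype.piFinset C).filter fun p => Q fun e => cs (p e.1.1) (p e.1.2)).card : ℝ) -
      ((univ.filter Q).card : ℝ) / 2 ^ (prs ι).card * ∏ j, ((C j).card : ℝ)| ≤
    2 ^ (prs ι).card * (κ * ∏ j, (X j : ℝ))

/-- the matrix with given entries below the diagonal, whose sum with its transpose has the entries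
`t k * t l` off the diagonal -/
noncomputable def ext {ι : Type} [Fintype ι] [LinearOrder ι] (t : ι → ZMod 2) (α : prs ι → ZMod 2)
    (k l : ι) : ZMod 2 :=
  if h : (l, k) ∈ prs ι then α ⟨(l, k), h⟩ else
    if h' : (k, l) ∈ prs ι then α ⟨(k, l), h'⟩ + t k * t l else 0

/-- the only solution of the block system is zero: `U` the small primes and `J` the large ones,
`sU u = ss u`, `tU u = tt u`, `A u v = cs v u`, `B u k = cs (p k) u`, `R k l = cs (p l) (p k)` -/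
def GdA {U J : Type} [Fintype U] [Fintype J] (sU tU : U → ZMod 2) (sJ tJ : J → ZMod 2)
    (A : U → U → ZMod 2) (B : U → J → ZMod 2) (R : J → J → ZMod 2) : Prop :=
  ∀ (c : U → ZMod 2) (d : J → ZMod 2),
    (∀ u, sU u * c u + ∑ v, A u v * (c u + c v) + ∑ l, B u l * (c u + d l) = 0) →
    (∀ k, sJ k * d k + ∑ u, (B u k + tU u * tJ k) * (d k + c u) + ∑ l, R k l * (d k + d l) = 0) →
    (∀ u, c u = 0) ∧ ∀ l, d l = 0

/-- the probability that a random completion is good is close to `c2` -/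
def LAE (ε : ℝ) (V : ℕ) : Prop := ∀ (U J : Type) [Fintype U] [Fintype J] [LinearOrder J]
  (sU tU : U → ZMod 2) (sJ tJ : J → ZMod 2) (A : U → U → ZMod 2) (B : U → J → ZMod 2),
  4 * Fintype.card U + V ≤ (univ.filter fun j => tJ j = 1).card →
  ∑ u, tU u + ∑ j, tJ j = 0 →
  (∀ u v, u ≠ v → A u v + A v u = tU u * tU v) →
  (∀ (w : U → ZMod 2) (e : ZMod 2), ((∃ u, w u ≠ 0) ∨ e ≠ 0) →
    (∃ k, e * sJ k + ∑ u, w u * (B u k + tU u * tJ k) ≠ 0) ∧
    ∃ k, e * (sJ k + tJ k) + ∑ u, w u * B u k ≠ 0) →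
  |((univ.filter fun α : prs J → ZMod 2 => GdA sU tU sJ tJ A B (ext tJ α)).card : ℝ) /
      2 ^ (prs J).card - c2| ≤ ε

/-- QK-LA: the probability that a random completion is good. -/
def S_LA : Prop := ∀ ε : ℝ, 0 < ε → ∃ V : ℕ, LAE ε V

/-! ### The parts of QK-LA -/

/-- QK-MOM: the probability that a random number `r` is zero, from the moments of `2 ^ r`. -/
def S_MOM : Prop := ∀ ε : ℝ, 0 < ε → ∃ (M : ℕ) (δ : ℝ), 0 < δ ∧ ∀ (Ω : Type) [Fintype Ω]
  [Nonempty Ω] (r : Ω → ℕ),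
  (∀ m ≤ M, |(∑ ω, ∏ i ∈ range m, ((2 : ℝ) ^ r ω - 2 ^ i)) / Fintype.card Ω - 1| ≤ δ) →
  |((univ.filter fun ω => r ω = 0).card : ℝ) / Fintype.card Ω - c2| ≤ ε

section blocks

variable {U J : Type} [Fintype U] [Fintype J]

/-- the row of a small prime, at the vector `(c, d)` -/
def rowU (sU : U → ZMod 2) (A : U → U → ZMod 2) (B : U → J → ZMod 2) (c : U → ZMod 2)
    (d : J → ZMod 2) (u : U) : ZMod 2 :=
  sU u * c u + ∑ v, A u v * (c u + c v) + ∑ l, B u l * (c u + d l)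

/-- the row of a large prime, at the vector `(c, d)` -/
def rowJ (tU : U → ZMod 2) (sJ tJ : J → ZMod 2) (B : U → J → ZMod 2) (R : J → J → ZMod 2)
    (c : U → ZMod 2) (d : J → ZMod 2) (k : J) : ZMod 2 :=
  sJ k * d k + ∑ u, (B u k + tU u * tJ k) * (d k + c u) + ∑ l, R k l * (d k + d l)

/-- the sum of the rows, at the vector `(c, d)` -/
def colS (sU tU : U → ZMod 2) (sJ tJ : J → ZMod 2) (c : U → ZMod 2) (d : J → ZMod 2) : ZMod 2 :=
  ∑ u, (sU u + tU u) * c u + ∑ j, (sJ j + tJ j) * d j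

/-- the alternating form (the sum of the matrix and its transpose) -/
def bt (tU : U → ZMod 2) (tJ : J → ZMod 2) (c : U → ZMod 2) (d : J → ZMod 2) (c' : U → ZMod 2)
    (d' : J → ZMod 2) : ZMod 2 :=
  (∑ u, tU u * c u + ∑ j, tJ j * d j) * (∑ u, tU u * c' u + ∑ j, tJ j * d' j) +
    (∑ u, tU u * (c u * c' u) + ∑ j, tJ j * (d j * d' j))

/-- the vectors `d i` are independent modulo the constant vectors -/
def IndJ {m : ℕ} (d : Fin m → J → ZMod 2) : Prop :=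
  ∀ a : Fin m → ZMod 2, (∃ i, a i ≠ 0) → ∃ k l, ∑ i, a i * (d i k + d i l) ≠ 0

/-- the tuples of vectors that can lie in the kernel -/
def OKt (sU tU : U → ZMod 2) (sJ tJ : J → ZMod 2) (A : U → U → ZMod 2) (B : U → J → ZMod 2)
    {m : ℕ} (c : Fin m → U → ZMod 2) (d : Fin m → J → ZMod 2) : Prop :=
  (∀ i u, rowU sU A B (c i) (d i) u = 0) ∧ (∀ i, colS sU tU sJ tJ (c i) (d i) = 0) ∧
    ∀ i j, bt tU tJ (c i) (d i) (c j) (d j) = 0

end blocks

/-- QK-LA1: the number of the completions with a given tuple in the kernel. -/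
def S_LA1 : Prop := ∀ (U J : Type) [Fintype U] [Fintype J] [LinearOrder J]
  (sU tU : U → ZMod 2) (sJ tJ : J → ZMod 2) (A : U → U → ZMod 2) (B : U → J → ZMod 2),
  ∑ u, tU u + ∑ j, tJ j = 0 → (∀ u v, u ≠ v → A u v + A v u = tU u * tU v) →
  ∀ (m : ℕ) (c : Fin m → U → ZMod 2) (d : Fin m → J → ZMod 2), IndJ d →
  (∀ i u, rowU sU A B (c i) (d i) u = 0) →
  (univ.filter fun α : prs J → ZMod 2 =>
      ∀ i k, rowJ tU sJ tJ B (ext tJ α) (c i) (d i) k = 0).card * 2 ^ (m * (Fintype.card J - 1)) =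
    if OKt sU tU sJ tJ A B c d then 2 ^ ((prs J).card + m.choose 2) else 0

/-- QK-LA2: the number of the tuples that can lie in the kernel. -/
def S_LA2 : Prop := ∀ (m : ℕ) (δ : ℝ), 0 < δ → ∃ V : ℕ, ∀ (U J : Type) [Fintype U] [Fintype J]
  (sU tU : U → ZMod 2) (sJ tJ : J → ZMod 2) (A : U → U → ZMod 2) (B : U → J → ZMod 2),
  4 * Fintype.card U + V ≤ (univ.filter fun j => tJ j = 1).card →
  ∑ u, tU u + ∑ j, tJ j = 0 → (∀ u v, u ≠ v → A u v + A v u = tU u * tU v) →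
  (∀ (w : U → ZMod 2) (e : ZMod 2), ((∃ u, w u ≠ 0) ∨ e ≠ 0) →
    ∃ k, e * (sJ k + tJ k) + ∑ u, w u * B u k ≠ 0) →
  |((univ.filter fun x : (Fin m → U → ZMod 2) × (Fin m → J → ZMod 2) =>
      IndJ x.2 ∧ OKt sU tU sJ tJ A B x.1 x.2).card : ℝ) * 2 ^ m.choose 2 /
      2 ^ (m * (Fintype.card J - 1)) - 1| ≤ δ

/-- QK-LA3: the assembly -/
def S_LA3 : Prop := S_MOM → S_LA1 → S_LA2 → S_LA

/-- QK-C2: the infinite product. -/
def S_C2 : Prop := Filter.Tendsto (fun n : ℕ => ∏ i ∈ range n, (1 - (1 / 2 : ℝ) ^ (i + 1)))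
  Filter.atTop (nhds c2) ∧ 0 < c2 ∧ c2 < 1 ∧ 0.288 < c2 ∧ c2 < 0.289

/-- the labels of the large primes with respect to the small ones are not degenerate -/
def Nd (S₀ S₁ : Finset RR) : Prop :=
  ∀ (w : RR → ZMod 2) (e : ZMod 2), ((∃ u ∈ S₀, w u ≠ 0) ∨ e ≠ 0) →
    (∃ π ∈ S₁, e * ss π + ∑ u ∈ S₀, w u * cs u π ≠ 0) ∧
    ∃ π ∈ S₁, e * (ss π + tt π) + ∑ u ∈ S₀, w u * cs π u ≠ 0

/-- QK-BOX: the count in a box. -/
def S_BOX : Prop := RecP → S_EQ → ∀ (ε : ℝ) (V : ℕ), LAE ε V → ∀ (ι : Type) [Fintype ι] [LinearOrder ι]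
  (C : ι → Finset RR) (X : ι → ℕ) (κ : ℝ) (S₀ : Finset RR), 0 ≤ κ → (∀ i, (C i).card ≤ X i) →
  HB C X κ → (∀ u ∈ S₀, Pq u) → (∀ i, ∀ π ∈ C i, Pq π ∧ π ∉ S₀) →
  (∀ i l, i ≠ l → Disjoint (C i) (C l)) →
  (∀ p ∈ Fintype.piFinset C, 4 * S₀.card + V ≤ (univ.filter fun i => tt (p i) = 1).card ∧
    ∑ u ∈ S₀, tt u + ∑ i, tt (p i) = 0) →
  |(((Fintype.piFinset C).filter fun p => Nd S₀ (univ.image p) ∧ Gd (S₀ ∪ univ.image p)).card : ℝ) -
      c2 * (((Fintype.piFinset C).filter fun p => Nd S₀ (univ.image p)).card : ℝ)| ≤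
    ε * (((Fintype.piFinset C).filter fun p => Nd S₀ (univ.image p)).card : ℝ) +
    2 ^ ((S₀.card + 2) * Fintype.card ι + (prs ι).card) * (κ * ∏ j, (X j : ℝ))

/-- the small primes of a set -/
noncomputable def sm (z : ℕ) (S : Finset RR) : Finset RR := S.filter fun π => nrm π ≤ z

/-- the large primes of a set -/
noncomputable def la (z : ℕ) (S : Finset RR) : Finset RR := S.filter fun π => ¬ nrm π ≤ z

/-- the large primes with norm `3` modulo `4` -/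
noncomputable def lt3 (z : ℕ) (S : Finset RR) : Finset RR := (la z S).filter fun π => tt π = 1

/-- the number of the block of a prime -/
noncomputable def bl (H : ℕ) (π : RR) : ℕ := jj H (nrm π)

/-- the regular sets -/
noncomputable def Rg (X z H k V : ℕ) : Finset (Finset RR) :=
  (SS X).filter fun S => Set.InjOn (bl H) (la z S : Set RR) ∧ S.card ≤ k ∧
    (∏ π ∈ sm z S, nrm π) * ∏ π ∈ la z S, XX H (bl H π) ≤ X ∧
    4 * (sm z S).card + V ≤ (lt3 z S).card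

/-- QK-KEY: the sum over the boxes. -/
def S_KEY : Prop := RecP → S_BIL → S_EQ → S_BOX → ∃ C : ℝ, 1 ≤ C ∧
  ∀ (ε : ℝ) (V : ℕ), 0 < ε → LAE ε V →
  ∀ (X z H k N : ℕ) (κ : ℝ), 1 ≤ X → 1 ≤ H → 1 ≤ z → 0 ≤ κ → C ≤ κ ^ 24 * z →
  (H : ℝ) * Real.log X < N →
  |(((Rg X z H k V).filter fun S => Nd (sm z S) (la z S) ∧ Gd S).card : ℝ) -
      c2 * (((Rg X z H k V).filter fun S => Nd (sm z S) (la z S)).card : ℝ)| ≤
    ε * ((Rg X z H k V).card : ℝ) +
    (9 * N + 9 : ℝ) ^ k * (3 ^ (9 * k ^ 2 + 9) * κ) * (X * (1 + Real.log X))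

/-- QK-CNT: sets with many primes, sets near the boundary, sets with two primes in a block. -/
structure CntP (C : ℝ) : Prop where
  one : 1 ≤ C
  all : ∀ X : ℕ, 1 ≤ X → ((SS X).card : ℝ) ≤ C * X
  many : ∀ X k : ℕ, 1 ≤ X → (((SS X).filter fun S => k < S.card).card : ℝ) * 2 ^ k ≤
    C * (X * (1 + Real.log X))
  cut : ∀ X z H k : ℕ, 1 ≤ X → 1 ≤ H → 1 ≤ k → (((SS X).filter fun S => S.card ≤ k ∧
    X < (∏ π ∈ sm z S, nrm π) * ∏ π ∈ la z S, XX H (bl H π)).card : ℝ) ≤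
      C * (X * (1 + Real.log X)) * (k / H) + C * X * Real.exp (-(Real.log X) / k)
  coll : ∀ X z H : ℕ, 1 ≤ X → 1 ≤ z → 1 ≤ H → (((SS X).filter fun S =>
    ¬ Set.InjOn (bl H) (la z S : Set RR)).card : ℝ) ≤ C * (X * (1 + Real.log X)) / H + C * X / z

/-- QK-CNT -/
def S_CNT : Prop := ∃ C : ℝ, CntP C

/-- QK-BAD: few sets have degenerate labels. -/
def S_BAD : Prop := ∀ ε : ℝ, 0 < ε → ∃ X₀ : ℕ, ∀ X : ℕ, X₀ ≤ X →
  (((SS X).filter fun S => S.card ≤ kk X ∧ ¬ Nd (sm (zz X) S) (la (zz X) S)).card : ℝ) ≤ ε * X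

/-- QK-FEW: few sets have few large primes. -/
def S_FEW : Prop := ∀ (V : ℕ) (ε : ℝ), 0 < ε → ∃ X₀ : ℕ, ∀ X : ℕ, X₀ ≤ X →
  (((SS X).filter fun S => S.card ≤ kk X ∧
    (lt3 (zz X) S).card < 4 * (sm (zz X) S).card + V).card : ℝ) ≤ ε * X

/-! ### The tools -/

/-- the number of the binary digits -/
noncomputable def lgn (T : ℕ) : ℝ := (Nat.log 2 T : ℝ) + 1

/-- the primary squarefree elements of norm at most `M` -/
noncomputable def SB (M : ℕ) : Finset RR := (ZB M).filter PS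

/-- the primary elements of norm at most `M` -/
noncomputable def PB (M : ℕ) : Finset RR := (ZB M).filter prm

/-- the multiplicative function on the squarefree elements with values `g` at the primes -/
noncomputable def mf (g : RR → ℝ) (n : RR) : ℝ := ∏ π ∈ PD n, g π

/-- the Jacobi symbol `(a / n)` -/
noncomputable def jac (n a : RR) : ℂ := ∏ π ∈ PD n, sy π a

/-- the sign of the norm modulo `4` -/
noncomputable def kp (a : RR) : ℂ := if nrm a % 4 = 1 then 1 else if nrm a % 4 = 3 then -1 else 0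

/-- the real characters -/
noncomputable def xr (n : RR) (i j : ℕ) (a : RR) : ℂ := jac n a * e7 a ^ i * kp a ^ j

/-- TOOL: sums of multiplicative functions twisted by a real character -/
def S_HALL : Prop := ∃ C : ℝ, 1 ≤ C ∧ ∀ (n : RR) (i j : ℕ), PS n → i < 2 → j < 2 →
  (n ≠ 1 ∨ i ≠ 0 ∨ j ≠ 0) → ∀ T : ℕ,
  ∑ a ∈ SB T, mf (fun π => (2 + (xr n i j π).re) / 3) a ≤
    C * (lgn (nrm n)) ^ (1 / 3 : ℝ) * (T * (lgn T) ^ (-(1 / 3) : ℝ))

/-- TOOL: Mertens' theorem, upper bound -/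
def S_MERT : Prop := ∃ C : ℝ, 0 ≤ C ∧ ∀ N : ℕ, 3 ≤ N →
  ∑ π ∈ QB N, (1 : ℝ) / nrm π ≤ 2 * Real.log (Real.log N) + C

end Pool.Agent.R426.QK
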