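import Pool.Agent.R426.QK.Stm

/-!
# Project QK: the symbols

Adapted from `Pool/Agent/Y699/E/Sym.lean` (helper699).
-/

set_option autoImplicit false
set_option linter.unusedSectionVars false

open Finset

namespace Pool.Agent.R426.QK

open Pool.Agent.R426.QD (r4 r4_eq r4_a Pn recG tp et et_pn sy_mulO sy_oneO nonsq r4_m4)
open Pool.Agent.Y698 Pool.Agent.Y698.SG
open H667R3 Pool.Agent.W192.HK Pool.Agent.TH936.CM Pool.Agent.TH936.PU
open scoped ComplexConjugate

lemma ez_zero : ez 0 = 1 := by unfold ez; simp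

lemma ez_one : ez 1 = -1 := by unfold ez; simp

lemma ez_add (a b : ZMod 2) : ez (a + b) = ez a * ez b := by
  have h : ∀ a : ZMod 2, a = 0 ∨ a = 1 := by decide
  have h2 : (1 : ZMod 2) + 1 = 0 := by decide
  rcases h a with rfl | rfl <;> rcases h b with rfl | rfl <;> simp [ez_zero, ez_one, h2]

lemma ez_sum {ι : Type*} (s : Finset ι) (f : ι → ZMod 2) : ez (∑ i ∈ s, f i) = ∏ i ∈ s, ez (f i) := by
  classical
  induction s using Finset.induction_on with
  | empty => rw [sum_empty, prod_empty, ez_zero]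
  | insert a s ha ih => rw [sum_insert ha, prod_insert ha, ez_add, ih]

lemma norm_ez (c : ZMod 2) : ‖ez c‖ = 1 := by
  unfold ez
  split_ifs <;> simp

lemma ez_lg {z : ℂ} (h : z = 1 ∨ z = -1) : ez (SG.lg z) = z := by
  rcases h with rfl | rfl
  · rw [lg_one, ez_zero]
  · rw [lg_neg_one, ez_one]

lemma mem_sp {x y : RR} : x ∈ sp y ↔ y ∣ x := Ideal.mem_span_singleton

lemma sy_zero_iff' {π x : RR} : sy π x = 0 ↔ π ∣ x := by
  rw [← mem_sp]
  rcases sy_val π x with h | h
  · exact ⟨fun _ => h.1, fun _ => h.2⟩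
  · refine ⟨fun h0 => ?_, fun h0 => absurd h0 h.1⟩
    rcases h.2 with h1 | h1 <;> rw [h1] at h0 <;> norm_num at h0

lemma sy_pm {π x : RR} (h : ¬ π ∣ x) : sy π x = 1 ∨ sy π x = -1 :=
  sy_sgn (fun h1 => h (mem_sp.1 h1))

lemma sy_cs {π x : RR} (h : ¬ π ∣ x) : sy π x = ez (cs π x) := (ez_lg (sy_pm h)).symm

lemma sy_mul' {π : RR} (h : Pq π) (x y : RR) : sy π (x * y) = sy π x * sy π y :=
  sy_mulO h.prime h.od x y

lemma sy_one' {π : RR} (h : Pq π) : sy π 1 = 1 := sy_oneO h.prime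

lemma sy_per' {π a b : RR} (hab : π ∣ a - b) : sy π a = sy π b := sy_per π a b (mem_sp.2 hab)

/-- real values -/
def V3 (z : ℂ) : Prop := z = 0 ∨ z = 1 ∨ z = -1

lemma V3.mul {z w : ℂ} (hz : V3 z) (hw : V3 w) : V3 (z * w) := by
  unfold V3 at *
  rcases hz with rfl | rfl | rfl <;> rcases hw with rfl | rfl | rfl <;> simp

lemma V3.one : V3 1 := Or.inr (Or.inl rfl)

lemma V3.norm {z : ℂ} (hz : V3 z) : ‖z‖ ≤ 1 := by
  rcases hz with rfl | rfl | rfl <;> simp

lemma V3.conj {z : ℂ} (hz : V3 z) : conj z = z := by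
  rcases hz with rfl | rfl | rfl <;> simp

lemma V3.pow {z : ℂ} (hz : V3 z) (n : ℕ) : V3 (z ^ n) := by
  induction n with
  | zero => rw [pow_zero]; exact V3.one
  | succ n ih => rw [pow_succ]; exact ih.mul hz

lemma sy_V3 (π x : RR) : V3 (sy π x) := by
  rcases sy_val π x with h | h
  · exact Or.inl h.2
  · exact Or.inr h.2

lemma e7_V3 (x : RR) : V3 (e7 x) := by
  rw [← QD.sy_fR]
  exact sy_V3 _ _

lemma jac_V3 (n a : RR) : V3 (jac n a) := by
  unfold jac
  exact Finset.prod_induction _ V3 (fun _ _ => V3.mul) V3.one (fun _ _ => sy_V3 _ _)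

lemma kp_V3 (a : RR) : V3 (kp a) := by
  unfold kp V3
  split_ifs <;> simp

lemma kp_mul (a b : RR) : kp (a * b) = kp a * kp b := by
  unfold kp
  rw [nrm_mul, Nat.mul_mod]
  have h1 : nrm a % 4 < 4 := Nat.mod_lt _ (by norm_num)
  have h2 : nrm b % 4 < 4 := Nat.mod_lt _ (by norm_num)
  generalize nrm a % 4 = s at *
  generalize nrm b % 4 = t at *
  interval_cases s <;> interval_cases t <;> norm_num

lemma kp_one : kp 1 = 1 := by
  unfold kp
  rw [nrm_one]
  norm_num

lemma kp_per {a b : RR} (h : (4 : RR) ∣ a - b) : kp a = kp b := by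
  obtain ⟨c, hc⟩ := h
  have h1 : a = b + 4 * c := by linear_combination hc
  have h2 : cX a = cX b + 4 * cX c ∧ cY a = cY b + 4 * cY c := by
    rw [h1, (cXY_add _ _).1, (cXY_add _ _).2]
    have e : (4 : RR) = ((4 : ℤ) : RR) := by push_cast; rfl
    rw [e, (cXY_mul _ _).1, (cXY_mul _ _).2, (cXY_int _).1, (cXY_int _).2]
    constructor <;> ring
  have h3 : nrm a % 4 = nrm b % 4 := by
    have ha := nrm_eq' a
    have hb := nrm_eq' b
    rw [h2.1, h2.2] at ha
    have h4 : (nrm a : ℤ) = nrm b + 4 * (2 * cX b * cX c + 4 * cX c ^ 2 + cX b * cY c + cX c * cY b +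
        4 * (cX c * cY c) + 4 * cY b * cY c + 8 * cY c ^ 2) := by
      rw [ha, hb]; ring
    omega
  unfold kp
  rw [h3]

lemma jac_one_left (a : RR) : jac 1 a = 1 := by unfold jac; rw [PD_one]; simp

lemma jac_prime {π : RR} (h : Pq π) (a : RR) : jac π a = sy π a := by
  unfold jac; rw [PD_prime h]; simp

lemma jac_mul_right {n : RR} (hn : n ≠ 0) (a b : RR) : jac n (a * b) = jac n a * jac n b := by
  unfold jac
  rw [← Finset.prod_mul_distrib]
  exact Finset.prod_congr rfl fun π hπ => sy_mul' ((mem_PD hn).1 hπ).1 _ _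

lemma jac_one_right {n : RR} (hn : n ≠ 0) : jac n 1 = 1 := by
  unfold jac
  exact Finset.prod_eq_one fun π hπ => sy_one' ((mem_PD hn).1 hπ).1

lemma jac_prod {n : RR} (hn : n ≠ 0) {κ : Type*} (s : Finset κ) (f : κ → RR) :
    jac n (∏ i ∈ s, f i) = ∏ i ∈ s, jac n (f i) := by
  classical
  induction s using Finset.induction_on with
  | empty => rw [Finset.prod_empty, Finset.prod_empty, jac_one_right hn]
  | insert a s ha ih => rw [Finset.prod_insert ha, Finset.prod_insert ha, jac_mul_right hn, ih]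

lemma jac_per {n a b : RR} (hn : n ≠ 0) (h : n ∣ a - b) : jac n a = jac n b :=
  Finset.prod_congr rfl fun _ hπ => sy_per' (((mem_PD hn).1 hπ).2.trans h)

lemma jac_norm (n a : RR) : ‖jac n a‖ ≤ 1 := (jac_V3 n a).norm

lemma jac_cop {n a : RR} (hn : PS n) (h : jac n a ≠ 0) : IsCoprime n a := by
  have h3 : ∏ π ∈ PD n, π = n := hn.prod
  rw [← h3, IsCoprime.prod_left_iff]
  intro π hπ
  have hπP := ((mem_PD hn.ne).1 hπ).1
  rw [hπP.prime.irreducible.coprime_iff_not_dvd]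
  intro hd
  exact h (prod_eq_zero hπ (sy_zero_iff'.2 hd))

/-- the norm of a primary element is odd -/
lemma nrm_odd {a : RR} (h : prm a) : nrm a % 4 = 1 ∨ nrm a % 4 = 3 := by
  have h1 : nrm a % 2 = 1 := by
    by_contra h2
    have h3 : 2 ∣ nrm a := Nat.dvd_of_mod_eq_zero (by omega)
    have h4 : ((nrm a : ℕ) : RR) = a * cj a := by
      rw [mul_cj, ← nrm_cast]
      simp
    have h5 : aR ∣ a * cj a := by
      rw [← h4]
      obtain ⟨k, hk⟩ := h3
      rw [hk]
      push_cast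
      rw [two_eq]
      exact ((dvd_mul_right aR (cj aR)).mul_right _)
    rcases prime_aR.dvd_or_dvd h5 with h6 | h6
    · exact not_aR h h6
    · obtain ⟨c, hc⟩ := h6
      apply h.cop2
      refine ⟨cj c, ?_⟩
      have := congrArg cj hc
      rw [map_mul] at this
      rw [← this]
      exact (cj_cj a).symm
  omega

lemma kp_prm {a : RR} (h : prm a) : kp a = ez (tt a) := by
  unfold kp tt
  rcases nrm_odd h with h1 | h1
  · rw [if_pos h1, if_neg (by omega), ez_zero]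
  · rw [if_neg (by omega), if_pos h1, if_pos h1, ez_one]

lemma tt_mul {a b : RR} (ha : prm a) (hb : prm b) : tt (a * b) = tt a + tt b := by
  unfold tt
  rw [nrm_mul, Nat.mul_mod]
  rcases nrm_odd ha with h1 | h1 <;> rcases nrm_odd hb with h2 | h2 <;> rw [h1, h2] <;>
    norm_num <;> decide

/-- the type of a prime in terms of the norm -/
lemma tp_tt {π : RR} (h : Pq π) : tp π = tt π := by
  unfold tt
  rcases h.pn.cases with h1 | ⟨p, A, B, h1, -⟩
  · rw [QD.tp_pm h1, if_neg]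
    obtain ⟨u, hu⟩ := h1.m4
    have h2 : kp π = kp 1 := kp_per ⟨u, by rw [hu]; ring⟩
    intro h3
    rw [kp_one] at h2
    unfold kp at h2
    rw [if_neg (by omega), if_pos h3] at h2
    norm_num at h2
  · rw [h1.tp, if_pos]
    have h2 : (nrm π : ℤ) = p := by rw [nrm_cast, h1.nR]
    have h3 : nrm π = p := by exact_mod_cast h2
    rw [h3]
    exact h1.m4

/-- the reciprocity law -/
theorem recP : RecP := by
  intro π ρ h h' hne
  have h1 := recG h.pn h'.prime h'.od (fun hd => hne (eq_of_dvd h' h (mem_sp.1 hd)).symm)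
    (fun hd => hne (eq_of_dvd h h' (mem_sp.1 hd)))
  rw [et_pn h'.pn, tp_tt h, tp_tt h'] at h1
  have h2 : ∀ x : ZMod 2, x + x = 0 := by decide
  show lg (sy π ρ) + lg (sy ρ π) = _
  rw [h1]
  linear_combination h2 (lg (sy ρ π))

/-- the sign in the reciprocity law -/
lemma sy_rec {π ρ : RR} (h : Pq π) (h' : Pq ρ) : sy π ρ = sy ρ π * ez (tt π * tt ρ) := by
  by_cases he : π = ρ
  · subst he
    have h1 : sy π π = 0 := sy_zero_iff'.2 dvd_rfl
    rw [h1, zero_mul]
  · have h1 : ¬ π ∣ ρ := fun hd => he (eq_of_dvd h h' hd)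
    have h2 : ¬ ρ ∣ π := fun hd => he (eq_of_dvd h' h hd).symm
    rw [sy_cs h1, sy_cs h2, ← ez_add, ← recP π ρ h h' he]
    congr 1
    have h2 : ∀ x y : ZMod 2, x = y + (x + y) := by decide
    exact h2 _ _

lemma tt_prod {S : Finset RR} (hS : ∀ π ∈ S, prm π) : tt (∏ π ∈ S, π) = ∑ π ∈ S, tt π := by
  classical
  induction S using Finset.induction_on with
  | empty =>
    rw [prod_empty, sum_empty]
    unfold tt
    rw [nrm_one]
    norm_num
  | insert a s ha ih =>
    have hs : ∀ π ∈ s, prm π := fun π hπ => hS π (mem_insert_of_mem hπ)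
    rw [prod_insert ha, sum_insert ha, tt_mul (hS a (mem_insert_self _ _)) (prm_prod hs), ih hs]

/-- reciprocity -/
theorem jac_rec {m n : RR} (hm : PS m) (hn : PS n) : jac m n = jac n m * ez (tt m * tt n) := by
  have h1 : jac m n = ∏ π ∈ PD m, ∏ ρ ∈ PD n, sy π ρ := by
    unfold jac
    refine Finset.prod_congr rfl fun π hπ => ?_
    have hπ' := ((mem_PD hm.ne).1 hπ).1
    have h2 := jac_prod (pq_ne hπ') (PD n) (fun ρ => ρ)
    rw [hn.prod, jac_prime hπ'] at h2
    rw [h2]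
    exact Finset.prod_congr rfl fun ρ _ => jac_prime hπ' ρ
  have h2 : jac n m = ∏ ρ ∈ PD n, ∏ π ∈ PD m, sy ρ π := by
    unfold jac
    refine Finset.prod_congr rfl fun π hπ => ?_
    have hπ' := ((mem_PD hn.ne).1 hπ).1
    have h2 := jac_prod (pq_ne hπ') (PD m) (fun ρ => ρ)
    rw [hm.prod, jac_prime hπ'] at h2
    rw [h2]
    exact Finset.prod_congr rfl fun ρ _ => jac_prime hπ' ρ
  have h3 : tt m = ∑ π ∈ PD m, tt π := by
    rw [← tt_prod fun π hπ => ((mem_PD hm.ne).1 hπ).1.prm, hm.prod]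
  have h4 : tt n = ∑ π ∈ PD n, tt π := by
    rw [← tt_prod fun π hπ => ((mem_PD hn.ne).1 hπ).1.prm, hn.prod]
  rw [h1, h2, Finset.prod_comm, h3, h4, sum_mul_sum, sum_comm, ez_sum, ← prod_mul_distrib]
  refine Finset.prod_congr rfl fun ρ hρ => ?_
  rw [ez_sum, ← prod_mul_distrib]
  refine Finset.prod_congr rfl fun π hπ => ?_
  exact sy_rec ((mem_PD hm.ne).1 hπ).1 ((mem_PD hn.ne).1 hρ).1

/-- the sign as a combination of characters -/
lemma ez_tt (m n : RR) (hm : prm m) (hn : prm n) :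
    ez (tt m * tt n) = (1 + kp m + kp n - kp m * kp n) / 2 := by
  rw [kp_prm hm, kp_prm hn]
  have h : ∀ a : ZMod 2, a = 0 ∨ a = 1 := by decide
  rcases h (tt m) with h1 | h1 <;> rcases h (tt n) with h2 | h2 <;> rw [h1, h2] <;>
    norm_num [ez_zero, ez_one]

/-! ### Twists -/

/-- the modulus `4 √-7` -/
noncomputable def q0 : RR := 4 * fR

lemma four_eq : (4 : RR) = (aR * cj aR) * (aR * cj aR) := by
  rw [← two_eq]; norm_num

lemma r4_four (x : RR) : r4 (4 * x) = 0 := by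
  rw [map_mul, map_ofNat]
  have : (OfNat.ofNat 4 : ZMod 4) = 0 := by decide
  rw [this, zero_mul]

lemma prm_per {a b : RR} (h : q0 ∣ a - b) (ha : prm a) : prm b := by
  unfold q0 at h
  have h4 : (4 : RR) ∣ a - b := (dvd_mul_right _ _).trans h
  have h7 : fR ∣ a - b := (dvd_mul_left _ _).trans h
  refine ⟨?_, ?_, ?_⟩
  · obtain ⟨c, hc⟩ := h4
    have h1 : b = a - 4 * c := by linear_combination -hc
    rw [h1, map_sub, r4_four, ha.r4, sub_zero]
  · intro h1
    apply ha.cop2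
    have h2 : cj aR ∣ a - b := by
      refine dvd_trans ?_ h4
      rw [four_eq]
      exact ((dvd_mul_left (cj aR) aR).mul_right _)
    have := dvd_add h2 h1
    rwa [sub_add_cancel] at this
  · intro h1
    apply ha.cop7
    have := dvd_add h7 h1
    rwa [sub_add_cancel] at this

lemma prm_cop {a : RR} (h : prm a) : IsCoprime a q0 := by
  unfold q0
  rw [four_eq]
  have h1 : IsCoprime a aR := ((prime_aR.irreducible.coprime_iff_not_dvd).2 (not_aR h)).symm
  have h2 : IsCoprime a (cj aR) := ((prime_cjaR.irreducible.coprime_iff_not_dvd).2 h.cop2).symm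
  have h3 : IsCoprime a fR := ((prime_fR.irreducible.coprime_iff_not_dvd).2 h.cop7).symm
  exact ((h1.mul_right h2).mul_right (h1.mul_right h2)).mul_right h3

lemma nrm_q0 : nrm q0 = 112 := by
  unfold q0
  rw [nrm_mul]
  have h1 : nrm (4 : RR) = 16 := by
    unfold nrm nR
    have e : (4 : RR) = ((4 : ℤ) : RR) := by push_cast; rfl
    rw [e, (cXY_int _).1, (cXY_int _).2]
    norm_num
  have h2 : nrm fR = 7 := by
    unfold nrm
    rw [nR_fR]
    rfl
  rw [h1, h2]

lemma q0_ne : q0 ≠ 0 := by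
  intro h
  have := nrm_q0
  rw [h] at this
  unfold nrm nR at this
  have h1 := cXY_int 0
  rw [Int.cast_zero] at h1
  rw [h1.1, h1.2] at this
  norm_num at this

/-- prescribed symbols -/
lemma exists_twist {S : Finset RR} (hS : ∀ ρ ∈ S, Pq ρ) {π : RR} (hπ : Pq π) (hπS : π ∉ S) :
    ∃ c : RR, q0 ∣ c - 1 ∧ sy π c = -1 ∧ (∀ ρ ∈ S, sy ρ c = 1) := by
  set m : RR := q0 * ∏ ρ ∈ S, ρ with hm
  have hcop : IsCoprime π m := by
    refine IsCoprime.mul_right (prm_cop hπ.prm) ?_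
    rw [IsCoprime.prod_right_iff]
    intro ρ hρ
    exact pq_cop hπ (hS ρ hρ) fun h => hπS (by rw [h]; exact hρ)
  obtain ⟨b, hb⟩ := nonsq hπ.prime hπ.od
  obtain ⟨x, y, hxy⟩ := hcop
  set a : RR := x * π + b * (y * m) with ha
  have ha1 : m ∣ a - 1 := ⟨b * y - y, by rw [ha]; linear_combination hxy⟩
  have ha2 : π ∣ a - b := ⟨x - b * x, by rw [ha]; linear_combination b * hxy⟩
  refine ⟨a, (dvd_mul_right _ _).trans ha1, ?_, ?_⟩
  · rw [sy_per' ha2, hb]
  · intro ρ hρ
    have h1 : ρ ∣ a - 1 := (Finset.dvd_prod_of_mem _ hρ).trans ((dvd_mul_left _ _).trans ha1)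
    rw [sy_per' h1, sy_one' (hS ρ hρ)]

/-- prescribed classes modulo `4 √-7` -/
lemma exists_twist0 {S : Finset RR} (hS : ∀ ρ ∈ S, Pq ρ) (c₀ : RR) :
    ∃ c : RR, q0 ∣ c - c₀ ∧ (∀ ρ ∈ S, sy ρ c = 1) := by
  have hcop : IsCoprime (∏ ρ ∈ S, ρ) q0 := by
    rw [IsCoprime.prod_left_iff]
    exact fun ρ hρ => prm_cop (hS ρ hρ).prm
  obtain ⟨x, y, hxy⟩ := hcop
  refine ⟨c₀ * (x * ∏ ρ ∈ S, ρ) + y * q0, ⟨y - c₀ * y, by linear_combination c₀ * hxy⟩, ?_⟩
  intro ρ hρ
  have h1 : ρ ∣ c₀ * (x * ∏ ρ ∈ S, ρ) + y * q0 - 1 := by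
    refine (Finset.dvd_prod_of_mem (fun ρ : RR => ρ) hρ).trans ?_
    exact ⟨c₀ * x - x, by linear_combination hxy⟩
  rw [sy_per' h1, sy_one' (hS ρ hρ)]

lemma e7_per' {a b : RR} (h : q0 ∣ a - b) : e7 a = e7 b :=
  e7_per (mem_sp.2 ((dvd_mul_left _ _).trans h))

lemma kp_per' {a b : RR} (h : q0 ∣ a - b) : kp a = kp b := kp_per ((dvd_mul_right _ _).trans h)

/-- an element with `e7 = -1` and `kp = 1` -/
lemma el5 : prm (5 : RR) ∧ e7 5 = -1 ∧ kp 5 = 1 := by
  have e : (5 : RR) = ((5 : ℤ) : RR) := by push_cast; rfl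
  have hn : nrm (5 : RR) = 25 := by
    unfold nrm nR
    rw [e, (cXY_int _).1, (cXY_int _).2]
    norm_num
  have h7 : e7 (5 : RR) = -1 := by
    have h := e7_nat 5
    rw [qc7.2.2.2.2.2.1] at h
    have e5 : ((5 : ℕ) : RR) = 5 := by norm_num
    rw [e5] at h
    rw [h]
    norm_num
  refine ⟨⟨?_, ?_, ?_⟩, h7, ?_⟩
  · rw [map_ofNat]
    decide
  · intro h
    obtain ⟨c, hc⟩ := h
    have h1 := congrArg nrm hc
    rw [nrm_mul, hn] at h1
    have h2 : nrm (cj aR) = 2 := by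
      have h3 := congrArg nrm two_eq
      rw [nrm_mul] at h3
      have h4 : nrm (2 : RR) = 4 := by
        unfold nrm nR
        have e : (2 : RR) = ((2 : ℤ) : RR) := by push_cast; rfl
        rw [e, (cXY_int _).1, (cXY_int _).2]
        norm_num
      have h5 : nrm aR = 2 := by
        unfold nrm nR
        rw [cXY_aR.1, cXY_aR.2]
        norm_num
      rw [h4, h5] at h3
      omega
    rw [h2] at h1
    omega
  · intro h
    have h1 := e7_eq_zero.2 (mem_sp.2 h)
    rw [h7] at h1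
    norm_num at h1
  · unfold kp
    rw [hn]
    norm_num

end Pool.Agent.R426.QK
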